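import Mathlib

/-!
From synchronised stage paths to a language with the synchronous fellow traveller property.
-/

namespace Pool.Agent.P.MP_91c514_al

variable {G : Type} [Group G] {m : ℕ}

/-- `h` is `g` times a positive word of length `k`. -/
def Pw (a : Fin m → G) (k : ℕ) (g h : G) : Prop :=
  ∃ w : List (Fin m), w.length = k ∧ g * (w.map a).prod = h

/-- `h` is `g` times a word of length at most `k`. -/
def Nr (a : Fin m → G) (k : ℕ) (g h : G) : Prop :=
  ∃ w : List (Fin m ⊕ Fin m), w.length ≤ k ∧ g * (w.map (Sum.elim a fun i => (a i)⁻¹)).prod = h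

variable {a : Fin m → G}

lemma Nr.refl (k : ℕ) (g : G) : Nr a k g g := ⟨[], Nat.zero_le _, by simp⟩

lemma Nr.mono {j k : ℕ} {g h : G} (e : Nr a j g h) (hjk : j ≤ k) : Nr a k g h := by
  obtain ⟨w, h1, h2⟩ := e
  exact ⟨w, h1.trans hjk, h2⟩

lemma Nr.trans {j k : ℕ} {g h l : G} (e : Nr a j g h) (e' : Nr a k h l) : Nr a (j + k) g l := by
  obtain ⟨w, h1, rfl⟩ := e
  obtain ⟨w', h1', rfl⟩ := e'
  exact ⟨w ++ w', by simp; omega, by simp [mul_assoc]⟩

lemma Nr.symm {k : ℕ} {g h : G} (e : Nr a k g h) : Nr a k h g := by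
  obtain ⟨w, h1, rfl⟩ := e
  refine ⟨(w.map Sum.swap).reverse, by simpa using h1, ?_⟩
  rw [mul_assoc, mul_eq_left]
  clear h1
  induction w with
  | nil => simp
  | cons x w ih =>
    simp only [List.map_cons, List.prod_cons, List.reverse_cons, List.map_append,
      List.prod_append, List.map_nil, List.prod_nil, mul_one]
    rw [mul_assoc, ← mul_assoc (List.prod _), ih, one_mul]
    cases x <;> simp

lemma nr_word (g : G) (w : List (Fin m)) : Nr a w.length g (g * (w.map a).prod) :=
  ⟨w.map Sum.inl, by simp, by simp [List.map_map, Function.comp_def]⟩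

lemma Pw.nr {k : ℕ} {g h : G} (e : Pw a k g h) : Nr a k g h := by
  obtain ⟨w, rfl, rfl⟩ := e
  exact nr_word g w

/-- Concatenation of the step words. -/
def wd (st : ℕ → List (Fin m)) : ℕ → List (Fin m)
  | 0 => []
  | T + 1 => wd st T ++ st T

lemma comb_of_paths (s K : ℕ) (hs : 0 < s) (γ : G → ℕ → G) (h0 : ∀ g, γ g 0 = 1)
    (h1 : ∀ g t, Pw a s (γ g t) (γ g (t + 1))) (h2 : ∀ g b t, Nr a K (γ g t) (γ (g * a b) t))
    (h3 : ∀ g, ∃ T, ∀ t, T ≤ t → γ g t = g) :
    ∃ (L : Set (List (Fin m))) (k : ℕ), (∀ g : G, ∃ w ∈ L, (w.map a).prod = g) ∧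
      (∀ u ∈ L, ∀ v ∈ L, (u.map a).prod = (v.map a).prod → u = v) ∧
      (∀ u ∈ L, ∀ v ∈ L,
        ((u.map a).prod = (v.map a).prod ∨ ∃ b : Fin m, (u.map a).prod * a b = (v.map a).prod) →
        ∀ t : ℕ, Nr a k ((u.take t).map a).prod ((v.take t).map a).prod) := by
  choose st hl hst using h1
  choose T hT using h3
  have hlen : ∀ g n, (wd (st g) n).length = s * n := by
    intro g n
    induction n with
    | zero => rfl
    | succ n ih => rw [wd, List.length_append, ih, hl, mul_add, mul_one]
  have hprod : ∀ g n, ((wd (st g) n).map a).prod = γ g n := by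
    intro g n
    induction n with
    | zero => rw [h0]; rfl
    | succ n ih => rw [wd, List.map_append, List.prod_append, ih, hst]
  have hval : ∀ g, ((wd (st g) (T g)).map a).prod = g := fun g => by
    rw [hprod, hT g _ le_rfl]
  have hpre : ∀ g n t, t ≤ s * n →
      Nr a (s + s) (((wd (st g) n).take t).map a).prod (γ g (t / s)) := by
    intro g n
    induction n with
    | zero =>
      intro t ht
      obtain rfl : t = 0 := by omega
      simpa [h0] using Nr.refl (a := a) (s + s) (1 : G)
    | succ n ih =>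
      intro t ht
      by_cases h : t ≤ s * n
      · rw [wd, List.take_append_of_le_length (by rw [hlen]; exact h)]
        exact ih t h
      · rw [wd, List.take_append, List.take_of_length_le (by rw [hlen]; omega), List.map_append,
          List.prod_append, hprod]
        have e1 : Nr a s (γ g n * (((st g n).take (t - (wd (st g) n).length)).map a).prod)
            (γ g n) := (nr_word _ _).symm.mono (by rw [← hl g n]; exact List.length_take_le' _ _)
        have e2 : n ≤ t / s := (Nat.le_div_iff_mul_le hs).2 (by rw [mul_comm]; omega)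
        have e3 : t / s ≤ n + 1 := Nat.div_le_of_le_mul ht
        rcases e2.eq_or_lt with e | e
        · rw [← e]; exact e1.mono (by omega)
        · rw [show t / s = n + 1 by omega]
          exact e1.trans (Pw.nr ⟨_, hl g n, hst g n⟩)
  have hpre' : ∀ g t, Nr a (s + s) (((wd (st g) (T g)).take t).map a).prod (γ g (t / s)) := by
    intro g t
    by_cases h : t ≤ s * T g
    · exact hpre g _ t h
    · rw [List.take_of_length_le (by rw [hlen]; omega), hval,
        hT g _ ((Nat.le_div_iff_mul_le hs).2 (by rw [mul_comm]; omega))]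
      exact Nr.refl _ _
  refine ⟨Set.range fun g => wd (st g) (T g), s + s + K + (s + s),
    fun g => ⟨_, ⟨g, rfl⟩, hval g⟩, ?_, ?_⟩
  · rintro _ ⟨g, rfl⟩ _ ⟨g', rfl⟩ h
    rw [hval, hval] at h
    rw [h]
  · rintro _ ⟨g, rfl⟩ _ ⟨g', rfl⟩ h t
    rw [hval, hval] at h
    rcases h with rfl | ⟨b, rfl⟩
    · exact Nr.refl _ _
    · exact ((hpre' g t).trans (h2 g b _)).trans (hpre' _ t).symm

/-- The clock running through the stages. -/
def clock (N : ℕ → ℕ) : ℕ → ℕ × ℕ
  | 0 => (0, 0)
  | t + 1 => if (clock N t).2 + 1 < N (clock N t).1 then ((clock N t).1, (clock N t).2 + 1)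
      else ((clock N t).1 + 1, 0)

lemma clock_mono (N : ℕ → ℕ) : Monotone fun t => (clock N t).1 := by
  refine monotone_nat_of_le_succ fun t => ?_
  rw [clock]
  split_ifs <;> simp

lemma clock_unb (N : ℕ → ℕ) (k : ℕ) : ∃ t, k ≤ (clock N t).1 := by
  induction k with
  | zero => exact ⟨0, le_rfl⟩
  | succ k ih =>
    obtain ⟨t, ht⟩ := ih
    by_contra hc
    push Not at hc
    have h1 : ∀ i, (clock N (t + i)).1 = k := fun i => by
      have := hc (t + i)
      have := clock_mono N (Nat.le_add_right t i)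
      simp only at this
      omega
    have h2 : ∀ i, i ≤ (clock N (t + i)).2 ∧ (0 < i → (clock N (t + i)).2 < N k) := by
      intro i
      induction i with
      | zero => simp
      | succ i ih =>
        have e := h1 (i + 1)
        have e' := h1 i
        rw [← add_assoc, clock] at e ⊢
        split_ifs at e ⊢ with h
        · rw [e'] at h
          exact ⟨by simp; omega, fun _ => h⟩
        · simp at e; omega
    have := h2 (N k + 1)
    omega

lemma comb_of_stages (s K : ℕ) (hs : 0 < s) (N : ℕ → ℕ) (f : G → ℕ → ℕ → G)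
    (h0 : ∀ g, f g 0 0 = 1) (hN : ∀ g k j, N k ≤ j → f g k j = f g (k + 1) 0)
    (h1 : ∀ g k j, Pw a s (f g k j) (f g k (j + 1)))
    (h2 : ∀ g b k j, Nr a K (f g k j) (f (g * a b) k j))
    (h3 : ∀ g, ∃ k0, ∀ k j, k0 ≤ k → f g k j = g) :
    ∃ (L : Set (List (Fin m))) (k : ℕ), (∀ g : G, ∃ w ∈ L, (w.map a).prod = g) ∧
      (∀ u ∈ L, ∀ v ∈ L, (u.map a).prod = (v.map a).prod → u = v) ∧
      (∀ u ∈ L, ∀ v ∈ L,
        ((u.map a).prod = (v.map a).prod ∨ ∃ b : Fin m, (u.map a).prod * a b = (v.map a).prod) →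
        ∀ t : ℕ, Nr a k ((u.take t).map a).prod ((v.take t).map a).prod) := by
  refine comb_of_paths s K hs (fun g t => f g (clock N t).1 (clock N t).2) h0 (fun g t => ?_)
    (fun g b t => h2 _ _ _ _) fun g => ?_
  · simp only [clock]
    split_ifs with h
    · exact h1 _ _ _
    · rw [← hN g _ ((clock N t).2 + 1) (by omega)]
      exact h1 _ _ _
  · obtain ⟨k0, hk⟩ := h3 g
    obtain ⟨T, hT⟩ := clock_unb N k0
    exact ⟨T, fun t ht => hk _ _ (hT.trans (clock_mono N ht))⟩

end Pool.Agent.P.MP_91c514_al
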