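import Pool.Agent.P.MP_91c514_al.Trees
import Pool.Agent.P.MP_91c514_al.Comb

/-!
Thompson's group `F` acting on infinite binary sequences; tree pairs.
-/

namespace Pool.Agent.P.MP_91c514_al

open Tr Stream'

/-- Infinite binary sequences. -/
abbrev Cn := Stream' Bool

lemma cn_ind {P : Cn → Prop} (h0 : ∀ w, P (cons false w)) (h1 : ∀ w, P (cons true w)) (ω : Cn) :
    P ω := by
  rw [← Stream'.eta ω]
  cases ω.head
  · exact h0 _
  · exact h1 _

/-- The generator `x₀`. -/
def x0 : Equiv.Perm Cn where
  toFun ω := if ω.head then cons true ω else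
    if ω.tail.head then cons true (cons false ω.tail.tail) else cons false ω.tail.tail
  invFun ω := if ω.head then (if ω.tail.head then ω.tail else cons false (cons true ω.tail.tail))
    else cons false ω
  left_inv := cn_ind (cn_ind (fun w => by simp) fun w => by simp) fun w => by simp
  right_inv := cn_ind (fun w => by simp) (cn_ind (fun w => by simp) fun w => by simp)

@[simp] lemma x0_00 (w : Cn) : x0 (cons false (cons false w)) = cons false w := by simp [x0]
@[simp] lemma x0_01 (w : Cn) : x0 (cons false (cons true w)) = cons true (cons false w) := by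
  simp [x0]
@[simp] lemma x0_1 (w : Cn) : x0 (cons true w) = cons true (cons true w) := by simp [x0]

/-- Acting on the cone of sequences starting with `b`. -/
def onF (b : Bool) (g : Cn → Cn) (ω : Cn) : Cn := if ω.head = b then cons b (g ω.tail) else ω

lemma onF_comp (b : Bool) (g h : Cn → Cn) (ω : Cn) :
    onF b g (onF b h ω) = onF b (fun x => g (h x)) ω := by
  unfold onF
  by_cases e : ω.head = b <;> simp [e]

lemma onF_id (b : Bool) (ω : Cn) : onF b (fun x => x) ω = ω := by
  unfold onF
  split_ifs with e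
  · rw [← e, Stream'.eta]
  · rfl

/-- Acting on a cone, as a homomorphism. -/
def on (b : Bool) : Equiv.Perm Cn →* Equiv.Perm Cn where
  toFun g :=
    { toFun := onF b g
      invFun := onF b g.symm
      left_inv := fun ω => by rw [onF_comp]; simpa using onF_id b ω
      right_inv := fun ω => by rw [onF_comp]; simpa using onF_id b ω }
  map_one' := Equiv.ext fun ω => onF_id b ω
  map_mul' g h := Equiv.ext fun ω => (onF_comp b g h ω).symm

@[simp] lemma on_same (b : Bool) (g : Equiv.Perm Cn) (w : Cn) :
    on b g (cons b w) = cons b (g w) := by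
  change onF b g _ = _
  simp [onF]

@[simp] lemma on_ft (g : Equiv.Perm Cn) (w : Cn) : on false g (cons true w) = cons true w := by
  change onF false g (cons true w) = _
  simp [onF]

@[simp] lemma on_tf (g : Equiv.Perm Cn) (w : Cn) : on true g (cons false w) = cons false w := by
  change onF true g (cons false w) = _
  simp [onF]

/-- The generator `x₁`. -/
def x1 : Equiv.Perm Cn := on true x0

/-- Leaf number and remaining sequence. -/
def dc : Tr → Cn → ℕ × Cn
  | leaf, ω => (0, ω)
  | node l r, ω => if ω.head then ((dc r ω.tail).1 + sz l, (dc r ω.tail).2) else dc l ω.tail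

@[simp] lemma dc_leaf (ω : Cn) : dc leaf ω = (0, ω) := rfl
@[simp] lemma dc_0 (l r : Tr) (w : Cn) : dc (node l r) (cons false w) = dc l w := by simp [dc]
@[simp] lemma dc_1 (l r : Tr) (w : Cn) :
    dc (node l r) (cons true w) = ((dc r w).1 + sz l, (dc r w).2) := by simp [dc]

lemma dc_lt (T : Tr) (ω : Cn) : (dc T ω).1 < sz T := by
  induction T generalizing ω with
  | leaf => simp
  | node l r ihl ihr =>
    induction ω using cn_ind with
    | h0 w => have := ihl w; simp; omega
    | h1 w => have := ihr w; simp; omega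

lemma dc_inj (T : Tr) {ω ω' : Cn} (h : dc T ω = dc T ω') : ω = ω' := by
  induction T generalizing ω ω' with
  | leaf => simpa using h
  | node l r ihl ihr =>
    induction ω using cn_ind with
    | h0 w =>
      induction ω' using cn_ind with
      | h0 w' => rw [ihl (ω := w) (ω' := w') (by simpa using h)]
      | h1 w' =>
        have := dc_lt l w
        have h1 := congrArg Prod.fst h
        simp at h1; omega
    | h1 w =>
      induction ω' using cn_ind with
      | h0 w' =>
        have := dc_lt l w'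
        have h1 := congrArg Prod.fst h
        simp at h1; omega
      | h1 w' =>
        simp only [dc_1, Prod.mk.injEq, add_left_inj] at h
        rw [ihr (Prod.ext h.1 h.2)]

lemma dc_tree {R R' : Tr} (h : ∀ ω, dc R ω = dc R' ω) : R = R' := by
  induction R generalizing R' with
  | leaf =>
    cases R' with
    | leaf => rfl
    | node l r =>
      have := congrArg Prod.fst (h (cons true (const true)))
      have := sz_pos l
      simp at *; omega
  | node l r ihl ihr =>
    cases R' with
    | leaf =>
      have := congrArg Prod.fst (h (cons true (const true)))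
      have := sz_pos l
      simp at *; omega
    | node l' r' =>
      obtain rfl : l = l' := ihl fun w => by simpa using h (cons false w)
      obtain rfl : r = r' := ihr fun w => by
        have := h (cons true w)
        simp only [dc_1, Prod.mk.injEq, add_left_inj] at this
        exact Prod.ext this.1 this.2
      rfl

/-- The effect of an expansion on addresses. -/
def exc (c : ℕ) (p : ℕ × Cn) : ℕ × Cn :=
  if p.1 < c then p else if p.1 = c then (if p.2.head then c + 1 else c, p.2.tail)
    else (p.1 + 1, p.2)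

lemma dc_ex (T : Tr) (c : ℕ) (ω : Cn) : dc (ex T c) ω = exc c (dc T ω) := by
  induction T generalizing c ω with
  | leaf =>
    rw [ex]
    split_ifs with h
    · subst h
      induction ω using cn_ind <;> simp [exc]
    · simp [exc, Nat.pos_of_ne_zero h]
  | node l r ihl ihr =>
    rw [ex]
    split_ifs with h
    · induction ω using cn_ind with
      | h0 w => simp [ihl]
      | h1 w =>
        rw [dc_1, dc_1, sz_ex h, exc, if_neg (by simp; omega), if_neg (by simp; omega)]
        rfl
    · induction ω using cn_ind with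
      | h0 w =>
        have := dc_lt l w
        rw [dc_0, dc_0, exc, if_pos (by omega)]
      | h1 w =>
        rw [dc_1, dc_1, ihr]
        generalize dc r w = p
        unfold exc
        dsimp only
        rcases lt_trichotomy p.1 (c - sz l) with h1 | h1 | h1
        · rw [if_pos h1, if_pos (by omega)]
        · rw [if_neg h1.not_lt, if_pos h1, if_neg (show ¬ p.1 + sz l < c by omega),
            if_pos (show p.1 + sz l = c by omega)]
          split_ifs <;> simp <;> omega
        · rw [if_neg h1.not_gt, if_neg h1.ne', if_neg (show ¬ p.1 + sz l < c by omega),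
            if_neg (show ¬ p.1 + sz l = c by omega)]
          simp; omega

/-- The tree pair `(U, R)` represents `g`. -/
def Rep (U R : Tr) (g : Equiv.Perm Cn) : Prop := ∀ ω, dc U (g ω) = dc R ω

lemma Rep.refl (U : Tr) : Rep U U 1 := fun _ => rfl

lemma Rep.mul {U R R' : Tr} {g h : Equiv.Perm Cn} (a : Rep U R g) (b : Rep R R' h) :
    Rep U R' (g * h) := fun ω => (a (h ω)).trans (b ω)

lemma Rep.inv {U R : Tr} {g : Equiv.Perm Cn} (a : Rep U R g) : Rep R U g⁻¹ := fun ω => by
  rw [← a]; simp

lemma Rep.unique {U R : Tr} {g h : Equiv.Perm Cn} (a : Rep U R g) (b : Rep U R h) : g = h :=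
  Equiv.ext fun ω => dc_inj U ((a ω).trans (b ω).symm)

lemma Rep.tree {U R R' : Tr} {g : Equiv.Perm Cn} (a : Rep U R g) (b : Rep U R' g) : R = R' :=
  dc_tree fun ω => (a ω).symm.trans (b ω)

lemma Rep.ex {U R : Tr} {g : Equiv.Perm Cn} (a : Rep U R g) (c : ℕ) :
    Rep (ex U c) (ex R c) g := fun ω => by rw [dc_ex, dc_ex, a]

lemma Rep.onR {U R : Tr} {g : Equiv.Perm Cn} (a : Rep U R g) (W : Tr) :
    Rep (node W U) (node W R) (on true g) :=
  cn_ind (fun w => by simp) fun w => by simp [a w]

lemma Rep.onL {U R : Tr} {g : Equiv.Perm Cn} (a : Rep U R g) (h : sz U = sz R) (W : Tr) :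
    Rep (node U W) (node R W) (on false g) :=
  cn_ind (fun w => by simp [a w]) fun w => by simp [h]

lemma rep_x0 (x y z : Tr) : Rep (node x (node y z)) (node (node x y) z) x0 :=
  cn_ind (cn_ind (fun w => by simp) fun w => by simp) fun w => by simp; omega

lemma rep_x1 (w x y z : Tr) :
    Rep (node w (node x (node y z))) (node w (node (node x y) z)) x1 :=
  (rep_x0 x y z).onR w

/-- Thompson's group `F`. -/
def FF : Subgroup (Equiv.Perm Cn) := Subgroup.closure {x0, x1}

lemma x0_mem : x0 ∈ FF := Subgroup.subset_closure (by simp)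
lemma x1_mem : x1 ∈ FF := Subgroup.subset_closure (by simp)

/-- The generators. -/
def gen : Fin 5 → FF := ![⟨x0, x0_mem⟩, ⟨x0, x0_mem⟩⁻¹, ⟨x1, x1_mem⟩, ⟨x1, x1_mem⟩⁻¹, 1]

lemma gen_closure : Submonoid.closure (Set.range gen) = ⊤ := by
  rw [eq_top_iff]
  rintro ⟨g, hg⟩ -
  have key : (⟨g, hg⟩ : FF) ∈ Submonoid.closure (Set.range gen) ∧
      (⟨g, hg⟩ : FF)⁻¹ ∈ Submonoid.closure (Set.range gen) := by
    induction hg using Subgroup.closure_induction with
    | mem x hx =>
      rcases hx with rfl | rfl
      · exact ⟨Submonoid.subset_closure ⟨0, rfl⟩, Submonoid.subset_closure ⟨1, rfl⟩⟩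
      · exact ⟨Submonoid.subset_closure ⟨2, rfl⟩, Submonoid.subset_closure ⟨3, rfl⟩⟩
    | one => exact ⟨Submonoid.one_mem _, Submonoid.subset_closure ⟨4, inv_one.symm⟩⟩
    | mul x y hx hy ihx ihy =>
      refine ⟨Submonoid.mul_mem _ ihx.1 ihy.1, ?_⟩
      have := Submonoid.mul_mem _ ihy.2 ihx.2
      rwa [← mul_inv_rev] at this
    | inv x hx ih => exact ⟨ih.2, ih.1⟩
  exact key.1

lemma st_gen {a b : Tr} (h : St a b) : ∃ i, Rep a b (gen i) := by
  rcases h with rfl | h | h
  · exact ⟨4, Rep.refl _⟩
  · cases h with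
    | rot x y z => exact ⟨1, (rep_x0 x y z).inv⟩
    | rot1 w x y z => exact ⟨3, (rep_x1 w x y z).inv⟩
  · cases h with
    | rot x y z => exact ⟨0, rep_x0 x y z⟩
    | rot1 w x y z => exact ⟨2, rep_x1 w x y z⟩

/-- Representation with a possibly empty tree. -/
def RX (U : Tr) (x : XT) (g : FF) : Prop := ∃ R : Tr, x = R ∧ Rep U R g

lemma RX.unique {U : Tr} {x : XT} {g h : FF} (a : RX U x g) (b : RX U x h) : g = h := by
  obtain ⟨R, rfl, a⟩ := a
  obtain ⟨R', e, b⟩ := b
  rw [← WithOne.coe_inj.1 e] at b
  exact Subtype.ext (a.unique b)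

lemma RX.ch {U : Tr} {x y : XT} {g : FF} {k : ℕ} (c : Ch EX k x y) (a : RX U x g) :
    ∃ h, RX U y h ∧ Pw gen k g h := by
  induction c with
  | refl => exact ⟨g, a, [], rfl, by simp⟩
  | @step _ _ _ z _ e ih =>
    obtain ⟨h, ⟨R, rfl, h1⟩, w, h2, rfl⟩ := ih a
    obtain ⟨R', rfl, hs⟩ : ∃ R' : Tr, z = (R' : XT) ∧ St R R' := by
      rcases e with rfl | ⟨a', b', e1, e2, e⟩
      · exact ⟨R, rfl, Or.inl rfl⟩
      · exact ⟨b', e2, WithOne.coe_inj.1 e1 ▸ e⟩
    obtain ⟨i, hi⟩ := st_gen hs
    exact ⟨g * (w.map gen).prod * gen i, ⟨R', rfl, h1.mul hi⟩, w ++ [i], by simp [h2],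
      by simp [mul_assoc]⟩

lemma RX.pw {U : Tr} {x y : XT} {g h : FF} {k : ℕ} (c : Ch EX k x y) (a : RX U x g)
    (b : RX U y h) : Pw gen k g h := by
  obtain ⟨h', h1, h2⟩ := RX.ch c a
  rwa [h1.unique b] at h2

lemma mem_of_ch {R R' : Tr} {k : ℕ} {g : Equiv.Perm Cn} (c : Ch EX k (R : XT) R')
    (a : Rep R R' g) : g ∈ FF := by
  obtain ⟨h, ⟨R'', e, h1⟩, -⟩ := RX.ch (U := R) (g := 1) c ⟨R, rfl, Rep.refl R⟩
  rw [← WithOne.coe_inj.1 e] at h1
  rw [a.unique h1]
  exact h.2

lemma on_mem (b : Bool) {g : Equiv.Perm Cn} (hg : g ∈ FF) : on b g ∈ FF := by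
  have key : ∀ {R R' : Tr} {g : Equiv.Perm Cn}, Mv R' R → Rep R R' g → on b g ∈ FF := by
    intro R R' g hm hr
    have e : Ch EX 1 (R : XT) R' := Ch.one (St.ex (Or.inr (Or.inr hm)))
    cases b
    · exact mem_of_ch (R := node R leaf) (R' := node R' leaf) (Met.holdR (M := MX) (leaf : Tr) e)
        (hr.onL (sz_mv hm).symm leaf)
    · exact mem_of_ch (R := node leaf R) (R' := node leaf R') (Met.holdL (M := MX) (leaf : Tr) e)
        (hr.onR leaf)
  induction hg using Subgroup.closure_induction with
  | mem x hx =>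
    rcases hx with rfl | rfl
    · exact key (Mv.rot leaf leaf leaf) (rep_x0 _ _ _)
    · exact key (Mv.rot1 leaf leaf leaf leaf) (rep_x1 _ _ _ _)
  | one => rw [map_one]; exact FF.one_mem
  | mul x y _ _ ihx ihy => rw [map_mul]; exact FF.mul_mem ihx ihy
  | inv x _ ih => rw [map_inv]; exact FF.inv_mem ih

lemma on_commute (g h : Equiv.Perm Cn) : Commute (on false g) (on true h) :=
  Equiv.ext (cn_ind (fun w => by simp) fun w => by simp)

lemma on_eq_one {g h : Equiv.Perm Cn} (e : on false g * on true h = 1) : g = 1 ∧ h = 1 := by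
  constructor
  · refine Equiv.ext fun w => ?_
    have := Equiv.congr_fun e (cons false w)
    simpa using congrArg Stream'.tail this
  · refine Equiv.ext fun w => ?_
    have := Equiv.congr_fun e (cons true w)
    simpa using congrArg Stream'.tail this

lemma x0_pow (k : ℕ) : ∃ w : Cn, (x0 ^ k) (cons true (const false)) = cons true w ∧
    (0 < k → w.head = true) := by
  induction k with
  | zero => exact ⟨const false, rfl, fun h => absurd h (lt_irrefl _)⟩
  | succ k ih =>
    obtain ⟨w, h, -⟩ := ih
    exact ⟨cons true w, by rw [pow_succ', Equiv.Perm.mul_apply, h, x0_1], fun _ => rfl⟩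

lemma x0_zpow {k : ℤ} (h : x0 ^ k = 1) : k = 0 := by
  have h1 : x0 ^ k.natAbs = 1 := by
    rcases Int.natAbs_eq k with e | e
    · rw [← zpow_natCast, ← e, h]
    · rw [← zpow_natCast, ← inv_eq_one, ← zpow_neg, ← e, h]
  obtain ⟨w, h2, h3⟩ := x0_pow k.natAbs
  by_contra hk
  have h4 := h3 (Int.natAbs_pos.2 hk)
  rw [h1] at h2
  have h5 : const false = w := congrArg Stream'.tail h2
  rw [← h5] at h4
  exact absurd h4 (by decide)

lemma exists_zn (n : ℕ) : ∃ ι : (Fin n → ℤ) → FF, Function.Injective ι ∧
    ∀ a b, ι (a + b) = ι a * ι b := by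
  have key : ∃ ι : (Fin n → ℤ) → FF, (∀ a, ι a = 1 → a = 0) ∧ ∀ a b, ι (a + b) = ι a * ι b := by
    induction n with
    | zero => exact ⟨fun _ => 1, fun a _ => Subsingleton.elim _ _, fun _ _ => by simp⟩
    | succ n ih =>
      obtain ⟨ι, h1, h2⟩ := ih
      refine ⟨fun a => ⟨on false (x0 ^ a 0) * on true (ι (Fin.tail a)),
        FF.mul_mem (on_mem _ (FF.zpow_mem x0_mem _)) (on_mem _ (ι _).2)⟩, fun a ha => ?_,
        fun a b => Subtype.ext ?_⟩
      · obtain ⟨e1, e2⟩ := on_eq_one (congrArg Subtype.val ha)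
        funext i
        refine Fin.cases (x0_zpow e1) (fun j => ?_) i
        exact congrFun (h1 _ (Subtype.ext e2)) j
      · have e : Fin.tail (a + b) = Fin.tail a + Fin.tail b := rfl
        simp only [Subgroup.coe_mul, Pi.add_apply, zpow_add, map_mul, e, h2]
        rw [mul_assoc, mul_assoc, ← mul_assoc (on false (x0 ^ b 0)), (on_commute _ _).eq,
          mul_assoc]
  obtain ⟨ι, h1, h2⟩ := key
  refine ⟨ι, fun a b e => ?_, h2⟩
  have h3 : ι (a - b) * ι b = ι b := by rw [← h2, sub_add_cancel, e]
  exact sub_eq_zero.1 (h1 _ (mul_eq_right.1 h3))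

end Pool.Agent.P.MP_91c514_al
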