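import Pool.Agent.P.MP_91c514_al.Group

/-!
The combing of Thompson's group `F`.
-/

namespace Pool.Agent.P.MP_91c514_al

open Tr

/-- The schedule of expansions. -/
def sc : ℕ → ℕ
  | 0 => 0
  | k + 1 => if sc k = 0 then k + 1 else sc k - 1

lemma sc_le (k : ℕ) : sc k ≤ k := by
  induction k with
  | zero => exact le_rfl
  | succ k ih => rw [sc]; split_ifs <;> omega

lemma sc_round {k : ℕ} (h : sc k = k) (i : ℕ) (hi : i ≤ k) : sc (k + i) = k - i := by
  induction i with
  | zero => exact h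
  | succ i ih =>
    rw [← add_assoc, sc, ih (by omega), if_neg (by omega)]
    omega

lemma exists_round (k : ℕ) : ∃ k', k ≤ k' ∧ sc k' = k' := by
  induction k with
  | zero => exact ⟨0, le_rfl, rfl⟩
  | succ k ih =>
    obtain ⟨k', h1, h2⟩ := ih
    refine ⟨k' + k' + 1, by omega, ?_⟩
    rw [sc, sc_round h2 k' le_rfl, Nat.sub_self, if_pos rfl]

/-- Iterated expansion from level `k`. -/
def up (B : Tr) (k : ℕ) : ℕ → Tr
  | 0 => B
  | i + 1 => ex (up B k i) (sc (k + i))

lemma sz_up {B : Tr} {k : ℕ} (h : sz B = k + 1) (i : ℕ) : sz (up B k i) = k + i + 1 := by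
  induction i with
  | zero => exact h
  | succ i ih =>
    have := sc_le (k + i)
    rw [up, sz_ex (by omega), ih]; omega

lemma up_add (B : Tr) (k i j : ℕ) : up B k (i + j) = up (up B k i) (k + i) j := by
  induction j with
  | zero => rfl
  | succ j ih => rw [← add_assoc, up, up, ih, add_assoc]

/-- Least depth of a leaf. -/
def md : Tr → ℕ
  | leaf => 0
  | node l r => min (md l) (md r) + 1

lemma md_ex (T : Tr) (c : ℕ) : md T ≤ md (ex T c) := by
  induction T generalizing c with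
  | leaf => exact Nat.zero_le _
  | node l r ihl ihr =>
    have := ihl c
    have := ihr (c - sz l)
    rw [ex]
    split_ifs <;> simp only [md] <;> omega

lemma md_up (B : Tr) (k i : ℕ) : md B ≤ md (up B k i) := by
  induction i with
  | zero => exact le_rfl
  | succ i ih => exact ih.trans (md_ex _ _)

/-- Attach carets to all leaves from number `j` on. -/
def dbl : Tr → ℕ → Tr
  | leaf, j => if j = 0 then node leaf leaf else leaf
  | node l r, j => node (dbl l j) (dbl r (j - sz l))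

lemma dbl_of_le {T : Tr} {j : ℕ} (h : sz T ≤ j) : dbl T j = T := by
  induction T generalizing j with
  | leaf => simp at h; rw [dbl, if_neg (by omega)]
  | node l r ihl ihr =>
    simp at h
    rw [dbl, ihl (by omega), ihr (by omega)]

lemma sz_dbl (T : Tr) (j : ℕ) : sz T ≤ sz (dbl T j) := by
  induction T generalizing j with
  | leaf => exact sz_pos _
  | node l r ihl ihr =>
    have := ihl j
    have := ihr (j - sz l)
    simp [dbl]; omega

lemma ex_dbl {T : Tr} {j : ℕ} (h : j < sz T) : ex (dbl T (j + 1)) j = dbl T j := by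
  induction T generalizing j with
  | leaf =>
    obtain rfl : j = 0 := by simpa using h
    rfl
  | node l r ihl ihr =>
    simp at h
    rw [dbl, dbl, ex]
    by_cases h1 : j < sz l
    · rw [if_pos (h1.trans_le (sz_dbl _ _)), ihl h1, show j + 1 - sz l = j - sz l by omega]
    · rw [dbl_of_le (T := l) (by omega), dbl_of_le (T := l) (by omega), if_neg h1,
        show j + 1 - sz l = j - sz l + 1 by omega, ihr (by omega)]

lemma md_dbl (T : Tr) : md (dbl T 0) = md T + 1 := by
  induction T with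
  | leaf => rfl
  | node l r ihl ihr => simp only [dbl, md, Nat.zero_sub, ihl, ihr]; omega

lemma up_round {B : Tr} {k : ℕ} (h : sc k = k) (hB : sz B = k + 1) (i : ℕ) (hi : i ≤ k + 1) :
    up B k i = dbl B (k + 1 - i) := by
  induction i with
  | zero => exact (dbl_of_le hB.le).symm
  | succ i ih =>
    rw [up, ih (by omega), sc_round h i (by omega), show k + 1 - i = k - i + 1 by omega,
      ex_dbl (by omega), show k + 1 - (i + 1) = k - i by omega]

lemma md_grow {B : Tr} {k : ℕ} (hB : sz B = k + 1) (d : ℕ) : ∃ i, d ≤ md (up B k i) := by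
  induction d with
  | zero => exact ⟨0, Nat.zero_le _⟩
  | succ d ih =>
    obtain ⟨i, hi⟩ := ih
    obtain ⟨k', h1, h2⟩ := exists_round (k + i)
    obtain ⟨j, rfl⟩ := Nat.exists_eq_add_of_le h1
    refine ⟨i + j + (k + i + j + 1), ?_⟩
    rw [up_add, ← add_assoc k, up_round h2 (by rw [sz_up hB]; omega) _ le_rfl, Nat.sub_self,
      md_dbl, up_add]
    have := md_up (up B k i) (k + i) j
    omega

lemma md_node {T : Tr} {d : ℕ} (h : d + 1 ≤ md T) :
    ∃ l r, T = node l r ∧ d ≤ md l ∧ d ≤ md r := by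
  cases T with
  | leaf => simp [md] at h
  | node l r => exact ⟨l, r, rfl, by simp only [md] at h; omega, by simp only [md] at h; omega⟩

lemma shape {T : Tr} (h : 3 ≤ md T) (b : Fin 5) : ∃ T', St T T' ∧ Rep T T' (gen b) := by
  obtain ⟨l, r, rfl, hl, hr⟩ := md_node h
  obtain ⟨p, q, rfl, -, -⟩ := md_node hl
  obtain ⟨r1, r2, rfl, h1, h2⟩ := md_node hr
  obtain ⟨s, t, rfl, -, -⟩ := md_node (d := 0) h1
  obtain ⟨u, v, rfl, -, -⟩ := md_node (d := 0) h2
  fin_cases b
  · exact ⟨_, Or.inr (Or.inr (Mv.rot _ _ _)), rep_x0 _ _ _⟩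
  · exact ⟨_, Or.inr (Or.inl (Mv.rot _ _ _)), (rep_x0 _ _ _).inv⟩
  · exact ⟨_, Or.inr (Or.inr (Mv.rot1 _ _ _ _)), rep_x1 _ _ _ _⟩
  · exact ⟨_, Or.inr (Or.inl (Mv.rot1 _ _ _ _)), (rep_x1 _ _ _ _).inv⟩
  · exact ⟨_, Or.inl rfl, Rep.refl _⟩

/-- The universal trees. -/
def UU (k : ℕ) : Tr := up leaf 0 k

lemma UU_succ (k : ℕ) : UU (k + 1) = ex (UU k) (sc k) := by rw [UU, up, Nat.zero_add, UU]

lemma rep_up {B : Tr} {k : ℕ} {g : Equiv.Perm Cn} (h : Rep (UU k) B g) (i : ℕ) :
    Rep (UU (k + i)) (up B k i) g := by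
  induction i with
  | zero => exact h
  | succ i ih => rw [← add_assoc, UU_succ, up]; exact ih.ex _

lemma exists_rep (g : FF) : ∃ k B, sz B = k + 1 ∧ Rep (UU k) B g := by
  induction g using Submonoid.induction_of_closure_eq_top_right gen_closure with
  | one => exact ⟨0, leaf, rfl, Rep.refl _⟩
  | mul_right x y hy ih =>
    obtain ⟨b, rfl⟩ := hy
    obtain ⟨k, B, hB, h⟩ := ih
    obtain ⟨i, hi⟩ := md_grow hB 3
    obtain ⟨T', h1, h2⟩ := shape hi b
    exact ⟨k + i, T', by rw [← sz_st h1, sz_up hB], (rep_up h i).mul h2⟩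

/-- Iterated deletion down to level `k`. -/
def dn (k : ℕ) : ℕ → Tr → Tr
  | 0, B => B
  | i + 1, B => del (dn (k + 1) i B) (sc k + 1)

lemma sz_dn (i k : ℕ) {B : Tr} (h : sz B = k + i + 1) : sz (dn k i B) = k + 1 := by
  induction i generalizing k with
  | zero => exact h
  | succ i ih =>
    have h1 := ih (k + 1) (by omega)
    have := sz_del (T := dn (k + 1) i B) (by omega) (sc k + 1)
    rw [dn]; omega

/-- Admissible sequences of trees. -/
structure Adm (g : FF) (A : ℕ → Tr) : Prop where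
  sz : ∀ k, sz (A k) = k + 1
  del : ∀ k, A k = del (A (k + 1)) (sc k + 1)
  rep : ∃ k0, ∀ k, k0 ≤ k → Rep (UU k) (A k) g

lemma exists_adm (g : FF) : ∃ A, Adm g A := by
  obtain ⟨k0, B, hB, h⟩ := exists_rep g
  refine ⟨fun k => dn k (k0 - k) (up B k0 (k - k0)), fun k => sz_dn _ _ ?_, fun k => ?_,
    k0, fun k hk => ?_⟩
  · rw [sz_up hB]; omega
  · rcases lt_or_ge k k0 with hk | hk
    · rw [show k0 - k = k0 - (k + 1) + 1 by omega, dn, show k - k0 = k + 1 - k0 by omega]
    · obtain ⟨i, rfl⟩ := Nat.exists_eq_add_of_le hk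
      have := sc_le (k0 + i)
      rw [show k0 - (k0 + i) = 0 by omega, show k0 - (k0 + i + 1) = 0 by omega,
        show k0 + i - k0 = i by omega, show k0 + i + 1 - k0 = i + 1 by omega, dn, dn, up,
        del_ex (by rw [sz_up hB]; omega)]
  · obtain ⟨i, rfl⟩ := Nat.exists_eq_add_of_le hk
    rw [show k0 - (k0 + i) = 0 by omega, show k0 + i - k0 = i by omega, dn]
    exact rep_up h i

lemma Adm.near {g : FF} {b : Fin 5} {A A' : ℕ → Tr} (h : Adm g A) (h' : Adm (g * gen b) A')
    (k : ℕ) : St (A k) (A' k) := by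
  obtain ⟨k0, h0⟩ := h.rep
  obtain ⟨k1, h1⟩ := h'.rep
  obtain ⟨i, hi⟩ := md_grow (h.sz (k0 + k1 + k)) 3
  have e : up (A (k0 + k1 + k)) (k0 + k1 + k) i = A (k0 + k1 + k + i) :=
    (rep_up (h0 _ (by omega)) i).tree (h0 _ (by omega))
  rw [e] at hi
  obtain ⟨T', h2, h3⟩ := shape hi b
  have e' : T' = A' (k0 + k1 + k + i) := ((h0 _ (by omega)).mul h3).tree (h1 _ (by omega))
  rw [e'] at h2
  have key : ∀ j k, St (A (k + j)) (A' (k + j)) → St (A k) (A' k) := by
    intro j
    induction j with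
    | zero => exact fun _ h => h
    | succ j ih =>
      intro k hk
      rw [h.del k, h'.del k]
      exact del_st (ih (k + 1) (by rwa [add_assoc, add_comm 1 j])) (by rw [h.sz]; omega) _
  exact key (k0 + k1 + i) k (by rwa [show k + (k0 + k1 + i) = k0 + k1 + k + i by omega])

/-- Thompson's group `F` is synchronously combable. -/
theorem combable : ∃ (L : Set (List (Fin 5))) (k : ℕ), (∀ g : FF, ∃ w ∈ L, (w.map gen).prod = g) ∧
    (∀ u ∈ L, ∀ v ∈ L, (u.map gen).prod = (v.map gen).prod → u = v) ∧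
    (∀ u ∈ L, ∀ v ∈ L, ((u.map gen).prod = (v.map gen).prod ∨
        ∃ b : Fin 5, (u.map gen).prod * gen b = (v.map gen).prod) →
      ∀ t : ℕ, Nr gen k ((u.take t).map gen).prod ((v.take t).map gen).prod) := by
  choose A hA using exists_adm
  choose N P p0 p1 p2 p3 p4 using fun k => exists_stage (k + 2)
  have hc : ∀ k, sc k + 1 < k + 2 := fun k => by have := sc_le k; omega
  have q0 : ∀ g k, P k (A g (k + 1)) (sc k) 0 = (ex (A g k) (sc k) : Tr) := fun g k => by
    rw [p0 k _ _ ((hA g).sz _) (hc k), ← (hA g).del]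
  have q1 : ∀ g k j, N k ≤ j → P k (A g (k + 1)) (sc k) j = A g (k + 1) := fun g k j hj =>
    p1 k _ _ _ ((hA g).sz _) (hc k) hj
  have st : ∀ g k (h : FF), Rep (UU k) (A g k) h →
      RX (UU (k + 1)) (P k (A g (k + 1)) (sc k) 0) h := fun g k h e =>
    ⟨_, q0 g k, by rw [UU_succ]; exact e.ex _⟩
  have ex1 : ∀ g k, (∃ h : FF, Rep (UU k) (A g k) h) →
      ∀ j, ∃ h, RX (UU (k + 1)) (P k (A g (k + 1)) (sc k) j) h := by
    rintro g k ⟨h, e⟩ j
    induction j with
    | zero => exact ⟨h, st g k h e⟩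
    | succ j ih =>
      obtain ⟨h', e'⟩ := ih
      obtain ⟨h'', e'', -⟩ := e'.ch (p2 k _ _ j ((hA g).sz _))
      exact ⟨h'', e''⟩
  have fin : ∀ g k j (h : FF), N k ≤ j → RX (UU (k + 1)) (P k (A g (k + 1)) (sc k) j) h →
      Rep (UU (k + 1)) (A g (k + 1)) h := by
    rintro g k j h hj ⟨R, e1, e2⟩
    rw [q1 g k j hj] at e1
    rwa [WithOne.coe_inj.1 e1]
  have a0 : ∀ g, Rep (UU 0) (A g 0) (1 : FF) := fun g => by
    rw [eq_leaf_of_sz ((hA g).sz 0)]; exact Rep.refl _
  have ex2 : ∀ g k, ∃ h : FF, Rep (UU k) (A g k) h := by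
    intro g k
    induction k with
    | zero => exact ⟨1, a0 g⟩
    | succ k ih =>
      obtain ⟨h, e⟩ := ex1 g k ih (N k)
      exact ⟨h, fin g k _ h le_rfl e⟩
  choose f hf using fun g k => ex1 g k (ex2 g k)
  refine comb_of_stages 40000 20000000 (by norm_num) N f (fun g => ?_) (fun g k j hj => ?_)
    (fun g k j => ?_) (fun g b k j => ?_) fun g => ?_
  · exact (hf g 0 0).unique (st g 0 1 (a0 g))
  · exact (st g (k + 1) _ (fin g k j _ hj (hf g k j))).unique (hf g (k + 1) 0)
  · exact RX.pw (p2 k _ _ j ((hA g).sz _)) (hf g k j) (hf g k (j + 1))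
  · exact (RX.pw (p3 k _ _ _ j ((hA g).sz _) ((hA g).near (hA _) _)) (hf g k j) (hf _ k j)).nr
  · obtain ⟨k0, h0⟩ := (hA g).rep
    refine ⟨k0, fun k j hk => (hf g k j).unique ?_⟩
    have e : Rep (UU (k + 1)) (ex (A g k) (sc k)) g := by rw [UU_succ]; exact (h0 k hk).ex _
    rw [(h0 (k + 1) (by omega)).tree e, p4 k _ _ j (by rw [(hA g).sz]) (hc k)]
    exact ⟨_, rfl, e⟩

end Pool.Agent.P.MP_91c514_al
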