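import Pool.Agent.P.MP_91c514_al.Travel

/-!
Two-sided travel and the motion that slides a leaf to its place.
-/

namespace Pool.Agent.P.MP_91c514_al

namespace Met

variable {X : Type} [MulOneClass X] (M : Met X)

/-- Two-sided travel. -/
structure Sig2 (D N : ℕ) (T : List (X ⊕ X) → X → ℕ → X) : Prop where
  start : ∀ c u, c.length ≤ D → T c u 0 = zip c u
  fin : ∀ c u t, c.length ≤ D → N ≤ t → T c u t = vL (lefts c) 1 * (u * vR (rights c) 1)
  step : ∀ c u t, c.length ≤ D → M.D 196 (T c u t) (T c u (t + 1))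
  nil : ∀ u t, T [] u t = u
  popL : ∀ p c u t, c.length + 1 ≤ D → M.D 2745 (T (Sum.inl p :: c) u t) (p * T c u t)
  popR : ∀ q c u t, c.length + 1 ≤ D → M.D 2745 (T (Sum.inr q :: c) u t) (T c u t * q)

lemma sig2_one : ∃ N T, M.Sig2 1 N T := by
  refine ⟨0, fun c u _ => zip c u, fun _ _ _ => rfl, ?_, fun _ _ _ _ => rfl' _ _, fun _ _ => rfl,
    fun _ _ _ _ _ => rfl' _ _, fun _ _ _ _ _ => rfl' _ _⟩
  intro c u t h _
  match c, h with
  | [], _ => simp
  | [Sum.inl p], _ => simp
  | [Sum.inr p], _ => simp

lemma sig2_double {D N : ℕ} {T : List (X ⊕ X) → X → ℕ → X} (h : M.Sig2 D N T) :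
    ∃ N' T', M.Sig2 (2 * D) N' T' := by
  obtain ⟨sub, hsub⟩ := M.exists_sub 196 (by norm_num)
  obtain ⟨N1, S, hS⟩ := M.sig1 D
  obtain ⟨N2, S', hS'⟩ := M.sig1' D
  refine ⟨N + 1 + (196 * N + 1 + (N1 + 1 + N2)), fun c u => cat N (T (top D c) (zip (bot D c) u))
    (cat (196 * N) (fun t => if c.length ≤ D then T c u (t / 196) else
      vL (lefts (top D c)) 1 * (sub (T (bot D c) u) t * vR (rights (top D c)) 1))
      (cat N1 (fun t => S (lefts (top D c)) (vL (lefts (bot D c)) 1)
        (u * vR (rights (bot D c)) 1) (N1 - t) * vR (rights (top D c)) 1)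
        (fun t => vL (lefts c) 1 * S' (rights (top D c)) (vR (rights (bot D c)) 1) u (N2 - t)))),
    ?_, ?_, ?_, ?_, ?_, ?_⟩
  · intro c u hl
    rw [cat_zero, h.start _ _ (length_top hl), ← zip_append, top_append_bot]
  · intro c u t hl ht
    rw [cat_end _ _ (by omega), cat_end _ _ (by omega), cat_end _ _ (by omega),
      Nat.sub_eq_zero_of_le (by omega),
      hS'.start _ _ _ ((length_rights _).trans (length_top hl)), ← vR_append, ← rights_append,
      top_append_bot]
  · intro c u t hl
    have hs := hsub (T (bot D c) u) fun t => h.step _ _ t (length_bot D c)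
    have hL := (length_lefts _).trans (length_top hl)
    have hR := (length_rights _).trans (length_top hl)
    refine cat_step _ _ (fun t => h.step _ _ t (length_top hl)) (cat_step _ _ (fun t => ?_)
      (cat_step _ _ (fun t => ?_) (fun t => ?_) ?_) ?_) ?_ t
    · split_ifs with hD
      · exact slow_step (fun t => h.step _ _ t hD) t
      · exact holdL _ (holdR _ (hs.1 t))
    · exact holdR _ (rev_step (fun t => hS.step _ _ _ t hL) t)
    · exact holdL _ (rev_step (fun t => hS'.step _ _ _ t hR) t)
    · rw [Nat.sub_self, Nat.sub_zero, hS.start _ _ _ hL, hS'.fin _ _ _ _ hR le_rfl, ← vL_append,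
        ← lefts_append, top_append_bot]
      exact rotk (by norm_num) _ _ _
    · rw [cat_zero, Nat.sub_zero, hS.fin _ _ _ _ hL le_rfl]
      split_ifs with hD
      · rw [h.fin _ _ _ hD (by omega), top_short hD, bot_short hD]
        simpa using rfl' _ _
      · rw [hs.2.1, h.fin _ _ _ (length_bot D c) le_rfl]
        exact rotk' (by norm_num) _ _ _
    · apply of_eq
      rw [cat_zero, h.fin _ _ _ (length_top hl) le_rfl]
      split_ifs with hD
      · rw [Nat.zero_div, h.start _ _ hD, top_short hD, bot_short hD]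
        simp
      · rw [← Nat.mul_zero 196, hs.2.1, h.start _ _ (length_bot D c)]
  · intro u t
    have e1 : top D ([] : List (X ⊕ X)) = [] := top_short (Nat.zero_le _)
    have e2 : bot D ([] : List (X ⊕ X)) = [] := bot_short (Nat.zero_le _)
    refine cat_const _ (fun t => ?_) (cat_const _ (fun t => ?_)
      (cat_const _ (fun t => ?_) fun t => ?_)) t <;> simp [e1, e2, h.nil, hS.nil, hS'.nil]
  · intro p c u t hl
    rcases lt_or_ge c.length D with hD | hD
    · have hD' : (Sum.inl p :: c).length ≤ D := hD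
      refine cat_rel (fun a b => M.D 2745 a (p * b)) _ (fun t => ?_)
        (cat_rel (fun a b => M.D 2745 a (p * b)) _ (fun t => ?_)
        (cat_rel (fun a b => M.D 2745 a (p * b)) _ (fun t => ?_) fun t => ?_)) t
      · simp only [top_short hD', bot_short hD', top_short hD.le, bot_short hD.le, h.nil, zip_inl]
        exact rfl' _ _
      · simp only [if_pos hD', if_pos hD.le]
        exact h.popL _ _ _ _ hD
      · simp only [top_short hD', bot_short hD', top_short hD.le, bot_short hD.le, hS.nil,
          lefts_nil, rights_nil, lefts_inl, rights_inl, vL_cons, vR_nil, mul_one]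
        exact rotk (by norm_num) _ _ _
      · simp only [top_short hD', bot_short hD', top_short hD.le, bot_short hD.le, hS'.nil,
          rights_nil, lefts_inl, rights_inl, vL_cons]
        exact rotk (by norm_num) _ _ _
    · have hD' : ¬ (Sum.inl p :: c).length ≤ D := by simp; omega
      have ht : (top D c).length + 1 ≤ D := by
        have := length_top (D := D) (l := Sum.inl p :: c) hl
        rwa [top_cons _ hD] at this
      have hL : (lefts (top D c)).length + 1 ≤ D := by
        have := length_lefts (top D c); omega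
      refine cat_rel (fun a b => M.D 2745 a (p * b)) _ (fun t => ?_)
        (cat_rel (fun a b => M.D 2745 a (p * b)) _ (fun t => ?_)
        (cat_rel (fun a b => M.D 2745 a (p * b)) _ (fun t => ?_) fun t => ?_)) t
      · simp only [top_cons _ hD, bot_cons _ hD]
        exact h.popL _ _ _ _ ht
      · simp only [if_neg hD', top_cons _ hD, bot_cons _ hD, lefts_inl, rights_inl, vL_cons]
        split_ifs with h1
        · rw [top_short h1, bot_short h1]
          simp only [lefts_nil, rights_nil, vL_nil, vR_nil, mul_one]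
          exact mono (holdL p ((hsub (T c u) fun t => h.step _ _ t h1).2.2 t)) (by norm_num)
        · exact rotk (by norm_num) _ _ _
      · simp only [top_cons _ hD, bot_cons _ hD, lefts_inl, rights_inl]
        exact (holdR _ (hS.pop _ _ _ _ _ hL)).trans (rot1 _ _ _)
      · simp only [top_cons _ hD, bot_cons _ hD, lefts_inl, rights_inl, vL_cons]
        exact rotk (by norm_num) _ _ _
  · intro q c u t hl
    rcases lt_or_ge c.length D with hD | hD
    · have hD' : (Sum.inr q :: c).length ≤ D := hD
      refine cat_rel (fun a b => M.D 2745 a (b * q)) _ (fun t => ?_)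
        (cat_rel (fun a b => M.D 2745 a (b * q)) _ (fun t => ?_)
        (cat_rel (fun a b => M.D 2745 a (b * q)) _ (fun t => ?_) fun t => ?_)) t
      · simp only [top_short hD', bot_short hD', top_short hD.le, bot_short hD.le, h.nil, zip_inr]
        exact rfl' _ _
      · simp only [if_pos hD', if_pos hD.le]
        exact h.popR _ _ _ _ hD
      · simp only [top_short hD', bot_short hD', top_short hD.le, bot_short hD.le, hS.nil,
          lefts_nil, rights_nil, lefts_inr, rights_inr, vR_cons, vR_nil, mul_one]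
        exact rot3 (by norm_num) _ _ _ _
      · simp only [top_short hD', bot_short hD', top_short hD.le, bot_short hD.le, hS'.nil,
          rights_nil, lefts_inr, rights_inr, vR_cons]
        exact rot3 (by norm_num) _ _ _ _
    · have hD' : ¬ (Sum.inr q :: c).length ≤ D := by simp; omega
      have ht : (top D c).length + 1 ≤ D := by
        have := length_top (D := D) (l := Sum.inr q :: c) hl
        rwa [top_cons _ hD] at this
      have hR : (rights (top D c)).length + 1 ≤ D := by
        have := length_rights (top D c); omega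
      refine cat_rel (fun a b => M.D 2745 a (b * q)) _ (fun t => ?_)
        (cat_rel (fun a b => M.D 2745 a (b * q)) _ (fun t => ?_)
        (cat_rel (fun a b => M.D 2745 a (b * q)) _ (fun t => ?_) fun t => ?_)) t
      · simp only [top_cons _ hD, bot_cons _ hD]
        exact h.popR _ _ _ _ ht
      · simp only [if_neg hD', top_cons _ hD, bot_cons _ hD, lefts_inr, rights_inr, vR_cons]
        split_ifs with h1
        · rw [top_short h1, bot_short h1]
          simp only [lefts_nil, rights_nil, vL_nil, vR_nil, one_mul]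
          exact mono (holdR q ((hsub (T c u) fun t => h.step _ _ t h1).2.2 t)) (by norm_num)
        · exact rot3 (by norm_num) _ _ _ _
      · simp only [top_cons _ hD, bot_cons _ hD, lefts_inr, rights_inr, vR_cons]
        exact rotk' (by norm_num) _ _ _
      · simp only [top_cons _ hD, bot_cons _ hD, lefts_inr, rights_inr]
        exact (holdL _ (hS'.pop _ _ _ _ _ hR)).trans (rot2 _ _ _)

lemma sig2 (D : ℕ) : ∃ N T, M.Sig2 D N T := by
  have : ∀ j : ℕ, ∃ N T, M.Sig2 (2 ^ j) N T := by
    intro j
    induction j with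
    | zero => exact M.sig2_one
    | succ j ih =>
      obtain ⟨N, S, h⟩ := ih
      rw [pow_succ']
      exact M.sig2_double h
  obtain ⟨N, S, h⟩ := this D
  have hD : D ≤ 2 ^ D := Nat.lt_two_pow_self.le
  exact ⟨N, S, fun _ _ hl => h.start _ _ (hl.trans hD),
    fun _ _ _ hl => h.fin _ _ _ (hl.trans hD), fun _ _ _ hl => h.step _ _ _ (hl.trans hD),
    h.nil, fun _ _ _ _ hl => h.popL _ _ _ _ (hl.trans hD),
    fun _ _ _ _ hl => h.popR _ _ _ _ (hl.trans hD)⟩

/-- The motion sliding `b` from the side of `a` to its place. -/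
structure Mot (a b : X) (D N : ℕ) (F : List (X ⊕ X) → List X → List X → ℕ → X) : Prop where
  start : ∀ c l r, c.length ≤ D → l.length ≤ D → r.length ≤ D →
    F c l r 0 = zip c (vL l (a * b) * vR r 1)
  fin : ∀ c l r t, c.length ≤ D → l.length ≤ D → r.length ≤ D → N ≤ t →
    F c l r t = zip c (vL l a * vR r b)
  step : ∀ c l r t, c.length ≤ D → l.length ≤ D → r.length ≤ D →
    M.D 40000 (F c l r t) (F c l r (t + 1))
  popL : ∀ p c l r t, c.length + 1 ≤ D → M.D 40000 (F (Sum.inl p :: c) l r t) (p * F c l r t)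
  popR : ∀ q c l r t, c.length + 1 ≤ D → M.D 40000 (F (Sum.inr q :: c) l r t) (F c l r t * q)
  junL : ∀ p l r t, l.length + 1 ≤ D → M.D 40000 (F [] (p :: l) r t) (p * F [] l r t)
  junR : ∀ q l r t, r.length + 1 ≤ D → M.D 40000 (F [] l (q :: r) t) (F [] l r t * q)
  nil : ∀ t, F [] [] [] t = a * b

lemma mot0 (a b : X) (D : ℕ) : ∃ N F, M.Mot a b D N F := by
  obtain ⟨N, T, h⟩ := M.sig2 D
  obtain ⟨N1, S, hS⟩ := M.sig1 D
  obtain ⟨N2, S', hS'⟩ := M.sig1' D
  refine ⟨N + 1 + (N1 + 1 + (N2 + 1 + (N1 + 1 + N))), fun c l r =>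
    cat N (T c (vL l (a * b) * vR r 1))
    (cat N1 (fun t => vL (lefts c) 1 * (S l (a * b) 1 t * vR r 1 * vR (rights c) 1))
    (cat N2 (fun t => vL (lefts c) 1 * (vL l 1 * S' r b a (N2 - t) * vR (rights c) 1))
    (cat N1 (fun t => vL (lefts c) 1 * (S l a 1 (N1 - t) * vR r b * vR (rights c) 1))
    (fun t => T c (vL l a * vR r b) (N - t))))), ?_, ?_, ?_, ?_, ?_, ?_, ?_, ?_⟩
  · intro c l r hc _ _
    rw [cat_zero, h.start _ _ hc]
  · intro c l r t hc _ _ ht
    rw [cat_end _ _ (by omega), cat_end _ _ (by omega), cat_end _ _ (by omega),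
      cat_end _ _ (by omega), Nat.sub_eq_zero_of_le (by omega), h.start _ _ hc]
  · intro c l r t hc hl hr
    refine cat_step _ _ (fun t => mono (h.step _ _ t hc) (by norm_num)) (cat_step _ _ (fun t => ?_)
      (cat_step _ _ (fun t => ?_) (cat_step _ _ (fun t => ?_) (fun t => ?_) ?_) ?_) ?_) ?_ t
    · exact mono (holdL _ (holdR _ (holdR _ (hS.step _ _ _ t hl)))) (by norm_num)
    · exact mono (holdL _ (holdR _ (holdL _ (rev_step (fun t => hS'.step _ _ _ t hr) t))))
        (by norm_num)
    · exact mono (holdL _ (holdR _ (holdR _ (rev_step (fun t => hS.step _ _ _ t hl) t))))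
        (by norm_num)
    · exact mono (rev_step (fun t => h.step _ _ t hc) t) (by norm_num)
    · rw [Nat.sub_self, Nat.sub_zero, hS.start _ _ _ hl, h.fin _ _ _ hc le_rfl, mul_one]
      exact rfl' _ _
    · rw [cat_zero, Nat.sub_self, Nat.sub_zero, hS'.start _ _ _ hr, hS.fin _ _ _ _ hl le_rfl,
        mul_one]
      exact mono (holdL _ (holdR _ (rot2 _ _ _))) (by norm_num)
    · rw [cat_zero, Nat.sub_zero, hS'.fin _ _ _ _ hr le_rfl, hS.fin _ _ _ _ hl le_rfl, mul_one]
      exact mono (holdL _ (holdR _ (rot1 _ _ _))) (by norm_num)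
    · rw [cat_zero, h.fin _ _ _ hc le_rfl, hS.start _ _ _ hl, mul_one]
      exact rfl' _ _
  · intro p c l r t hc
    refine cat_rel (fun x y => M.D 40000 x (p * y)) _ (fun t => ?_)
      (cat_rel (fun x y => M.D 40000 x (p * y)) _ (fun t => ?_)
      (cat_rel (fun x y => M.D 40000 x (p * y)) _ (fun t => ?_)
      (cat_rel (fun x y => M.D 40000 x (p * y)) _ (fun t => ?_) fun t => ?_))) t
    · exact mono (h.popL _ _ _ _ hc) (by norm_num)
    · exact rotk (by norm_num) _ _ _
    · exact rotk (by norm_num) _ _ _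
    · exact rotk (by norm_num) _ _ _
    · exact mono (h.popL _ _ _ _ hc) (by norm_num)
  · intro q c l r t hc
    refine cat_rel (fun x y => M.D 40000 x (y * q)) _ (fun t => ?_)
      (cat_rel (fun x y => M.D 40000 x (y * q)) _ (fun t => ?_)
      (cat_rel (fun x y => M.D 40000 x (y * q)) _ (fun t => ?_)
      (cat_rel (fun x y => M.D 40000 x (y * q)) _ (fun t => ?_) fun t => ?_))) t
    · exact mono (h.popR _ _ _ _ hc) (by norm_num)
    · exact rot3 (by norm_num) _ _ _ _
    · exact rot3 (by norm_num) _ _ _ _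
    · exact rot3 (by norm_num) _ _ _ _
    · exact mono (h.popR _ _ _ _ hc) (by norm_num)
  · intro p l r t hl
    refine cat_rel (fun x y => M.D 40000 x (p * y)) _ (fun t => ?_)
      (cat_rel (fun x y => M.D 40000 x (p * y)) _ (fun t => ?_)
      (cat_rel (fun x y => M.D 40000 x (p * y)) _ (fun t => ?_)
      (cat_rel (fun x y => M.D 40000 x (p * y)) _ (fun t => ?_) fun t => ?_))) t <;>
      simp only [h.nil, lefts_nil, rights_nil, vL_nil, vR_nil, one_mul, mul_one, vL_cons]
    · exact rotk (by norm_num) _ _ _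
    · exact mono ((holdR _ (hS.pop _ _ _ _ _ hl)).trans (rot1 _ _ _)) (by norm_num)
    · exact rotk (by norm_num) _ _ _
    · exact mono ((holdR _ (hS.pop _ _ _ _ _ hl)).trans (rot1 _ _ _)) (by norm_num)
    · exact rotk (by norm_num) _ _ _
  · intro q l r t hr
    refine cat_rel (fun x y => M.D 40000 x (y * q)) _ (fun t => ?_)
      (cat_rel (fun x y => M.D 40000 x (y * q)) _ (fun t => ?_)
      (cat_rel (fun x y => M.D 40000 x (y * q)) _ (fun t => ?_)
      (cat_rel (fun x y => M.D 40000 x (y * q)) _ (fun t => ?_) fun t => ?_))) t <;>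
      simp only [h.nil, lefts_nil, rights_nil, vL_nil, vR_nil, one_mul, mul_one, vR_cons]
    · exact rotk' (by norm_num) _ _ _
    · exact rotk' (by norm_num) _ _ _
    · exact mono ((holdL _ (hS'.pop _ _ _ _ _ hr)).trans (rot2 _ _ _)) (by norm_num)
    · exact rotk' (by norm_num) _ _ _
    · exact rotk' (by norm_num) _ _ _
  · intro t
    refine cat_const _ (fun t => ?_) (cat_const _ (fun t => ?_)
      (cat_const _ (fun t => ?_) (cat_const _ (fun t => ?_) fun t => ?_))) t <;>
      simp [h.nil, hS.nil, hS'.nil]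

lemma mot (a b : X) (D : ℕ) :
    ∃ N F, M.Mot a b D N F ∧ ∀ c t, F c [] [] t = zip c (a * b) := by
  classical
  obtain ⟨N, F, h⟩ := M.mot0 a b D
  have e : ∀ l r t, (if l = [] ∧ r = [] then zip [] (a * b) else F [] l r t) = F [] l r t := by
    intro l r t
    split_ifs with h1
    · rw [h1.1, h1.2, h.nil, zip_nil]
    · rfl
  refine ⟨N, fun c l r t => if l = [] ∧ r = [] then zip c (a * b) else F c l r t,
    ⟨?_, ?_, ?_, ?_, ?_, ?_, ?_, ?_⟩, ?_⟩
  · intro c l r hc hl hr
    split_ifs with h1
    · simp [h1.1, h1.2]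
    · exact h.start _ _ _ hc hl hr
  · intro c l r t hc hl hr ht
    split_ifs with h1
    · simp [h1.1, h1.2]
    · exact h.fin _ _ _ _ hc hl hr ht
  · intro c l r t hc hl hr
    split_ifs with h1
    · exact rfl' _ _
    · exact h.step _ _ _ _ hc hl hr
  · intro p c l r t hc
    split_ifs with h1
    · exact rfl' _ _
    · exact h.popL _ _ _ _ _ hc
  · intro p c l r t hc
    split_ifs with h1
    · exact rfl' _ _
    · exact h.popR _ _ _ _ _ hc
  · intro p l r t hl
    rw [e, e]; exact h.junL _ _ _ _ hl
  · intro p l r t hl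
    rw [e, e]; exact h.junR _ _ _ _ hl
  · intro t; simp
  · intro c t; simp

end Met

end Pool.Agent.P.MP_91c514_al
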