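import Mathlib

/-!
Groups acting on infinite binary sequences by local replacement of initial words: cones,
supports, carried cones.
-/

namespace Pool.Agent.P.MP_91c514_al.NA

/-- Infinite binary sequences. -/
abbrev Cn := Stream' Bool

lemma cmp_of_eq : ∀ (s s' : List Bool) (ξ η : Cn), s ++ₛ ξ = s' ++ₛ η → s <+: s' ∨ s' <+: s
  | [], _, _, _, _ => Or.inl List.nil_prefix
  | _ :: _, [], _, _, _ => Or.inr List.nil_prefix
  | x :: s, y :: s', ξ, η, h => by
    rw [Stream'.cons_append_stream, Stream'.cons_append_stream] at h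
    obtain ⟨rfl, h2⟩ := Stream'.cons_injective2 h
    simpa [List.cons_prefix_cons] using cmp_of_eq s s' ξ η h2

lemma pre_of_sub : ∀ (s s' : List Bool), (∀ ξ : Cn, ∃ η : Cn, s' ++ₛ ξ = s ++ₛ η) → s <+: s'
  | [], _, _ => List.nil_prefix
  | x :: s, [], h => by
    obtain ⟨η, h⟩ := h (Stream'.cons (!x) (Stream'.const true))
    rw [Stream'.cons_append_stream, Stream'.nil_append_stream] at h
    have := (Stream'.cons_injective2 h).1
    cases x <;> simp at this
  | x :: s, y :: s', h => by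
    have h1 : y = x := by
      obtain ⟨η, h⟩ := h (Stream'.const true)
      rw [Stream'.cons_append_stream, Stream'.cons_append_stream] at h
      exact (Stream'.cons_injective2 h).1
    subst h1
    rw [List.cons_prefix_cons]
    refine ⟨rfl, pre_of_sub s s' fun ξ => ?_⟩
    obtain ⟨η, h⟩ := h ξ
    rw [Stream'.cons_append_stream, Stream'.cons_append_stream] at h
    exact ⟨η, (Stream'.cons_injective2 h).2⟩

lemma eq_of_sub {s s' : List Bool} (h : ∀ ξ : Cn, ∃ η : Cn, s' ++ₛ ξ = s ++ₛ η)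
    (h' : ∀ ξ : Cn, ∃ η : Cn, s ++ₛ ξ = s' ++ₛ η) : s = s' :=
  (pre_of_sub s s' h).eq_of_length_le (pre_of_sub s' s h').length_le

/-- The word `c` cut at `i`, with the letter number `i` changed. -/
def sb (c : List Bool) (i : ℕ) : List Bool := c.take i ++ [!(c.getD i false)]

lemma length_sb {c : List Bool} {i : ℕ} (h : i < c.length) : (sb c i).length = i + 1 := by
  simp [sb, h.le]

lemma sb_not {c : List Bool} {i : ℕ} (h : i < c.length) : ¬ sb c i <+: c := by
  intro e
  have h1 : c.take (i + 1) = sb c i := by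
    have := List.prefix_iff_eq_take.1 e
    rw [length_sb h] at this
    exact this.symm
  rw [List.take_add_one, sb, List.append_cancel_left_eq, List.getD_eq_getElem _ _ h,
    List.getElem?_eq_getElem h] at h1
  simp at h1

lemma sb_sb {c e : List Bool} {i j : ℕ} (hij : i < j) (hj : j < c.length) (h1 : sb c i <+: e)
    (h2 : sb c j <+: e) : False := by
  have h3 : c.take j <+: e := (List.prefix_append _ _).trans h2
  have h4 : sb c i <+: c.take j := List.prefix_of_prefix_length_le h1 h3 (by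
    rw [length_sb (hij.trans hj), List.length_take]; omega)
  exact sb_not (hij.trans hj) (h4.trans (List.take_prefix _ _))

lemma pig {β : Type} {T : Set β} (hT : T.Finite) : ∃ n : ℕ, ∀ f : ℕ → β,
    (∀ i, i ≤ n → f i ∈ T) → ∃ i j, i < j ∧ j ≤ n ∧ f i = f j := by
  classical
  refine ⟨hT.toFinset.card, fun f hf => ?_⟩
  obtain ⟨x, hx, y, hy, hxy, e⟩ := Finset.exists_ne_map_eq_of_card_lt_of_maps_to
    (s := Finset.range (hT.toFinset.card + 1)) (t := hT.toFinset) (f := f) (by simp)
    (fun i hi => by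
      rw [Finset.mem_coe, Finset.mem_range] at hi
      simpa using hf i (by omega))
  rw [Finset.mem_range] at hx hy
  rcases lt_or_gt_of_ne hxy with h | h
  · exact ⟨x, y, h, by omega, e⟩
  · exact ⟨y, x, h, by omega, e.symm⟩

lemma box {X : Type} [Fintype X] [DecidableEq X] {R : ℕ} (hR : Fintype.card X < R)
    (χ : (X → Fin R) → X) : ∃ k k', χ k = χ k' ∧ k ≠ k' ∧ ∀ y, y ≠ χ k → k y = k' y := by
  by_contra hc
  push Not at hc
  let F : (X → Fin R) → Σ x : X, ({y : X // y ≠ x} → Fin R) := fun k => ⟨χ k, fun y => k y⟩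
  have hF : Function.Injective F := by
    intro k k' e
    by_contra hne
    have e1 : χ k = χ k' := congrArg Sigma.fst e
    obtain ⟨y, hy, hy'⟩ := hc k k' e1 hne
    have e2 : ∀ (x x' : X) (g : {y : X // y ≠ x} → Fin R) (g' : {y : X // y ≠ x'} → Fin R),
        (⟨x, g⟩ : Σ x : X, ({y : X // y ≠ x} → Fin R)) = ⟨x', g'⟩ →
        ∀ y (h : y ≠ x) (h' : y ≠ x'), g ⟨y, h⟩ = g' ⟨y, h'⟩ := by
      intro x x' g g' e y h h'
      cases e
      rfl
    exact hy' (e2 _ _ _ _ e y hy (e1 ▸ hy))
  have h1 := Fintype.card_le_of_injective F hF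
  have h2 : ∀ x : X, Fintype.card {y : X // y ≠ x} = Fintype.card X - 1 := fun x => by
    simp
  simp only [Fintype.card_fun, Fintype.card_fin, Fintype.card_sigma, h2, Finset.sum_const,
    Finset.card_univ, smul_eq_mul] at h1
  have h3 : 0 < Fintype.card X := Fintype.card_pos_iff.2 ⟨χ fun _ => ⟨0, by omega⟩⟩
  obtain ⟨n, hn⟩ : ∃ n, Fintype.card X = n + 1 := ⟨_, (Nat.succ_pred_eq_of_pos h3).symm⟩
  rw [hn] at h1 hR
  simp only [Nat.add_sub_cancel, pow_succ] at h1
  have h4 : 0 < R ^ n := pow_pos (by omega) _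
  nlinarith

variable {G : Type} [Group G] (ρ : G →* Equiv.Perm Cn)

/-- `g` maps the cone `s` onto the cone `s'` by replacing the initial word. -/
def PR (g : G) (s s' : List Bool) : Prop := ∀ ξ : Cn, ρ g (s ++ₛ ξ) = s' ++ₛ ξ

/-- `g` replaces the initial word on every cone of depth at least `d`. -/
def Lin (g : G) (d : ℕ) : Prop := ∀ s : List Bool, d ≤ s.length → ∃ s', PR ρ g s s'

/-- `g` fixes all points outside the cone `s`. -/
def Supp (g : G) (s : List Bool) : Prop := ∀ ξ : Cn, (∀ η : Cn, ξ ≠ s ++ₛ η) → ρ g ξ = ξ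

variable {ρ}

lemma PR.one (s : List Bool) : PR ρ 1 s s := fun ξ => by simp

lemma PR.mul {g h : G} {s s' s'' : List Bool} (e : PR ρ g s' s'') (e' : PR ρ h s s') :
    PR ρ (g * h) s s'' := fun ξ => by
  rw [map_mul, Equiv.Perm.mul_apply, e', e]

lemma PR.inv {g : G} {s s' : List Bool} (e : PR ρ g s s') : PR ρ g⁻¹ s' s := fun ξ => by
  rw [map_inv, Equiv.Perm.inv_eq_iff_eq, e]

lemma PR.ext {g : G} {s s' : List Bool} (e : PR ρ g s s') (r : List Bool) :
    PR ρ g (s ++ r) (s' ++ r) := fun ξ => by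
  rw [Stream'.append_append_stream, Stream'.append_append_stream, e]

lemma PR.uniq {g : G} {s s' s'' : List Bool} (e : PR ρ g s s') (e' : PR ρ g s s'') : s' = s'' :=
  eq_of_sub (fun ξ => ⟨ξ, by rw [← e, e']⟩) fun ξ => ⟨ξ, by rw [← e, e']⟩

lemma PR.uniq' {g : G} {s s' s'' : List Bool} (e : PR ρ g s' s) (e' : PR ρ g s'' s) : s' = s'' :=
  e.inv.uniq e'.inv

lemma Lin.mono {g : G} {d d' : ℕ} (h : Lin ρ g d) (hd : d ≤ d') : Lin ρ g d' :=
  fun s hs => h s (hd.trans hs)

lemma Lin.one (d : ℕ) : Lin ρ 1 d := fun s _ => ⟨s, PR.one s⟩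

lemma Lin.mul {g h : G} {d d' : ℕ} (e : Lin ρ g d) (e' : Lin ρ h d') :
    Lin ρ (g * h) (d + d') := by
  intro s hs
  obtain ⟨s1, h1⟩ := e' (s.take d') (by rw [List.length_take]; omega)
  have h2 := h1.ext (s.drop d')
  rw [List.take_append_drop] at h2
  obtain ⟨s2, h3⟩ := e (s1 ++ s.drop d') (by rw [List.length_append, List.length_drop]; omega)
  exact ⟨s2, h3.mul h2⟩

lemma Supp.inv {g : G} {s : List Bool} (h : Supp ρ g s) : Supp ρ g⁻¹ s := fun ξ e => by
  rw [map_inv, Equiv.Perm.inv_eq_iff_eq, h ξ e]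

lemma Supp.mul {g g' : G} {s : List Bool} (h : Supp ρ g s) (h' : Supp ρ g' s) :
    Supp ρ (g * g') s := fun ξ e => by
  rw [map_mul, Equiv.Perm.mul_apply, h' ξ e, h ξ e]

lemma Supp.maps {g : G} {s : List Bool} (h : Supp ρ g s) (ξ : Cn) :
    ∃ η : Cn, ρ g (s ++ₛ ξ) = s ++ₛ η := by
  by_contra hc
  push Not at hc
  exact hc ξ ((ρ g).injective (h _ hc)) |>.elim

lemma Supp.of_ext {g : G} {s r : List Bool} (h : Supp ρ g (s ++ r)) : Supp ρ g s :=
  fun ξ e => h ξ fun η => by rw [Stream'.append_append_stream]; exact e _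

lemma Supp.conj {g h : G} {s s' : List Bool} (e : PR ρ g s s') (hh : Supp ρ h s) :
    Supp ρ (g * h * g⁻¹) s' := by
  intro ξ hξ
  have h1 : ρ h (ρ g⁻¹ ξ) = ρ g⁻¹ ξ := hh _ fun η e1 => hξ η (by
    rw [map_inv, Equiv.Perm.inv_eq_iff_eq, e] at e1
    exact e1)
  rw [map_mul, map_mul, Equiv.Perm.mul_apply, Equiv.Perm.mul_apply, h1, map_inv]
  simp

lemma Supp.fix {g : G} {s s' : List Bool} (h : Supp ρ g s) (h1 : ¬ s <+: s') (h2 : ¬ s' <+: s)
    (ξ : Cn) : ρ g (s' ++ₛ ξ) = s' ++ₛ ξ :=
  h _ fun _ e => (cmp_of_eq _ _ _ _ e).elim h2 h1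

lemma Supp.commute (hρ : Function.Injective ρ) {g g' : G} {s s' : List Bool} (h : Supp ρ g s)
    (h' : Supp ρ g' s') (h1 : ¬ s <+: s') (h2 : ¬ s' <+: s) : Commute g g' := by
  apply hρ
  ext1 ξ
  rw [map_mul, map_mul, Equiv.Perm.mul_apply, Equiv.Perm.mul_apply]
  by_cases e : ∃ η, ξ = s ++ₛ η
  · obtain ⟨η, rfl⟩ := e
    obtain ⟨η', e'⟩ := h.maps η
    rw [h'.fix h2 h1, e', h'.fix h2 h1]
  · push Not at e
    rw [h ξ e]
    by_cases e2 : ∃ η, ξ = s' ++ₛ η
    · obtain ⟨η, rfl⟩ := e2
      obtain ⟨η', e'⟩ := h'.maps η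
      rw [e', h.fix h1 h2]
    · push Not at e2
      rw [h' ξ e2, h ξ e]

lemma Supp.eq_one (hρ : Function.Injective ρ) {g : G} {s : List Bool} (h : Supp ρ g s)
    (e : PR ρ g s s) : g = 1 := by
  apply hρ
  ext1 ξ
  rw [map_one, Equiv.Perm.one_apply]
  by_cases e1 : ∃ η, ξ = s ++ₛ η
  · obtain ⟨η, rfl⟩ := e1
    exact e η
  · push Not at e1
    exact h ξ e1

lemma Supp.eq_one' (hρ : Function.Injective ρ) {δ ψ : G} {c b s : List Bool} (h : Supp ρ δ c)
    (e : PR ρ ψ b c) (e' : PR ρ (ψ⁻¹ * δ) c s) : δ = 1 := by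
  have h1 : s = b := by
    refine eq_of_sub (fun ξ => ?_) fun ξ => ?_
    · obtain ⟨η, e1⟩ := h.inv.maps ξ
      refine ⟨η, ?_⟩
      rw [← e' η, ← e1, ← Equiv.Perm.mul_apply, ← map_mul, mul_inv_cancel_right, e.inv]
    · obtain ⟨η, e1⟩ := h.maps ξ
      exact ⟨η, by rw [← e' ξ, map_mul, Equiv.Perm.mul_apply, e1, e.inv]⟩
  subst h1
  have h2 := e.mul e'
  rw [mul_inv_cancel_left] at h2
  exact h.eq_one hρ h2

lemma exists_family (hρ : Function.Injective ρ) (hM : ∀ s, ∃ g : G, g ≠ 1 ∧ Supp ρ g s)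
    (s : List Bool) : ∃ η : ℕ → G, Function.Injective η ∧ ∀ i, Supp ρ (η i) s := by
  choose γ h1 h2 using hM
  refine ⟨fun i => γ (s ++ (List.replicate i true ++ [false])), ?_, fun i => (h2 _).of_ext⟩
  have key : ∀ i j, i < j → γ (s ++ (List.replicate i true ++ [false])) ≠
      γ (s ++ (List.replicate j true ++ [false])) := by
    intro i j hij e
    have n1 : ¬ s ++ (List.replicate i true ++ [false]) <+:
        s ++ (List.replicate j true ++ [false]) := by
      obtain ⟨k, rfl⟩ := Nat.exists_eq_add_of_lt hij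
      rw [List.prefix_append_right_inj, add_assoc, List.replicate_add, List.append_assoc,
        List.prefix_append_right_inj, List.replicate_succ]
      simp
    have n2 : ¬ s ++ (List.replicate j true ++ [false]) <+:
        s ++ (List.replicate i true ++ [false]) := fun h => by
      have := h.length_le
      simp at this
      omega
    refine h1 (s ++ (List.replicate i true ++ [false])) ((h2 _).eq_one hρ fun ξ => ?_)
    rw [e]
    exact (h2 _).fix n2 n1 ξ
  intro i j e
  by_contra hne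
  rcases lt_or_gt_of_ne hne with h | h
  · exact key i j h e
  · exact key j i h e.symm

/-- Elements replacing the initial word on all cones of depth `n` are finite in number. -/
lemma finite_AL (hρ : Function.Injective ρ) (n : ℕ) :
    {g : G | ∀ b : List Bool, b.length = n → ∃ c, PR ρ g b c}.Finite := by
  obtain ⟨N, hN⟩ := pig (List.finite_length_eq Bool n)
  have bd : ∀ g : G, (∀ b : List Bool, b.length = n → ∃ c, PR ρ g b c) →
      ∀ b c : List Bool, b.length = n → PR ρ g b c → c.length ≤ N := by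
    intro g hg b c hb e
    by_contra hc
    let p : ℕ → Cn := fun i => ρ g⁻¹ (sb c i ++ₛ Stream'.const true)
    have key : ∀ i, i < c.length → ∀ c', PR ρ g ((p i).take n) c' → sb c i <+: c' := by
      intro i hi c' e'
      have h1 := e' ((p i).drop n)
      rw [Stream'.append_take_drop, ← Equiv.Perm.mul_apply, ← map_mul, mul_inv_cancel, map_one,
        Equiv.Perm.one_apply] at h1
      rcases cmp_of_eq _ _ _ _ h1 with h | h
      · exact h
      · rcases List.prefix_concat_iff.1 h with h | h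
        · rw [h]
          exact List.prefix_rfl
        · exfalso
          have h2 := h.length_le
          obtain ⟨r, hr⟩ := h.trans (List.take_prefix _ _)
          have h3 := e'.ext r
          rw [hr] at h3
          have h4 := congrArg List.length (h3.uniq' e)
          have h5 := congrArg List.length hr
          rw [List.length_append, Stream'.length_take] at h4
          rw [List.length_append] at h5
          rw [List.length_take] at h2
          omega
    obtain ⟨i, j, hij, hj, e1⟩ := hN (fun i => (p i).take n) fun i _ => Stream'.length_take _ _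
    obtain ⟨c', e'⟩ := hg ((p j).take n) (Stream'.length_take _ _)
    exact sb_sb hij (by omega) (key i (by omega) c' (by rw [e1]; exact e')) (key j (by omega) c' e')
  have : Finite {b : List Bool | b.length = n} := List.finite_length_eq Bool n
  have : Finite {c : List Bool | c.length ≤ N} := List.finite_length_le Bool N
  rw [← Set.finite_coe_iff]
  have hc : ∀ g : {g : G | ∀ b : List Bool, b.length = n → ∃ c, PR ρ g b c},
      ∀ b : {b : List Bool | b.length = n}, ∃ c : {c : List Bool | c.length ≤ N},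
        PR ρ g.1 b.1 c.1 := fun g b => by
    obtain ⟨c, e⟩ := g.2 b.1 b.2
    exact ⟨⟨c, bd g.1 g.2 b.1 c b.2 e⟩, e⟩
  choose F hF using hc
  refine Finite.of_injective F fun g g' e => Subtype.ext (hρ ?_)
  ext1 ξ
  have h1 := hF g ⟨ξ.take n, Stream'.length_take _ _⟩ (ξ.drop n)
  have h2 := hF g' ⟨ξ.take n, Stream'.length_take _ _⟩ (ξ.drop n)
  rw [e, ← h2] at h1
  simpa only [Stream'.append_take_drop] using h1

end Pool.Agent.P.MP_91c514_al.NA
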