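import Pool.Agent.P.MP_91c514_al.NA1

/-!
Cones carried along words, and the pumping of a rising cone.
-/

namespace Pool.Agent.P.MP_91c514_al.NA

variable {G : Type} [Group G] (ρ : G →* Equiv.Perm Cn) {A : Type} (a : A → G)

/-- The value of a word. -/
def ev (w : List A) : G := (w.map a).prod

@[simp] lemma ev_nil : ev a [] = 1 := rfl

lemma ev_cons (x : A) (w : List A) : ev a (x :: w) = a x * ev a w := by simp [ev]

lemma ev_append (u v : List A) : ev a (u ++ v) = ev a u * ev a v := by simp [ev]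

/-- The letters of the word, from the last to the first, carry the cone `ν` to the cone `c`. -/
inductive Carry : List A → List Bool → List Bool → Prop
  | nil (ν : List Bool) : Carry [] ν ν
  | cons {x : A} {z : List A} {ν b c : List Bool} :
      Carry z ν b → PR ρ (a x) b c → Carry (x :: z) ν c

variable {ρ a}

lemma Carry.pr {z : List A} {ν c : List Bool} (h : Carry ρ a z ν c) : PR ρ (ev a z) ν c := by
  induction h with
  | nil ν => exact PR.one _
  | cons _ e ih => rw [ev_cons]; exact e.mul ih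

lemma Carry.uniq {z : List A} {ν c c' : List Bool} (h : Carry ρ a z ν c) (h' : Carry ρ a z ν c') :
    c = c' := h.pr.uniq h'.pr

lemma Carry.ext {z : List A} {ν c : List Bool} (h : Carry ρ a z ν c) (r : List Bool) :
    Carry ρ a z (ν ++ r) (c ++ r) := by
  induction h with
  | nil ν => exact Carry.nil _
  | cons _ e ih => exact Carry.cons ih (e.ext r)

lemma Carry.append {z z' : List A} {ν b c : List Bool} (h : Carry ρ a z b c)
    (h' : Carry ρ a z' ν b) : Carry ρ a (z ++ z') ν c := by
  induction h with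
  | nil ν => exact h'
  | cons _ e ih => exact Carry.cons (ih h') e

lemma Carry.split {z z' : List A} {ν c : List Bool} (h : Carry ρ a (z ++ z') ν c) :
    ∃ b, Carry ρ a z b c ∧ Carry ρ a z' ν b := by
  induction z generalizing c with
  | nil => exact ⟨c, Carry.nil _, h⟩
  | cons x z ih =>
    cases h with
    | cons h1 e =>
      obtain ⟨b, h2, h3⟩ := ih h1
      exact ⟨b, Carry.cons h2 e, h3⟩

lemma Carry.cut {z : List A} {ν c : List Bool} (h : Carry ρ a z ν c) (j : ℕ) :
    ∃ b, Carry ρ a (z.take j) b c ∧ Carry ρ a (z.drop j) ν b := by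
  rw [← List.take_append_drop j z] at h
  exact h.split

lemma Carry.short {D : ℕ} (hD : ∀ x, Lin ρ (a x) D) {x : A} {z : List A} {ν c : List Bool}
    (h : Carry ρ a z ν c) (h' : ¬ ∃ c', Carry ρ a (x :: z) ν c') : c.length < D := by
  by_contra hc
  obtain ⟨c', e⟩ := hD x c (by omega)
  exact h' ⟨c', Carry.cons h e⟩

lemma exists_created {D : ℕ} (hD : ∀ x, Lin ρ (a x) D) {z : List A} {ν : List Bool}
    (h : ¬ ∃ c, Carry ρ a z ν c) : ∃ j c, Carry ρ a (z.drop j) ν c ∧ c.length < D := by
  induction z with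
  | nil => exact (h ⟨ν, Carry.nil _⟩).elim
  | cons x z ih =>
    by_cases e : ∃ c, Carry ρ a z ν c
    · obtain ⟨c, e⟩ := e
      exact ⟨1, c, e, e.short hD h⟩
    · obtain ⟨j, c, h1, h2⟩ := ih e
      exact ⟨j + 1, c, h1, h2⟩

variable (ρ a) in
/-- All cones of depth `n` are carried. -/
def AllC (n : ℕ) (z : List A) : Prop := ∀ b : List Bool, b.length = n → ∃ c, Carry ρ a z b c

lemma exists_cut {D : ℕ} (hD : ∀ x, Lin ρ (a x) D) (n : ℕ) (w : List A) :
    AllC ρ a n w ∨ ∃ u z, w = u ++ z ∧ AllC ρ a n z ∧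
      ∃ b c, b.length = n ∧ Carry ρ a z b c ∧ c.length < D := by
  induction w with
  | nil => exact Or.inl fun b _ => ⟨b, Carry.nil _⟩
  | cons x w ih =>
    rcases ih with h | ⟨u, z, rfl, h⟩
    · by_cases e : AllC ρ a n (x :: w)
      · exact Or.inl e
      · unfold AllC at e
        push Not at e
        obtain ⟨b, hb, e⟩ := e
        obtain ⟨c, hc⟩ := h b hb
        exact Or.inr ⟨[x], w, rfl, h, b, c, hb, hc, hc.short hD fun ⟨c', h'⟩ => e c' h'⟩
    · exact Or.inr ⟨x :: u, z, rfl, h⟩

lemma climb {z : List A} (r : List Bool) : ∀ {ν : List Bool}, (¬ ∃ c, Carry ρ a z ν c) →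
    (∃ c, Carry ρ a z (ν ++ r) c) → ∃ r' x, r' ++ [x] <+: r ∧
      (¬ ∃ c, Carry ρ a z (ν ++ r') c) ∧ ∃ c, Carry ρ a z (ν ++ r' ++ [x]) c := by
  induction r with
  | nil => intro ν h h'; rw [List.append_nil] at h'; exact (h h').elim
  | cons y r ih =>
    intro ν h h'
    by_cases e : ∃ c, Carry ρ a z (ν ++ [y]) c
    · exact ⟨[], y, by simp, by simpa using h, by simpa using e⟩
    · obtain ⟨r', x, h1, h2, h3⟩ := ih e (by simpa using h')
      exact ⟨y :: r', x, by simpa using h1, by simpa using h2, by simpa using h3⟩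

/-- Some carried cone rises by a prescribed amount. -/
lemma exists_rise {D : ℕ} (hD : ∀ x, Lin ρ (a x) D) (H : ℕ) : ∃ n : ℕ, ∀ z, AllC ρ a n z →
    (∃ b c, b.length = n ∧ Carry ρ a z b c ∧ c.length < D) →
    ∃ J c j c', J.length ≤ n ∧ Carry ρ a z J c ∧ H < c.length ∧
      Carry ρ a (z.drop j) J c' ∧ c'.length ≤ D := by
  obtain ⟨N, hN⟩ := pig (List.finite_length_le Bool H)
  refine ⟨N + D + 1, fun z hz ⟨b, c, hb, hc, hl⟩ => ?_⟩
  have key : ∀ i, i ≤ N → ∃ J c j c', sb b i <+: J ∧ J.length ≤ N + D + 1 ∧ Carry ρ a z J c ∧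
      Carry ρ a (z.drop j) J c' ∧ c'.length ≤ D := by
    intro i hi
    have h1 : ¬ ∃ c, Carry ρ a z (b.take i) c := by
      rintro ⟨c1, h1⟩
      have h2 := h1.ext (b.drop i)
      rw [List.take_append_drop] at h2
      have h3 := congrArg List.length (hc.uniq h2)
      rw [List.length_append, List.length_drop] at h3
      omega
    obtain ⟨r', x, h2, h3, c1, h4⟩ := climb
      ((!(b.getD i false)) :: List.replicate (N + D - i) false) h1 (hz _ (by simp; omega))
    obtain ⟨j, c', h5, h6⟩ := exists_created hD h3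
    refine ⟨_, c1, j, _, ?_, ?_, h4, h5.ext [x], by simp; omega⟩
    · rw [List.append_assoc, sb, List.prefix_append_right_inj]
      cases r' with
      | nil =>
        have : x = !(b.getD i false) := (List.cons_prefix_cons.1 h2).1
        simp [this]
      | cons y r' =>
        have : y = !(b.getD i false) := (List.cons_prefix_cons.1 h2).1
        simp [this]
    · have := h2.length_le
      simp at this ⊢
      omega
  by_contra hcon
  push Not at hcon
  choose! J C j C' h1 h2 h3 h4 h5 using key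
  obtain ⟨i, k, hik, hk, e⟩ := hN C fun i hi => by
    by_contra h
    have := hcon _ _ _ _ (h2 i hi) (h3 i hi) (by simpa using h) (h4 i hi)
    have := h5 i hi
    omega
  have e2 : J i = J k := (h3 i (by omega)).pr.uniq' (by rw [e]; exact (h3 k hk).pr)
  exact sb_sb hik (by omega) (h1 i (by omega)) (e2 ▸ h1 k hk)

lemma step {D : ℕ} (hD : ∀ x, Lin ρ (a x)⁻¹ D) {z : List A} {J β : List Bool}
    {c : ℕ → List Bool} (hc : ∀ j, Carry ρ a (z.drop j) J (c j)) (n : ℕ) :
    ∀ (j0 : ℕ) (s0 : List Bool), c j0 = s0 ++ β →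
      (∀ j, j0 ≤ j → j < j0 + n → D + β.length ≤ (c j).length) →
      ∃ s, c (j0 + n) = s ++ β ∧ Carry ρ a ((z.drop j0).take n) s s0 := by
  induction n with
  | zero => intro j0 s0 h _; exact ⟨s0, h, by simpa using Carry.nil _⟩
  | succ n ih =>
    intro j0 s0 h hh
    have h0 := hc j0
    cases hz : z.drop j0 with
    | nil =>
      have h1 := hc (j0 + (n + 1))
      rw [← List.drop_drop, hz, List.drop_nil] at h1
      rw [hz] at h0
      exact ⟨s0, (h1.uniq h0).trans h, by simpa using Carry.nil _⟩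
    | cons x z1 =>
      have h1 := hc (j0 + 1)
      have hz1 : z.drop (j0 + 1) = z1 := by rw [← List.drop_drop, hz]; rfl
      rw [hz] at h0
      rw [hz1] at h1
      have h2 := hh j0 le_rfl (by omega)
      rw [h, List.length_append] at h2
      obtain ⟨s1, e1⟩ := hD x s0 (by omega)
      have e2 : PR ρ (a x) s1 s0 := by simpa using e1.inv
      have e3 : c (j0 + 1) = s1 ++ β := by
        cases h0 with
        | cons h3 e =>
          rw [h] at e
          exact (h1.uniq h3).trans (e.uniq' (e2.ext β))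
      obtain ⟨s, h4, h5⟩ := ih (j0 + 1) s1 e3 fun j h1 h2 => hh j (by omega) (by omega)
      rw [hz1] at h5
      exact ⟨s, by rw [← h4]; congr 1; omega, Carry.cons h5 e2⟩

lemma Carry.pow {y : List A} {s τ : List Bool} (h : Carry ρ a y s (s ++ τ)) (r : List Bool)
    (m : ℕ) : Carry ρ a (List.replicate m y).flatten (s ++ r)
      (s ++ ((List.replicate m τ).flatten ++ r)) := by
  induction m with
  | zero => simpa using Carry.nil _
  | succ m ih =>
    have := (h.ext ((List.replicate m τ).flatten ++ r)).append ih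
    simpa [List.replicate_succ] using this

variable {σ : Type} (M : DFA A σ)

lemma evalFrom_pow {q : σ} {y : List A} (h : M.evalFrom q y = q) (m : ℕ) :
    M.evalFrom q (List.replicate m y).flatten = q := by
  induction m with
  | zero => rfl
  | succ m ih => rw [List.replicate_succ, List.flatten_cons, DFA.evalFrom_of_append, h, ih]

/-- A loop of the automaton along which a cone rises. -/
lemma exists_loop [Finite σ] {D : ℕ} (hD : ∀ x, Lin ρ (a x)⁻¹ D) : ∃ H : ℕ,
    ∀ (q : σ) (z : List A) (J c c' : List Bool) (j : ℕ), Carry ρ a z J c → H < c.length →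
      Carry ρ a (z.drop j) J c' → c'.length ≤ D →
      ∃ z1 y z2 s τ r, z = z1 ++ (y ++ z2) ∧ M.evalFrom (M.evalFrom q z1) y = M.evalFrom q z1 ∧
        τ ≠ [] ∧ Carry ρ a y s (s ++ τ) ∧ Carry ρ a z2 J (s ++ r) := by
  obtain ⟨B, hB⟩ := pig ((Set.finite_univ (α := σ)).prod (List.finite_length_le Bool D))
  refine ⟨D + B, fun q z J c0 c' j0 h0 hH h1 h2 => ?_⟩
  have hc : ∀ j, ∃ b, Carry ρ a (z.drop j) J b := fun j => by
    obtain ⟨b, -, h⟩ := h0.cut j
    exact ⟨b, h⟩
  choose c hc using hc
  have e0 : c 0 = c0 := (hc 0).uniq h0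
  have ex : ∀ i, ∃ j, (c j).length ≤ D + i := fun i =>
    ⟨j0, by rw [(hc j0).uniq h1]; omega⟩
  let t : ℕ → ℕ := fun i => Nat.find (ex i)
  let β : ℕ → List Bool := fun i => c0.drop (c0.length - (i + 1))
  have hβ : ∀ i, i ≤ B → (β i).length = i + 1 := fun i hi => by
    simp only [β, List.length_drop]; omega
  have ht : ∀ i, i ≤ B → ∀ j, j < t i → D + (β i).length ≤ (c j).length := fun i hi j hj => by
    have := Nat.find_min (ex i) hj
    rw [hβ i hi]
    omega
  have key : ∀ i, i ≤ B → ∃ s, c (t i) = s ++ β i := fun i hi => by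
    obtain ⟨s, h, -⟩ := step hD (β := β i) hc (t i) 0 (c0.take (c0.length - (i + 1)))
      (by rw [e0, List.take_append_drop]) fun j _ hj => ht i hi j (by omega)
    exact ⟨s, by simpa using h⟩
  choose! s hs using key
  obtain ⟨i, k, hik, hk, e⟩ := hB (fun i => (M.evalFrom q (z.take (t i)), s i)) fun i hi => by
    have h3 : (c (t i)).length ≤ D + i := Nat.find_spec (ex i)
    rw [hs i hi, List.length_append, hβ i hi] at h3
    exact ⟨trivial, by simp only [Set.mem_ofPred_eq]; omega⟩
  obtain ⟨e1, e2⟩ := Prod.mk.inj e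
  have h3 : t k ≤ t i := Nat.find_min' (ex k) ((Nat.find_spec (ex i)).trans (by omega))
  obtain ⟨n, hn⟩ := Nat.exists_eq_add_of_le h3
  have h4 : β k = (β k).take (k - i) ++ β i := by
    have : β i = (β k).drop (k - i) := by
      simp only [β, List.drop_drop]
      congr 1
      omega
    rw [this, List.take_append_drop]
  obtain ⟨s', h5, h6⟩ := step hD (β := β i) hc n (t k) (s k ++ (β k).take (k - i))
    (by rw [List.append_assoc, ← h4, hs k hk]) fun j _ hj => ht i (by omega) j (by omega)
  rw [← hn, hs i (by omega), List.append_cancel_right_eq, e2] at h5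
  subst h5
  have h7 : z.take (t i) = z.take (t k) ++ (z.drop (t k)).take n := by rw [hn, List.take_add]
  refine ⟨z.take (t k), (z.drop (t k)).take n, z.drop (t i), s k, _, β i, ?_, ?_, ?_, h6, ?_⟩
  · rw [← List.append_assoc, ← h7, List.take_append_drop]
  · rw [← DFA.evalFrom_of_append, ← h7, e1]
  · intro h
    have := congrArg List.length h
    rw [List.length_take, hβ k hk, List.length_nil] at this
    omega
  · rw [← e2, ← hs i (by omega)]
    exact hc _

variable (ρ a) in
/-- From the state `q` an accepted word carries a shallow cone to an arbitrarily deep one. -/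
def Key (n : ℕ) (q : σ) (ζ : G) : Prop := ∃ n0 : ℕ, ∀ (code : List Bool) (d : ℕ),
  n0 + code.length ≤ d → ∃ (ω c κ : List Bool) (v : List A), ω.length = d ∧ code <:+ ω ∧
    PR ρ ζ ω c ∧ d ≤ c.length + n ∧ M.evalFrom q v ∈ M.accept ∧ Carry ρ a v κ c ∧
    κ.length ≤ n0 + code.length

lemma exists_key [Finite σ] (hV : ∀ g : G, ∃ d, Lin ρ g d) {D : ℕ} (hD : ∀ x, Lin ρ (a x) D)
    (hD' : ∀ x, Lin ρ (a x)⁻¹ D) : ∃ n : ℕ, ∀ (q : σ) (z : List A), AllC ρ a n z →
      (∃ b c, b.length = n ∧ Carry ρ a z b c ∧ c.length < D) → M.evalFrom q z ∈ M.accept →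
      Key ρ a M n q (ev a z) := by
  obtain ⟨H, hH⟩ := exists_loop M hD'
  obtain ⟨n, hn⟩ := exists_rise hD H
  refine ⟨n, fun q z h1 h2 h3 => ?_⟩
  obtain ⟨J, c, j, c', hJ, h4, h5, h6, h7⟩ := hn z h1 h2
  obtain ⟨z1, y, z2, s, τ, r, rfl, e1, e2, e3, e4⟩ := hH q z J c c' j h4 h5 h6 h7
  have hτ : 0 < τ.length := List.length_pos_iff.2 e2
  obtain ⟨m0, hm0⟩ := hV (ev a (y ++ z2))⁻¹
  obtain ⟨s1, hs1⟩ := hm0 (s ++ (List.replicate m0 τ).flatten) (by
    have : m0 * 1 ≤ m0 * τ.length := Nat.mul_le_mul_left _ hτ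
    simp
    omega)
  refine ⟨s1.length + r.length + n + τ.length, fun code d hd => ?_⟩
  obtain ⟨e, he⟩ : ∃ e, d = s1.length + r.length + code.length + e := ⟨d - (s1.length + r.length +
    code.length), by omega⟩
  let r' := List.replicate (e % τ.length) false ++ code
  let rest := (List.replicate (e / τ.length) τ).flatten ++ (r ++ r')
  have hl : (s1 ++ rest).length = d := by
    have := Nat.div_add_mod' e τ.length
    simp [rest, r']
    omega
  obtain ⟨cb, hcb⟩ := h1 ((s1 ++ rest).take n) (by rw [List.length_take]; omega)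
  have h8 := hcb.ext ((s1 ++ rest).drop n)
  rw [List.take_append_drop] at h8
  obtain ⟨b1, h9, h10⟩ := h8.split
  have h11 : b1 = s ++ ((List.replicate (m0 + e / τ.length) τ).flatten ++ (r ++ r')) := by
    have := (hs1.ext rest).inv
    rw [inv_inv] at this
    rw [h10.pr.uniq this, List.replicate_add, List.flatten_append]
    simp [rest]
  refine ⟨s1 ++ rest, _, J ++ r', z1 ++ ((List.replicate (m0 + e / τ.length) y).flatten ++ z2),
    hl, ?_, h8.pr, ?_, ?_, h9.append ?_, ?_⟩
  · exact ⟨s1 ++ ((List.replicate (e / τ.length) τ).flatten ++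
      (r ++ List.replicate (e % τ.length) false)), by simp [rest, r']⟩
  · rw [List.length_append, List.length_drop]; omega
  · rw [DFA.evalFrom_of_append, DFA.evalFrom_of_append, evalFrom_pow M e1]
    rwa [DFA.evalFrom_of_append, DFA.evalFrom_of_append, e1] at h3
  · rw [h11]
    refine (e3.pow _ _).append ?_
    rw [← List.append_assoc s]
    exact e4.ext r'
  · have := Nat.mod_lt e hτ
    simp [r']
    omega

end Pool.Agent.P.MP_91c514_al.NA
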