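import Pool.Agent.P.MP_91c514_al.NA2

/-!
No regular language of normal forms with the asynchronous fellow traveller property.
-/

namespace Pool.Agent.P.MP_91c514_al.NA

variable {G : Type} [Group G] (ρ : G →* Equiv.Perm Cn) {A : Type} (a : A → G)

/-- The quotients of `g` and `h` replace the initial word on all cones of depth `d`. -/
def Nr (d : ℕ) (g h : G) : Prop := Lin ρ (g⁻¹ * h) d ∧ Lin ρ (h⁻¹ * g) d

/-- A form of asynchronous fellow travelling that is closed under composition. -/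
def FT (d : ℕ) (u v : List A) : Prop := ∀ n, ∃ t, Nr ρ d (ev a (u.take n)) (ev a (v.take t)) ∧
  ∀ n', t < n' → ∃ r, n ≤ r ∧ Nr ρ d (ev a (u.take r)) (ev a (v.take n'))

variable {ρ a}

lemma Nr.trans {d d' : ℕ} {g h l : G} (e : Nr ρ d g h) (e' : Nr ρ d' h l) :
    Nr ρ (d + d') g l := by
  refine ⟨?_, ?_⟩
  · simpa [mul_assoc] using e.1.mul e'.1
  · simpa [mul_assoc, add_comm] using e'.2.mul e.2

lemma FT.trans {d d' : ℕ} {u v w : List A} (e : FT ρ a d u v) (e' : FT ρ a d' v w) :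
    FT ρ a (d + d') u w := by
  intro n
  obtain ⟨t, h1, h2⟩ := e n
  obtain ⟨t', h3, h4⟩ := e' t
  refine ⟨t', h1.trans h3, fun n' hn => ?_⟩
  obtain ⟨r, h5, h6⟩ := h4 n' hn
  rcases h5.eq_or_lt with rfl | h5
  · exact ⟨n, le_rfl, h1.trans h6⟩
  · obtain ⟨r', h7, h8⟩ := h2 r h5
    exact ⟨r', h7, h8.trans h6⟩

lemma FT.of_mono {d : ℕ} {u v : List A} {φ ψ : ℕ → ℕ} (h1 : Monotone φ) (h2 : Monotone ψ)
    (h3 : Function.Surjective φ) (h4 : Function.Surjective ψ)
    (h : ∀ t, Nr ρ d (ev a (u.take (φ t))) (ev a (v.take (ψ t)))) : FT ρ a d u v := by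
  intro n
  obtain ⟨s, rfl⟩ := h3 n
  refine ⟨ψ s, h s, fun n' hn => ?_⟩
  obtain ⟨s', rfl⟩ := h4 n'
  exact ⟨φ s', h1 (h2.reflect_lt hn).le, h s'⟩

lemma chain {L : Set (List A)} {d : ℕ} (hs : ∀ g : G, ∃ w ∈ L, ev a w = g)
    (hf : ∀ u ∈ L, ∀ v ∈ L, (ev a u = ev a v ∨ ∃ b, ev a u * a b = ev a v) → FT ρ a d u v)
    (p : List A) : ∀ u ∈ L, ∀ v ∈ L, ev a u * ev a p = ev a v →
      FT ρ a (d * (p.length + 1)) u v := by
  induction p with
  | nil => intro u hu v hv e; simpa using hf u hu v hv (Or.inl (by simpa using e))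
  | cons x p ih =>
    intro u hu v hv e
    obtain ⟨w, hw, e'⟩ := hs (ev a u * a x)
    have := (hf u hu w hw (Or.inr ⟨x, e'.symm⟩)).trans
      (ih w hw v hv (by rw [e', mul_assoc, ← ev_cons, e]))
    rwa [List.length_cons, mul_add d (p.length + 1) 1, mul_one, add_comm]

lemma FT.eq_of_deep (hρ : Function.Injective ρ) {d : ℕ} {u u' v : List A} {κ c : List Bool}
    (h : FT ρ a d (u ++ v) (u' ++ v)) (hv : Carry ρ a v κ c) (hc : d ≤ c.length)
    (hs : Supp ρ ((ev a u)⁻¹ * ev a u') c) : ev a u = ev a u' := by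
  have tk : ∀ (w : List A) (r : ℕ), w.length ≤ r →
      ev a ((w ++ v).take r) = ev a w * ev a (v.take (r - w.length)) := fun w r hr => by
    rw [List.take_append, List.take_of_length_le hr, ev_append]
  obtain ⟨t, h1, h2⟩ := h u.length
  rcases lt_or_ge t u'.length with ht | ht
  · obtain ⟨r, h3, h4⟩ := h2 _ ht
    rw [tk u r h3, List.take_left'  rfl] at h4
    obtain ⟨s, e⟩ := h4.1 c hc
    obtain ⟨b, h5, -⟩ := hv.cut (r - u.length)
    rw [mul_inv_rev, mul_assoc] at e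
    exact inv_mul_eq_one.1 (hs.eq_one' hρ h5.pr e)
  · rw [tk u' t ht, List.take_left' rfl] at h1
    obtain ⟨s, e⟩ := h1.2 c hc
    obtain ⟨b, h5, -⟩ := hv.cut (t - u'.length)
    rw [mul_inv_rev, mul_assoc] at e
    have h6 := hs.inv
    rw [mul_inv_rev, inv_inv] at h6
    exact (inv_mul_eq_one.1 (h6.eq_one' hρ h5.pr e)).symm

/-- The code word of a number. -/
def cd (C i : ℕ) : List Bool := List.replicate i false ++ (true :: List.replicate (C - i) false)

lemma length_cd {C i : ℕ} (h : i ≤ C) : (cd C i).length = C + 1 := by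
  simp [cd]; omega

lemma cd_inj {C i j : ℕ} (h : cd C i = cd C j) : i = j := by
  have key : ∀ i j, i < j → cd C i ≠ cd C j := by
    intro i j hij e
    obtain ⟨k, rfl⟩ := Nat.exists_eq_add_of_lt hij
    rw [cd, cd, add_assoc, List.replicate_add, List.append_assoc, List.append_cancel_left_eq,
      List.replicate_succ] at e
    simp at e
  by_contra hne
  rcases lt_or_gt_of_ne hne with h' | h'
  · exact key i j h' h
  · exact key j i h' h.symm

theorem not_aut (hρ : Function.Injective ρ) (hV : ∀ g : G, ∃ d, Lin ρ g d)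
    (hM : ∀ s, ∃ g : G, g ≠ 1 ∧ Supp ρ g s) [Finite A] {σ : Type} [Finite σ] (M : DFA A σ)
    (hs : ∀ g : G, ∃ w ∈ M.accepts, ev a w = g) {d : ℕ}
    (hf : ∀ u ∈ M.accepts, ∀ v ∈ M.accepts, (ev a u = ev a v ∨ ∃ b, ev a u * a b = ev a v) →
      FT ρ a d u v) : False := by
  classical
  obtain ⟨D, hD, hD'⟩ : ∃ D, (∀ x, Lin ρ (a x) D) ∧ ∀ x, Lin ρ (a x)⁻¹ D := by
    choose f hf using hV
    obtain ⟨D, hD⟩ := Finite.exists_le fun x => max (f (a x)) (f (a x)⁻¹)
    exact ⟨D, fun x => (hf _).mono ((le_max_left _ _).trans (hD x)),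
      fun x => (hf _).mono ((le_max_right _ _).trans (hD x))⟩
  obtain ⟨n, hn⟩ := exists_key M hV hD hD'
  have : Finite {g : G | ∀ b : List Bool, b.length = n → ∃ c, PR ρ g b c} := finite_AL hρ n
  let X := σ × {g : G | ∀ b : List Bool, b.length = n → ∃ c, PR ρ g b c}
  let _ : Fintype X := Fintype.ofFinite X
  let C := Fintype.card X
  let co : X → List Bool := fun x => cd C (Fintype.equivFin X x)
  have hco : ∀ x, (co x).length = C + 1 := fun x => length_cd (Fintype.equivFin X x).2.le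
  choose η hη1 hη2 using exists_family hρ hM
  have hn0 : ∀ x : X, ∃ n0 : ℕ, ∀ d', n0 + (C + 1) ≤ d' → ∃ (ω : List Bool) (Γ : ℕ → G),
      ω.length = d' ∧ co x <:+ ω ∧ Function.Injective Γ ∧ (∀ i, Supp ρ (Γ i) ω) ∧
      (Key ρ a M n x.1 x.2.1 → ∃ (c κ : List Bool) (v : List A), d' ≤ c.length + n ∧
        M.evalFrom x.1 v ∈ M.accept ∧ Carry ρ a v κ c ∧ κ.length ≤ n0 + (C + 1) ∧
        ∀ i, Γ i = x.2.1⁻¹ * ev a v * η κ i * (x.2.1⁻¹ * ev a v)⁻¹) := by
    intro x
    by_cases hk : Key ρ a M n x.1 x.2.1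
    · obtain ⟨n0, h⟩ := hk
      refine ⟨n0, fun d' hd => ?_⟩
      obtain ⟨ω, c, κ, v, h1, h2, h3, h4, h5, h6, h7⟩ := h (co x) d' (by rw [hco]; exact hd)
      refine ⟨ω, fun i => x.2.1⁻¹ * ev a v * η κ i * (x.2.1⁻¹ * ev a v)⁻¹, h1, h2,
        fun i j e => hη1 κ (by simpa using e), fun i => (hη2 κ i).conj (h3.inv.mul h6.pr),
        fun _ => ⟨c, κ, v, h4, h5, h6, by rw [← hco x]; exact h7, fun _ => rfl⟩⟩
    · refine ⟨0, fun d' hd => ⟨List.replicate (d' - (C + 1)) false ++ co x, η _, ?_,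
        List.suffix_append _ _, hη1 _, hη2 _, fun h => (hk h).elim⟩⟩
      rw [List.length_append, List.length_replicate, hco]
      omega
  choose n0 hn0 using hn0
  obtain ⟨N0, hN0⟩ := Finite.exists_le n0
  obtain ⟨W, hW⟩ : ∃ W : ℕ, ∀ κ : List Bool, κ.length ≤ N0 + (C + 1) → ∀ i j : Fin (C + 1),
      ∃ p : List A, p.length ≤ W ∧ ev a p = (η κ i)⁻¹ * η κ j := by
    choose wd _ hwd using hs
    have : Finite {κ : List Bool | κ.length ≤ N0 + (C + 1)} := List.finite_length_le Bool _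
    obtain ⟨W, hW⟩ := Finite.exists_le
      fun y : {κ : List Bool | κ.length ≤ N0 + (C + 1)} × Fin (C + 1) × Fin (C + 1) =>
        (wd ((η y.1 y.2.1)⁻¹ * η y.1 y.2.2)).length
    exact ⟨W, fun κ hκ i j => ⟨_, hW (⟨κ, hκ⟩, i, j), hwd _⟩⟩
  choose ω Γ h1 h2 h3 h4 h5 using fun x =>
    hn0 x (N0 + (C + 1) + n + d * (W + 1)) (by have := hN0 x; omega)
  have hω : ∀ x y, x ≠ y → ¬ ω x <+: ω y := fun x y hxy h => by
    have e := h.eq_of_length (by rw [h1, h1])
    have e2 : co x = co y := (List.suffix_of_suffix_length_le (h2 x) (e ▸ h2 y)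
      (by rw [hco, hco])).eq_of_length (by rw [hco, hco])
    exact hxy ((Fintype.equivFin X).injective (Fin.ext (cd_inj e2)))
  have hcm : ∀ (k : X → Fin (C + 1)) (S : Finset X), (S : Set X).Pairwise
      (Function.onFun Commute fun x => Γ x (k x)) := fun k S x _ y _ hxy =>
    (h4 x _).commute hρ (h4 y _) (hω x y hxy) (hω y x hxy.symm)
  let g : (X → Fin (C + 1)) → G := fun k =>
    Finset.univ.noncommProd (fun x => Γ x (k x)) (hcm k _)
  have hcut : ∀ k, ∃ u z, ev a u * ev a z = g k ∧ AllC ρ a n z ∧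
      (u = [] ∨ Key ρ a M n (M.eval u) (ev a z)) := fun k => by
    obtain ⟨w, hw, e⟩ := hs (g k)
    rcases exists_cut hD n w with h | ⟨u, z, rfl, h, h'⟩
    · exact ⟨[], w, by simpa using e, h, Or.inl rfl⟩
    · refine ⟨u, z, by rw [← ev_append, e], h, Or.inr (hn _ z h h' ?_)⟩
      rw [DFA.eval, ← DFA.evalFrom_of_append]
      exact hw
  choose u z e1 e2 e3 using hcut
  obtain ⟨k, k', e4, e5, e6⟩ := box (X := X) (Nat.lt_succ_self C) fun k =>
    (M.eval (u k), ⟨ev a (z k), fun b hb => (e2 k b hb).imp fun _ h => h.pr⟩)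
  generalize hx : ((M.eval (u k), ⟨ev a (z k), fun b hb => (e2 k b hb).imp fun _ h => h.pr⟩) : X)
    = x at e4 e6
  have q1 : M.eval (u k) = x.1 := congrArg Prod.fst hx
  have q2 : M.eval (u k') = x.1 := (congrArg Prod.fst e4).symm
  have z1 : ev a (z k) = x.2.1 := congrArg (fun y : X => y.2.1) hx
  have z2 : ev a (z k') = x.2.1 := (congrArg (fun y : X => y.2.1) e4).symm
  have e7 : g k' = g k * ((Γ x (k x))⁻¹ * Γ x (k' x)) := by
    simp only [g]
    rw [← Finset.noncommProd_erase_mul _ (Finset.mem_univ x) _ (hcm k _) (hcm k _),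
      ← Finset.noncommProd_erase_mul _ (Finset.mem_univ x) _ (hcm k' _) (hcm k' _),
      mul_assoc, mul_inv_cancel_left]
    congr 1
    exact Finset.noncommProd_congr rfl (fun y hy => by
      rw [e6 y (Finset.ne_of_mem_erase hy)]) _
  have e8 : g k ≠ g k' := fun h => by
    rw [← h, left_eq_mul, inv_mul_eq_one] at e7
    refine e5 (funext fun y => ?_)
    by_cases hy : y = x
    · rw [hy]; exact Fin.ext (h3 x e7)
    · exact e6 y hy
  have hk : Key ρ a M n x.1 x.2.1 := by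
    rcases e3 k with h | h
    · rcases e3 k' with h' | h'
      · refine (e8 ?_).elim
        rw [← e1, ← e1, h, h', z1, z2]
      · rwa [q2, z2] at h'
    · rwa [q1, z1] at h
  obtain ⟨c, κ, v, h6, h7, h8, h9, h10⟩ := h5 x hk
  obtain ⟨p, hp, e9⟩ := hW κ (by have := hN0 x; omega) (k x) (k' x)
  have u1 : ev a (u k) = g k * x.2.1⁻¹ := by rw [← e1, z1, mul_inv_cancel_right]
  have u2 : ev a (u k') = g k' * x.2.1⁻¹ := by rw [← e1, z2, mul_inv_cancel_right]
  have ac : ∀ w, M.eval w = x.1 → w ++ v ∈ M.accepts := fun w hw => by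
    rw [DFA.mem_accepts, DFA.eval, DFA.evalFrom_of_append]
    rwa [← hw] at h7
  have ft := chain hs hf p _ (ac _ q1) _ (ac _ q2) (by
    rw [ev_append, ev_append, u1, u2, e7, h10, h10, e9]
    group)
  have hle : d * (p.length + 1) ≤ d * (W + 1) := Nat.mul_le_mul_left _ (by omega)
  have := ft.eq_of_deep hρ h8 (by omega) (by
    have e : (ev a (u k))⁻¹ * ev a (u k') =
        ev a v * ((η κ (k x))⁻¹ * η κ (k' x)) * (ev a v)⁻¹ := by
      rw [u1, u2, e7, h10, h10]
      group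
    rw [e]
    exact ((hη2 κ _).inv.mul (hη2 κ _)).conj h8.pr)
  rw [u1, u2, mul_left_inj] at this
  exact e8 this

end Pool.Agent.P.MP_91c514_al.NA
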