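import Pool.Agent.P.MP_91c514_al.NA3
import Pool.Agent.P.MP_91c514_al.Group

/-!
Groups of permutations of the infinite binary sequences; the case of Thompson's group `F`.
-/

namespace Pool.Agent.P.MP_91c514_al.NA

theorem not_aut_sub (G : Subgroup (Equiv.Perm Cn))
    (hV : ∀ g ∈ G, ∃ d : ℕ, ∀ s : List Bool, s.length = d →
      ∃ s' : List Bool, ∀ ξ : Cn, g (s ++ₛ ξ) = s' ++ₛ ξ)
    (hM : ∀ s : List Bool, ∃ g ∈ G, g ≠ 1 ∧ ∀ ξ : Cn, (∀ η : Cn, ξ ≠ s ++ₛ η) → g ξ = ξ) :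
    ¬ ∃ (m : ℕ) (a : Fin m → G) (σ : Type) (_ : Fintype σ) (M : DFA (Fin m) σ) (k : ℕ),
      (∀ g : G, ∃ w ∈ M.accepts, (w.map a).prod = g) ∧
      (∀ u ∈ M.accepts, ∀ v ∈ M.accepts,
        ((u.map a).prod = (v.map a).prod ∨ ∃ b : Fin m, (u.map a).prod * a b = (v.map a).prod) →
        ∃ φ ψ : ℕ → ℕ, Monotone φ ∧ Monotone ψ ∧ Function.Surjective φ ∧
          Function.Surjective ψ ∧ ∀ t : ℕ, ∃ w : List (Fin m ⊕ Fin m), w.length ≤ k ∧
            ((u.take (φ t)).map a).prod * (w.map (Sum.elim a (fun i => (a i)⁻¹))).prod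
              = ((v.take (ψ t)).map a).prod) := by
  rintro ⟨m, a, σ, _, M, k, h1, h2⟩
  have hV' : ∀ g : G, ∃ d, Lin G.subtype g d := fun g => by
    obtain ⟨d, hd⟩ := hV g g.2
    refine ⟨d, fun s hs => ?_⟩
    obtain ⟨s', h⟩ := hd (s.take d) (by rw [List.length_take]; omega)
    have := PR.ext (ρ := G.subtype) (g := g) h (s.drop d)
    rw [List.take_append_drop] at this
    exact ⟨_, this⟩
  obtain ⟨D, hD⟩ : ∃ D, ∀ x : Fin m ⊕ Fin m, Lin G.subtype (Sum.elim a (fun i => (a i)⁻¹) x) D ∧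
      Lin G.subtype (Sum.elim a (fun i => (a i)⁻¹) x)⁻¹ D := by
    choose f hf using hV'
    obtain ⟨D, hD⟩ := Finite.exists_le fun x : Fin m ⊕ Fin m =>
      max (f (Sum.elim a (fun i => (a i)⁻¹) x)) (f (Sum.elim a (fun i => (a i)⁻¹) x)⁻¹)
    exact ⟨D, fun x => ⟨(hf _).mono ((le_max_left _ _).trans (hD x)),
      (hf _).mono ((le_max_right _ _).trans (hD x))⟩⟩
  have hw : ∀ w : List (Fin m ⊕ Fin m),
      Lin G.subtype (w.map (Sum.elim a (fun i => (a i)⁻¹))).prod (D * w.length) ∧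
      Lin G.subtype (w.map (Sum.elim a (fun i => (a i)⁻¹))).prod⁻¹ (D * w.length) := by
    intro w
    induction w with
    | nil => exact ⟨Lin.one _, by simpa using Lin.one _⟩
    | cons x w ih =>
      rw [List.map_cons, List.prod_cons, mul_inv_rev, List.length_cons, mul_add, mul_one]
      exact ⟨by rw [add_comm]; exact (hD x).1.mul ih.1, ih.2.mul (hD x).2⟩
  refine not_aut (ρ := G.subtype) (a := a) G.subtype_injective hV' (fun s => ?_) M h1
    (d := D * k) fun u hu v hv h => ?_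
  · obtain ⟨g, hg, h3, h4⟩ := hM s
    exact ⟨⟨g, hg⟩, fun e => h3 (congrArg Subtype.val e), h4⟩
  · obtain ⟨φ, ψ, h3, h4, h5, h6, h7⟩ := h2 u hu v hv h
    refine FT.of_mono h3 h4 h5 h6 fun t => ?_
    obtain ⟨w, h8, h9⟩ := h7 t
    have h10 : D * w.length ≤ D * k := Nat.mul_le_mul_left _ h8
    unfold Nr ev
    rw [← h9, inv_mul_cancel_left, mul_inv_rev, inv_mul_cancel_right]
    exact ⟨(hw w).1.mono h10, (hw w).2.mono h10⟩

lemma lin_FF {g : Equiv.Perm Cn} (hg : g ∈ FF) : ∃ d, Lin (MonoidHom.id _) g d := by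
  have key : (∃ d, Lin (MonoidHom.id _) g d) ∧ ∃ d, Lin (MonoidHom.id _) g⁻¹ d := by
    have a0 : ∀ r, PR (MonoidHom.id _) x0 (false :: false :: r) (false :: r) := fun r ξ =>
      x0_00 (r ++ₛ ξ)
    have a1 : ∀ r, PR (MonoidHom.id _) x0 (false :: true :: r) (true :: false :: r) := fun r ξ =>
      x0_01 (r ++ₛ ξ)
    have a2 : ∀ r, PR (MonoidHom.id _) x0 (true :: r) (true :: true :: r) := fun r ξ =>
      x0_1 (r ++ₛ ξ)
    have b0 : Lin (MonoidHom.id _) x0 2 := by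
      rintro (_ | ⟨_ | _, _ | ⟨_ | _, r⟩⟩) h <;> simp at h
      exacts [⟨_, a0 r⟩, ⟨_, a1 r⟩, ⟨_, a2 _⟩, ⟨_, a2 _⟩]
    have b1 : Lin (MonoidHom.id _) x0⁻¹ 2 := by
      rintro (_ | ⟨_ | _, _ | ⟨_ | _, r⟩⟩) h <;> simp at h
      exacts [⟨_, (a0 _).inv⟩, ⟨_, (a0 _).inv⟩, ⟨_, (a1 r).inv⟩, ⟨_, (a2 r).inv⟩]
    have c : ∀ h : Equiv.Perm Cn, Lin (MonoidHom.id _) h 2 →
        Lin (MonoidHom.id _) (on true h) 3 := by
      rintro h e (_ | ⟨_ | _, r⟩) hs
      · simp at hs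
      · exact ⟨false :: r, fun ξ => on_tf h _⟩
      · obtain ⟨r', e'⟩ := e r (by simpa using hs)
        exact ⟨true :: r', fun ξ => (on_same true h _).trans (congrArg _ (e' ξ))⟩
    induction hg using Subgroup.closure_induction with
    | mem x hx =>
      rcases hx with rfl | rfl
      · exact ⟨⟨2, b0⟩, 2, b1⟩
      · exact ⟨⟨3, c _ b0⟩, 3, by rw [x1, ← map_inv]; exact c _ b1⟩
    | one => exact ⟨⟨0, Lin.one _⟩, 0, by rw [inv_one]; exact Lin.one _⟩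
    | mul x y _ _ ihx ihy =>
      obtain ⟨⟨d1, h1⟩, d2, h2⟩ := ihx
      obtain ⟨⟨d3, h3⟩, d4, h4⟩ := ihy
      exact ⟨⟨_, h1.mul h3⟩, _, by rw [mul_inv_rev]; exact h4.mul h2⟩
    | inv x _ ih => exact ⟨ih.2, by rw [inv_inv]; exact ih.1⟩
  exact key.1

lemma micro_FF (s : List Bool) :
    ∃ g ∈ FF, g ≠ 1 ∧ ∀ ξ : Cn, (∀ η : Cn, ξ ≠ s ++ₛ η) → g ξ = ξ := by
  induction s with
  | nil =>
    refine ⟨x0, x0_mem, fun h => ?_, fun ξ h => (h ξ rfl).elim⟩
    exact one_ne_zero (x0_zpow (k := 1) (by rw [zpow_one, h]))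
  | cons b s ih =>
    obtain ⟨g, h1, h2, h3⟩ := ih
    refine ⟨on b g, on_mem b h1, fun h => h2 (Equiv.ext fun w => ?_), fun ξ h => ?_⟩
    · have := Equiv.congr_fun h (Stream'.cons b w)
      rw [on_same] at this
      exact (Stream'.cons_injective2 this).2
    · rw [← Stream'.eta ξ] at h ⊢
      generalize ξ.head = c at h ⊢
      by_cases e : c = b
      · subst e
        rw [on_same, h3 _ fun η e => h η (by rw [e]; rfl)]
      · cases b <;> cases c <;> simp at e ⊢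

end Pool.Agent.P.MP_91c514_al.NA
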