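import Mathlib
import Pool.Agent.Lib.Kuhn.Kuhn

/-!
A group containing `ℤ^n` for every `n` has no properly discontinuous cell-permuting action on a
finite-dimensional contractible CW complex.
-/

set_option linter.unusedSectionVars false

namespace Pool.Agent.P.MP_91c514_al

open Metric Set Topology

/-- Covering lemma: a big cube has no labelling with fewer than `n + 1` layers, locally constant on
each layer and with small classes. -/
lemma no_labelling {n : ℕ} (hn : 1 ≤ n) {C : Type*} (R : ℕ) (c : (Fin n → ℝ) → C) (dm : C → ℕ)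
    (hd : ∀ y, dm (c y) < n)
    (ha : ∀ z, ∃ r > 0, ∀ y, dist y z < r → dm (c y) = dm (c z) → c y = c z)
    (hb : ∀ y z : Fin n → ℝ, (∀ i, 0 ≤ y i ∧ y i ≤ R) → (∀ i, 0 ≤ z i ∧ z i ≤ R) → c y = c z →
      dist y z + 1 ≤ R) (hR : 1 ≤ R) : False := by
  classical
  have ha' : ∀ z, ∃ r > 0, r ≤ 1 ∧ ∀ y, dist y z < r → dm (c y) = dm (c z) → c y = c z := by
    intro z
    obtain ⟨r, hr, h⟩ := ha z
    exact ⟨min r 1, lt_min hr one_pos, min_le_right _ _,
      fun y hy => h y (lt_of_lt_of_le hy (min_le_left _ _))⟩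
  choose r hr0 hr1 hr using ha'
  set Q : Set (Fin n → ℝ) := Icc 0 (fun _ => (R : ℝ)) with hQ
  have hmem : ∀ y : Fin n → ℝ, y ∈ Q ↔ ∀ i, 0 ≤ y i ∧ y i ≤ R := by
    intro y
    simp only [hQ, mem_Icc, Pi.le_def, Pi.zero_apply]
    exact ⟨fun h i => ⟨h.1 i, h.2 i⟩, fun h => ⟨fun i => (h i).1, fun i => (h i).2⟩⟩
  obtain ⟨δ, hδ, hL⟩ := lebesgue_number_lemma_of_metric (s := Q) (ι := Q)
    (c := fun z => ball (z : Fin n → ℝ) (r z / 2)) isCompact_Icc (fun _ => isOpen_ball)
    (fun y hy => mem_iUnion.2 ⟨⟨y, hy⟩, mem_ball_self (by linarith [hr0 y])⟩)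
  obtain ⟨N, hN⟩ := exists_nat_one_div_lt hδ
  set p : (Fin n → ℤ) → Fin n → ℝ := fun v i => (v i : ℝ) / ((N : ℝ) + 1) with hp
  have hNpos : (0 : ℝ) < (N : ℝ) + 1 := by positivity
  set M : ℤ := (R : ℤ) * ((N : ℤ) + 1) with hM
  have hpQ : ∀ v : Fin n → ℤ, (∀ k, 0 ≤ v k ∧ v k ≤ M) → p v ∈ Q := by
    intro v hv
    rw [hmem]
    intro i
    have h1 : (0 : ℝ) ≤ (v i : ℝ) := by exact_mod_cast (hv i).1
    have h2 : (v i : ℝ) ≤ (R : ℝ) * ((N : ℝ) + 1) := by exact_mod_cast (hv i).2
    exact ⟨div_nonneg h1 hNpos.le, (div_le_iff₀ hNpos).2 h2⟩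
  have hex : ∀ v : Fin n → ℤ, ∃ z : Fin n → ℝ, (∀ k, 0 ≤ v k ∧ v k ≤ M) →
      z ∈ Q ∧ ball (p v) δ ⊆ ball z (r z / 2) := by
    intro v
    by_cases hv : ∀ k, 0 ≤ v k ∧ v k ≤ M
    · obtain ⟨z, hz⟩ := hL _ (hpQ v hv)
      exact ⟨z, fun _ => ⟨z.2, hz⟩⟩
    · exact ⟨0, fun h => absurd h hv⟩
  choose ζ hζ using hex
  have hM1 : 1 ≤ M := by
    have : (1 : ℤ) ≤ R := by exact_mod_cast hR
    have h2 : (1 : ℤ) ≤ (N : ℤ) + 1 := by omega
    nlinarith
  obtain ⟨w, hw1, hw2, hw3⟩ := Pool.Agent.Lib.Kuhn.lebesgue hn hM1 (fun v => c (ζ v)) (by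
    intro u v hu hv i hui hvi he
    have h1 := hb _ _ ((hmem _).1 (hζ u hu).1) ((hmem _).1 (hζ v hv).1) he
    have h2 : dist (p u) (ζ u) < r (ζ u) / 2 := (hζ u hu).2 (mem_ball_self hδ)
    have h3 : dist (p v) (ζ v) < r (ζ v) / 2 := (hζ v hv).2 (mem_ball_self hδ)
    have h4 : dist (p u i) (p v i) ≤ dist (p u) (p v) := dist_le_pi_dist _ _ i
    have h5 : dist (p u i) (p v i) = R := by
      simp only [hp, hui, hvi, hM]
      push_cast
      rw [zero_div, mul_div_assoc, div_self hNpos.ne', mul_one, dist_comm, dist_zero_right]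
      simp
    have h6 := dist_triangle4 (p u) (ζ u) (ζ v) (p v)
    rw [dist_comm (ζ v)] at h6
    linarith [hr1 (ζ u), hr1 (ζ v)])
  obtain ⟨j, j', hne, he⟩ := Fintype.exists_ne_map_eq_of_card_lt
    (fun j : Fin (n + 1) => (⟨dm (c (ζ (w j))), hd _⟩ : Fin n)) (by simp)
  have he' : dm (c (ζ (w j))) = dm (c (ζ (w j'))) := congrArg Fin.val he
  apply hne
  apply hw3
  have h2 : dist (p (w j)) (ζ (w j)) < r (ζ (w j)) / 2 := (hζ _ (hw1 j)).2 (mem_ball_self hδ)
  have h3 : dist (p (w j)) (ζ (w j')) < r (ζ (w j')) / 2 := by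
    apply (hζ _ (hw1 j')).2
    rw [mem_ball, dist_pi_lt_iff hδ]
    intro i
    refine lt_of_le_of_lt ?_ hN
    have a1 : ((w j i : ℤ) : ℝ) ≤ (w j' i : ℝ) + 1 := by exact_mod_cast hw2 j j' i
    have a2 : ((w j' i : ℤ) : ℝ) ≤ (w j i : ℝ) + 1 := by exact_mod_cast hw2 j' j i
    simp only [hp, Real.dist_eq]
    rw [← sub_div, abs_div, abs_of_pos hNpos]
    exact div_le_div_of_nonneg_right (abs_le.2 ⟨by linarith, by linarith⟩) hNpos.le
  have h4 := dist_triangle_left (ζ (w j)) (ζ (w j')) (p (w j))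
  rcases le_total (r (ζ (w j))) (r (ζ (w j'))) with h | h
  · exact hr _ _ (by linarith) he'
  · exact (hr _ _ (by rw [dist_comm]; linarith) he'.symm).symm

section cw

open RelCWComplex

variable {X : Type} [TopologicalSpace X] [T2Space X] [RelCWComplex (univ : Set X) (∅ : Set X)]

omit [T2Space X] in
lemma exists_lab (x : X) :
    ∃ e : (Σ n, cell (C := (univ : Set X)) (D := (∅ : Set X)) n), x ∈ openCell e.1 e.2 := by
  have h := RelCWComplex.union_iUnion_openCell_eq_complex (C := (univ : Set X)) (D := (∅ : Set X))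
  have hx : x ∈ (univ : Set X) := mem_univ x
  rw [← h] at hx
  simp only [empty_union, mem_iUnion] at hx
  obtain ⟨n, j, hj⟩ := hx
  exact ⟨⟨n, j⟩, hj⟩

/-- The open cell containing a point. -/
noncomputable def lab (x : X) : (Σ n, cell (C := (univ : Set X)) (D := (∅ : Set X)) n) :=
  (exists_lab x).choose

lemma mem_lab (x : X) : x ∈ openCell (lab x).1 (lab x).2 := (exists_lab x).choose_spec

lemma lab_eq {x : X} {n : ℕ} {j : cell (C := (univ : Set X)) (D := (∅ : Set X)) n}
    (h : x ∈ openCell n j) : lab x = ⟨n, j⟩ :=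
  RelCWComplex.eq_of_not_disjoint_openCell (n := (lab x).1) (j := (lab x).2)
    (not_disjoint_iff.2 ⟨x, mem_lab x, h⟩)

lemma lab_closedCell {x : X} {n : ℕ} {j : cell (C := (univ : Set X)) (D := (∅ : Set X)) n}
    (h : x ∈ closedCell n j) : lab x = ⟨n, j⟩ ∨ (lab x).1 < n := by
  rw [← cellFrontier_union_openCell_eq_closedCell] at h
  rcases h with h | h
  · obtain ⟨I, hI⟩ := RelCWComplex.cellFrontier_subset_finite_openCell n j
    have := hI h
    simp only [empty_union, mem_iUnion] at this
    obtain ⟨m, hm, i, -, hi⟩ := this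
    right
    rw [lab_eq hi]; exact hm
  · exact Or.inl (lab_eq h)

lemma lab_local (x : X) : ∃ N ∈ nhds x, ∀ y ∈ N, (lab y).1 = (lab x).1 → lab y = lab x := by
  have hc : IsClosed {y : X | (lab y).1 ≤ (lab x).1 ∧ lab y ≠ lab x} := by
    apply RelCWComplex.isClosed_of_disjoint_openCell_or_isClosed_inter_closedCell
      (C := (univ : Set X)) (D := (∅ : Set X)) (subset_univ _) (by simp)
    intro n _ j
    by_cases h : n ≤ (lab x).1 ∧ (⟨n, j⟩ : Σ n, cell (C := (univ : Set X)) (D := (∅ : Set X)) n)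
        ≠ lab x
    · right
      rw [inter_eq_right.2]
      · exact isClosed_closedCell
      · intro y hy
        rcases lab_closedCell hy with h1 | h1
        · exact ⟨by rw [h1]; exact h.1, by rw [h1]; exact h.2⟩
        · refine ⟨by omega, fun e => ?_⟩
          rw [e] at h1; omega
    · left
      rw [disjoint_left]
      intro y hy hy'
      apply h
      rw [← lab_eq hy']
      have := hy.1
      rw [lab_eq hy'] at this
      exact ⟨this, hy.2⟩
  refine ⟨_, hc.isOpen_compl.mem_nhds (fun h => h.2 rfl), fun y hy h => ?_⟩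
  by_contra hne
  exact hy ⟨h.le, hne⟩

lemma lab_finite_closedCell (n : ℕ) (j : cell (C := (univ : Set X)) (D := (∅ : Set X)) n) :
    (lab '' (closedCell n j : Set X)).Finite := by
  rw [← cellFrontier_union_openCell_eq_closedCell, image_union]
  refine Finite.union ?_ ((finite_singleton ⟨n, j⟩).subset ?_)
  · obtain ⟨I, hI⟩ := RelCWComplex.cellFrontier_subset_finite_openCell n j
    have hf : (⋃ m ∈ Iio n, (fun i => (⟨m, i⟩ : Σ n, cell (C := (univ : Set X))
        (D := (∅ : Set X)) n)) '' (I m : Set _)).Finite :=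
      (finite_Iio n).biUnion fun m _ => (I m).finite_toSet.image _
    refine hf.subset ?_
    rintro _ ⟨x, hx, rfl⟩
    have := hI hx
    simp only [empty_union, mem_iUnion] at this
    obtain ⟨m, hm, i, hi, hxi⟩ := this
    simp only [mem_iUnion]
    exact ⟨m, hm, i, hi, (lab_eq hxi).symm⟩
  · rintro _ ⟨x, hx, rfl⟩
    exact lab_eq hx

lemma lab_finite {K : Set X} (hK : IsCompact K) : (lab '' K).Finite := by
  obtain ⟨P, hPK, hPb⟩ := exists_subset_bijOn K (lab (X := X))
  have hPi := hPb.injOn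
  have hcl : ∀ S ⊆ P, IsClosed S := by
    intro S hS
    rw [RelCWComplex.closed (univ : Set X) S (subset_univ _)]
    refine ⟨fun n j => Finite.isClosed ?_, by simp⟩
    apply Finite.of_finite_image (f := lab) ((lab_finite_closedCell n j).subset
      (image_mono inter_subset_right))
    exact hPi.mono (inter_subset_left.trans hS)
  have hPc : IsCompact P := hK.of_isClosed_subset (hcl P subset_rfl) hPK
  have hPd : IsDiscrete P := by
    rw [isDiscrete_iff_forall_mem_exists_isClosed]
    intro s hs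
    exact ⟨s, hcl s hs, inter_eq_left.2 hs⟩
  rw [← hPb.image_eq]
  exact (hPc.finite hPd).image _

end cw

section cmap

variable {n : ℕ} {X : Type} [TopologicalSpace X]

/-- The bump function. -/
noncomputable def bump (y : Fin n → ℝ) : unitInterval := projIcc 0 1 zero_le_one (2 - ‖y‖)

lemma continuous_bump : Continuous (bump (n := n)) :=
  continuous_projIcc.comp (continuous_const.sub continuous_norm)

lemma bump_eq_one {y : Fin n → ℝ} (h : ‖y‖ ≤ 1) : bump y = 1 :=
  projIcc_of_right_le _ (by linarith)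

lemma bump_eq_zero {y : Fin n → ℝ} (h : 2 ≤ ‖y‖) : bump y = 0 :=
  projIcc_of_le_left _ (by linarith)

/-- Iterated coning. -/
noncomputable def cone (C : (Fin n → ℤ) → unitInterval × X → X) (x0 : X) :
    List (Fin n → ℤ) → (Fin n → ℝ) → X
  | [], _ => x0
  | m :: l, y => C m (bump (y - fun i => (m i : ℝ)), cone C x0 l y)

lemma continuous_cone {C : (Fin n → ℤ) → unitInterval × X → X} (hC : ∀ m, Continuous (C m))
    (x0 : X) (l : List (Fin n → ℤ)) : Continuous (cone C x0 l) := by
  induction l with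
  | nil => exact continuous_const
  | cons m l ih =>
    exact (hC m).comp ((continuous_bump.comp (continuous_id.sub continuous_const)).prodMk ih)

/-- The compact sets containing the iterated cones. -/
def kk (C : (Fin n → ℤ) → unitInterval × X → X) (B : Finset (Fin n → ℤ)) (S : Set X) : ℕ → Set X
  | 0 => S
  | j + 1 => kk C B S j ∪ ⋃ m ∈ B, C m '' (univ ×ˢ kk C B S j)

lemma kk_compact {C : (Fin n → ℤ) → unitInterval × X → X} (hC : ∀ m, Continuous (C m))
    (B : Finset (Fin n → ℤ)) {S : Set X} (hS : IsCompact S) (j : ℕ) : IsCompact (kk C B S j) := by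
  induction j with
  | zero => exact hS
  | succ j ih =>
    exact ih.union (B.finite_toSet.isCompact_biUnion fun m _ =>
      (isCompact_univ.prod ih).image (hC m))

lemma kk_mono (C : (Fin n → ℤ) → unitInterval × X → X) (B : Finset (Fin n → ℤ)) (S : Set X) :
    Monotone (kk C B S) :=
  monotone_nat_of_le_succ fun _ => subset_union_left

lemma exists_cmap [ContractibleSpace X] (act : (Fin n → ℤ) → X → X)
    (hc : ∀ m, Continuous (act m)) (h0 : ∀ x, act 0 x = x)
    (hadd : ∀ a b x, act (a + b) x = act a (act b x)) :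
    ∃ K : Set X, IsCompact K ∧ ∀ R : ℕ, ∃ f : (Fin n → ℝ) → X, Continuous f ∧
      ∀ y : Fin n → ℝ, (∀ i, 0 ≤ y i ∧ y i ≤ R) → act (-fun i => ⌊y i⌋) (f y) ∈ K := by
  classical
  obtain ⟨x0, ⟨H⟩⟩ := id_nullhomotopic X
  set C : (Fin n → ℤ) → unitInterval × X → X := fun m p => act m (H (p.1, act (-m) p.2)) with hCd
  have hC : ∀ m, Continuous (C m) := fun m =>
    (hc m).comp (H.continuous.comp (continuous_fst.prodMk ((hc _).comp continuous_snd)))
  have hC0 : ∀ m x, C m (0, x) = x := by
    intro m x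
    simp only [hCd, ContinuousMap.Homotopy.apply_zero, ContinuousMap.id_apply]
    rw [← hadd, add_neg_cancel, h0]
  have hC1 : ∀ m x, C m (1, x) = act m x0 := by
    intro m x
    simp only [hCd, ContinuousMap.Homotopy.apply_one, ContinuousMap.const_apply]
  have hCt : ∀ z m t x, act (-z) (C m (t, x)) = C (m - z) (t, act (-z) x) := by
    intro z m t x
    simp only [hCd]
    rw [← hadd, ← hadd]
    congr 1
    · ring
    · congr 3; ring
  set B : Finset (Fin n → ℤ) := Fintype.piFinset fun _ => Finset.Icc (-2) 2 with hB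
  set S : Set X := (fun m => act m x0) '' (B : Set _) with hS
  have hSc : IsCompact S := (B.finite_toSet.image _).isCompact
  refine ⟨kk C B S B.card, kk_compact hC B hSc _, fun R => ?_⟩
  set l : List (Fin n → ℤ) := (Fintype.piFinset fun _ : Fin n => Finset.Icc (0 : ℤ) R).toList
    with hl
  refine ⟨cone C x0 l, continuous_cone hC x0 l, fun y hy => ?_⟩
  set z : Fin n → ℤ := fun i => ⌊y i⌋ with hz
  have hB' : ∀ m : Fin n → ℤ, bump (y - fun i => (m i : ℝ)) ≠ 0 → m - z ∈ B := by
    intro m hm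
    have h2 : ‖y - fun i => (m i : ℝ)‖ < 2 := by
      by_contra h; exact hm (bump_eq_zero (not_lt.1 h))
    simp only [hB, Fintype.mem_piFinset, Finset.mem_Icc, Pi.sub_apply]
    intro i
    have h3 := lt_of_le_of_lt (norm_le_pi_norm _ i) h2
    simp only [Pi.sub_apply, Real.norm_eq_abs, abs_lt] at h3
    have h4 := Int.floor_le (y i)
    have h5 := Int.lt_floor_add_one (y i)
    have a1 : (-3 : ℝ) < ((m i - ⌊y i⌋ : ℤ) : ℝ) := by push_cast; linarith
    have a2 : ((m i - ⌊y i⌋ : ℤ) : ℝ) < 3 := by push_cast; linarith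
    have b1 : (-3 : ℤ) < m i - ⌊y i⌋ := by exact_mod_cast a1
    have b2 : m i - ⌊y i⌋ < (3 : ℤ) := by exact_mod_cast a2
    simp only [hz]
    omega
  have key : ∀ l : List (Fin n → ℤ), z ∈ l →
      act (-z) (cone C x0 l y) ∈ kk C B S (l.filter (fun m => m - z ∈ B)).length := by
    intro l
    induction l with
    | nil => intro h; simp at h
    | cons m l ih =>
      intro hm
      by_cases h1 : m = z
      · have : bump (y - fun i => (m i : ℝ)) = 1 := by
          apply bump_eq_one
          rw [pi_norm_le_iff_of_nonneg zero_le_one]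
          intro i
          have h4 := Int.floor_le (y i)
          have h5 := Int.lt_floor_add_one (y i)
          simp only [h1, hz, Pi.sub_apply, Real.norm_eq_abs, abs_le]
          constructor <;> linarith
        apply kk_mono C B S (Nat.zero_le _)
        simp only [cone, this, hC1, kk]
        refine ⟨0, by simp [hB, Pi.le_def], ?_⟩
        rw [← hadd, h1, neg_add_cancel]
      · have hzl : z ∈ l := by
          rcases List.mem_cons.1 hm with h | h
          · exact absurd h.symm h1
          · exact h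
        by_cases h2 : bump (y - fun i => (m i : ℝ)) = 0
        · simp only [cone, h2, hC0]
          refine kk_mono C B S ?_ (ih hzl)
          exact (List.Sublist.filter _ (List.sublist_cons_self m l)).length_le
        · have h3 := hB' m h2
          rw [List.filter_cons_of_pos (by simpa using h3), List.length_cons]
          simp only [cone, kk]
          right
          simp only [mem_iUnion]
          exact ⟨m - z, h3, (_, _), ⟨mem_univ _, ih hzl⟩, (hCt z m _ _).symm⟩
  have hzl : z ∈ l := by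
    simp only [hl, Finset.mem_toList, Fintype.mem_piFinset, Finset.mem_Icc, hz]
    intro i
    refine ⟨Int.floor_nonneg.2 (hy i).1, ?_⟩
    have : ((⌊y i⌋ : ℤ) : ℝ) ≤ ((R : ℤ) : ℝ) := by
      have := Int.floor_le (y i)
      push_cast; linarith [(hy i).2]
    exact_mod_cast this
  refine kk_mono C B S ?_ (key l hzl)
  have hnd : (l.filter (fun m => m - z ∈ B)).Nodup := (Finset.nodup_toList _).filter _
  rw [← List.toFinset_card_of_nodup hnd]
  apply Finset.card_le_card_of_injOn (fun m => m - z)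
  · intro m hm
    simp only [Finset.mem_coe, List.mem_toFinset, List.mem_filter, decide_eq_true_eq] at hm
    exact hm.2
  · intro a _ b _ h
    exact sub_left_injective h

end cmap

/-- A group containing free abelian groups of all finite ranks has no properly discontinuous
cell-permuting action on a finite-dimensional contractible CW complex. -/
theorem no_action {G : Type} [Group G]
    (hG : ∀ n : ℕ, ∃ ι : (Fin n → ℤ) → G, Function.Injective ι ∧ ∀ a b, ι (a + b) = ι a * ι b) :
    ¬ ∃ (X : Type) (_ : TopologicalSpace X) (_ : T2Space X)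
        (_ : Topology.RelCWComplex (Set.univ : Set X) (∅ : Set X)) (_ : MulAction G X),
        Topology.RelCWComplex.FiniteDimensional (Set.univ : Set X) ∧
        ContractibleSpace X ∧
        (∀ g : G, Continuous (fun x : X => g • x)) ∧
        ProperlyDiscontinuousSMul G X ∧
        (∀ (g : G) (n : ℕ)
          (i : Topology.RelCWComplex.cell (C := (Set.univ : Set X)) (D := (∅ : Set X)) n),
          ∃ j : Topology.RelCWComplex.cell (C := (Set.univ : Set X)) (D := (∅ : Set X)) n,
            (fun x : X => g • x) '' Topology.RelCWComplex.openCell n i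
              = Topology.RelCWComplex.openCell n j) := by
  rintro ⟨X, _, _, _, _, hfd, hco, hcont, hpd, hcell⟩
  obtain ⟨d, hd⟩ := Filter.eventually_atTop.1 hfd.eventually_isEmpty_cell
  obtain ⟨ι, hinj, hadd⟩ := hG (d + 1)
  have hι0 : ι 0 = 1 := by
    have := hadd 0 0
    rw [add_zero] at this
    exact left_eq_mul.1 this
  obtain ⟨K, hK, hf⟩ := exists_cmap (n := d + 1) (X := X) (fun m x => ι m • x)
    (fun m => hcont _) (fun x => by rw [hι0, one_smul]) (fun a b x => by rw [hadd, mul_smul])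
  set K' : Set X := ⋃ e ∈ lab '' K, RelCWComplex.closedCell e.1 e.2 with hK'
  have hK'c : IsCompact K' :=
    (lab_finite hK).isCompact_biUnion fun e _ => RelCWComplex.isCompact_closedCell
  have hfin := (hpd.finite_disjoint_inter_image hK hK'c).preimage hinj.injOn
  obtain ⟨R0, hR0⟩ := (hfin.image (fun m => ‖(fun i => (m i : ℝ))‖)).bddAbove
  obtain ⟨R1, hR1⟩ := exists_nat_ge (R0 + 2)
  obtain ⟨f, hfc, hfK⟩ := hf (R1 + 1)
  refine no_labelling (n := d + 1) (by omega) (R1 + 1) (fun y => lab (f y)) (fun e => e.1)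
    ?_ ?_ ?_ (by omega)
  · intro y
    by_contra h
    exact (hd _ (by omega)).false (lab (f y)).2
  · intro z
    obtain ⟨N, hN, h⟩ := lab_local (f z)
    obtain ⟨r, hr, hb⟩ := Metric.mem_nhds_iff.1 (hfc.continuousAt.preimage_mem_nhds hN)
    exact ⟨r, hr, fun y hy => h _ (hb hy)⟩
  · intro y y' hy hy' he
    have h1 := hfK y hy
    have h2 := hfK y' hy'
    set z : Fin (d + 1) → ℤ := fun i => ⌊y i⌋ with hz
    set z' : Fin (d + 1) → ℤ := fun i => ⌊y' i⌋ with hz'
    obtain ⟨j, hj⟩ := hcell (ι (-z)) (lab (f y)).1 (lab (f y)).2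
    have h3 : ι (-z) • f y ∈ RelCWComplex.openCell _ j := hj ▸ mem_image_of_mem _ (mem_lab _)
    have h4 : ι (-z) • f y' ∈ RelCWComplex.openCell _ j := by
      rw [← hj]
      refine mem_image_of_mem _ ?_
      have he' : lab (f y) = lab (f y') := he
      rw [he']; exact mem_lab _
    have h5 : ι (-z) • f y' ∈ K' := by
      simp only [hK', mem_iUnion]
      refine ⟨lab (ι (-z) • f y), mem_image_of_mem _ h1, ?_⟩
      rw [lab_eq h3]
      exact RelCWComplex.openCell_subset_closedCell _ _ h4
    have h6 : ‖(fun i => ((z' - z) i : ℝ))‖ ≤ R0 := by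
      apply hR0
      refine mem_image_of_mem _ ⟨ι (-z) • f y', ⟨_, h2, ?_⟩, h5⟩
      show ι (z' - z) • ι (-z') • f y' = _
      rw [← mul_smul, ← hadd]
      congr 2; ring
    have h7 : dist y y' ≤ R0 + 1 := by
      rw [dist_pi_le_iff (by linarith [norm_nonneg (fun i => ((z' - z) i : ℝ))])]
      intro i
      have h8 := (norm_le_pi_norm _ i).trans h6
      simp only [hz, hz', Pi.sub_apply, Int.cast_sub, Real.norm_eq_abs, abs_le] at h8
      have a1 := Int.floor_le (y i)
      have a2 := Int.lt_floor_add_one (y i)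
      have a3 := Int.floor_le (y' i)
      have a4 := Int.lt_floor_add_one (y' i)
      rw [Real.dist_eq, abs_le]
      constructor <;> linarith [h8.1, h8.2]
    push_cast
    linarith

end Pool.Agent.P.MP_91c514_al
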