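import Mathlib

/-!
Synchronised motions in a unital magma with a rotation metric.
-/

namespace Pool.Agent.P.MP_91c514_al

open MulOpposite

/-- Chains of `k` steps. -/
inductive Ch {X : Type} (E : X → X → Prop) : ℕ → X → X → Prop
  | refl (a : X) : Ch E 0 a a
  | step {k : ℕ} {a m b : X} : Ch E k a m → E m b → Ch E (k + 1) a b

/-- A reflexive symmetric one-step relation containing the rotation at the root, for which
multiplication is Lipschitz. -/
structure Met (X : Type) [MulOneClass X] where
  E : X → X → Prop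
  refl : ∀ a, E a a
  symm : ∀ a b, E a b → E b a
  rot : ∀ a b c, E (a * b * c) (a * (b * c))
  hl : ∀ w a b, E a b → Ch E 14 (w * a) (w * b)
  hr : ∀ w a b, E a b → Ch E 14 (a * w) (b * w)

lemma Ch.trans {X : Type} {E : X → X → Prop} {j k : ℕ} {a b c : X} (h1 : Ch E j a b)
    (h2 : Ch E k b c) : Ch E (j + k) a c := by
  induction h2 with
  | refl => exact h1
  | step _ e ih => exact (ih h1).step e

lemma Ch.one {X : Type} {E : X → X → Prop} {a b : X} (h : E a b) : Ch E 1 a b :=
  (Ch.refl a).step h

lemma Ch.map {X Y : Type} {E : X → X → Prop} {E' : Y → Y → Prop} (f : X → Y)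
    (hf : ∀ a b, E a b → E' (f a) (f b)) {k : ℕ} {a b : X} (h : Ch E k a b) :
    Ch E' k (f a) (f b) := by
  induction h with
  | refl => exact Ch.refl _
  | step _ e ih => exact ih.step (hf _ _ e)

section lists

variable {X : Type} [MulOneClass X]

/-- `p₁ (p₂ (… u))`. -/
def vL : List X → X → X
  | [], u => u
  | p :: ps, u => p * vL ps u

/-- `((u …) q₂) q₁`. -/
def vR : List X → X → X
  | [], u => u
  | q :: qs, u => vR qs u * q

@[simp] lemma vL_nil (u : X) : vL [] u = u := rfl
@[simp] lemma vL_cons (p : X) (ps : List X) (u : X) : vL (p :: ps) u = p * vL ps u := rfl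
@[simp] lemma vR_nil (u : X) : vR [] u = u := rfl
@[simp] lemma vR_cons (p : X) (ps : List X) (u : X) : vR (p :: ps) u = vR ps u * p := rfl

lemma vL_append (a b : List X) (u : X) : vL (a ++ b) u = vL a (vL b u) := by
  induction a with
  | nil => rfl
  | cons p a ih => simp [ih]

lemma vR_append (a b : List X) (u : X) : vR (a ++ b) u = vR a (vR b u) := by
  induction a with
  | nil => rfl
  | cons p a ih => simp [ih]

lemma unop_vL (a : List X) (u : Xᵐᵒᵖ) : unop (vL (a.map op) u) = vR a (unop u) := by
  induction a with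
  | nil => rfl
  | cons p a ih => simp [ih]

/-- Plugging `u` into a context. -/
def zip : List (X ⊕ X) → X → X
  | [], u => u
  | Sum.inl p :: c, u => p * zip c u
  | Sum.inr q :: c, u => zip c u * q

/-- The left items of a context. -/
def lefts : List (X ⊕ X) → List X
  | [] => []
  | Sum.inl p :: c => p :: lefts c
  | Sum.inr _ :: c => lefts c

/-- The right items of a context. -/
def rights : List (X ⊕ X) → List X
  | [] => []
  | Sum.inl _ :: c => rights c
  | Sum.inr q :: c => q :: rights c

@[simp] lemma zip_nil (u : X) : zip [] u = u := rfl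
@[simp] lemma zip_inl (p : X) (c : List (X ⊕ X)) (u : X) :
  zip (Sum.inl p :: c) u = p * zip c u := rfl
@[simp] lemma zip_inr (p : X) (c : List (X ⊕ X)) (u : X) :
  zip (Sum.inr p :: c) u = zip c u * p := rfl
omit [MulOneClass X] in
@[simp] lemma lefts_nil : lefts ([] : List (X ⊕ X)) = [] := rfl
omit [MulOneClass X] in
@[simp] lemma lefts_inl (p : X) (c : List (X ⊕ X)) : lefts (Sum.inl p :: c) = p :: lefts c := rfl
omit [MulOneClass X] in
@[simp] lemma lefts_inr (p : X) (c : List (X ⊕ X)) : lefts (Sum.inr p :: c) = lefts c := rfl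
omit [MulOneClass X] in
@[simp] lemma rights_nil : rights ([] : List (X ⊕ X)) = [] := rfl
omit [MulOneClass X] in
@[simp] lemma rights_inl (p : X) (c : List (X ⊕ X)) : rights (Sum.inl p :: c) = rights c := rfl
omit [MulOneClass X] in
@[simp] lemma rights_inr (p : X) (c : List (X ⊕ X)) :
  rights (Sum.inr p :: c) = p :: rights c := rfl

lemma zip_append (a b : List (X ⊕ X)) (u : X) : zip (a ++ b) u = zip a (zip b u) := by
  induction a with
  | nil => rfl
  | cons p a ih => cases p <;> simp [ih]

omit [MulOneClass X] in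
lemma lefts_append (a b : List (X ⊕ X)) : lefts (a ++ b) = lefts a ++ lefts b := by
  induction a with
  | nil => rfl
  | cons p a ih => cases p <;> simp [ih]

omit [MulOneClass X] in
lemma rights_append (a b : List (X ⊕ X)) : rights (a ++ b) = rights a ++ rights b := by
  induction a with
  | nil => rfl
  | cons p a ih => cases p <;> simp [ih]

omit [MulOneClass X] in
lemma length_lefts (a : List (X ⊕ X)) : (lefts a).length ≤ a.length := by
  induction a with
  | nil => exact le_rfl
  | cons p a ih => cases p <;> simp <;> omega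

omit [MulOneClass X] in
lemma length_rights (a : List (X ⊕ X)) : (rights a).length ≤ a.length := by
  induction a with
  | nil => exact le_rfl
  | cons p a ih => cases p <;> simp <;> omega

end lists

/-- Concatenation of paths. -/
def cat {X : Type} (N : ℕ) (f g : ℕ → X) (t : ℕ) : X := if t ≤ N then f t else g (t - (N + 1))

lemma cat_zero {X : Type} (N : ℕ) (f g : ℕ → X) : cat N f g 0 = f 0 := by simp [cat]

lemma cat_end {X : Type} {N t : ℕ} (f g : ℕ → X) (h : N + 1 ≤ t) :
    cat N f g t = g (t - (N + 1)) := by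
  unfold cat; rw [if_neg (by omega)]

lemma cat_rel {X : Type} (R : X → X → Prop) (N : ℕ) {f g f' g' : ℕ → X}
    (h1 : ∀ t, R (f t) (f' t)) (h2 : ∀ t, R (g t) (g' t)) (t : ℕ) :
    R (cat N f g t) (cat N f' g' t) := by
  unfold cat; split_ifs
  · exact h1 _
  · exact h2 _

lemma cat_const {X : Type} (N : ℕ) {f g : ℕ → X} {x : X}
    (h1 : ∀ t, f t = x) (h2 : ∀ t, g t = x) (t : ℕ) : cat N f g t = x := by
  unfold cat; split_ifs
  · exact h1 _
  · exact h2 _

lemma cat_step {X : Type} (R : X → X → Prop) (N : ℕ) {f g : ℕ → X}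
    (h1 : ∀ t, R (f t) (f (t + 1))) (h2 : ∀ t, R (g t) (g (t + 1))) (h3 : R (f N) (g 0)) (t : ℕ) :
    R (cat N f g t) (cat N f g (t + 1)) := by
  unfold cat
  rcases lt_trichotomy t N with h | h | h
  · rw [if_pos h.le, if_pos (by omega)]; exact h1 _
  · rw [if_pos h.le, if_neg (by omega), h, Nat.sub_self]; exact h3
  · rw [if_neg (by omega), if_neg (by omega), show t + 1 - (N + 1) = t - (N + 1) + 1 by omega]
    exact h2 _

/-- The part of a list above the last `D` entries. -/
def top {α : Type} (D : ℕ) (l : List α) : List α := l.take (l.length - D)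

/-- The last `D` entries of a list. -/
def bot {α : Type} (D : ℕ) (l : List α) : List α := l.drop (l.length - D)

lemma top_append_bot {α : Type} (D : ℕ) (l : List α) : top D l ++ bot D l = l :=
  List.take_append_drop _ _

lemma length_top {α : Type} {D : ℕ} {l : List α} (h : l.length ≤ 2 * D) :
    (top D l).length ≤ D := by
  simp [top]; omega

lemma length_bot {α : Type} (D : ℕ) (l : List α) : (bot D l).length ≤ D := by
  simp [bot]; omega

lemma top_short {α : Type} {D : ℕ} {l : List α} (h : l.length ≤ D) : top D l = [] := by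
  simp [top, Nat.sub_eq_zero_of_le h]

lemma bot_short {α : Type} {D : ℕ} {l : List α} (h : l.length ≤ D) : bot D l = l := by
  simp [bot, Nat.sub_eq_zero_of_le h]

lemma top_cons {α : Type} {D : ℕ} (p : α) {l : List α} (h : D ≤ l.length) :
    top D (p :: l) = p :: top D l := by
  unfold top
  rw [List.length_cons, show l.length + 1 - D = l.length - D + 1 by omega, List.take_succ_cons]

lemma bot_cons {α : Type} {D : ℕ} (p : α) {l : List α} (h : D ≤ l.length) :
    bot D (p :: l) = bot D l := by
  unfold bot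
  rw [List.length_cons, show l.length + 1 - D = l.length - D + 1 by omega, List.drop_succ_cons]

namespace Met

variable {X : Type} [MulOneClass X] (M : Met X)

/-- Distance at most `k`. -/
abbrev D (k : ℕ) (a b : X) : Prop := Ch M.E k a b

variable {M}

lemma rfl' (k : ℕ) (a : X) : M.D k a a := by
  induction k with
  | zero => exact Ch.refl a
  | succ k ih => exact ih.step (M.refl a)

lemma of_eq (k : ℕ) {a b : X} (h : a = b) : M.D k a b := h ▸ rfl' k a

lemma mono {j k : ℕ} {a b : X} (h : M.D j a b) (hjk : j ≤ k) : M.D k a b := by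
  have := h.trans (rfl' (M := M) (k - j) b)
  rwa [Nat.add_sub_cancel' hjk] at this

lemma symm' {k : ℕ} {a b : X} (h : M.D k a b) : M.D k b a := by
  induction h with
  | refl => exact Ch.refl _
  | step _ e ih =>
    have := (Ch.one (M.symm _ _ e)).trans ih
    rwa [Nat.add_comm] at this

lemma holdL (w : X) {k : ℕ} {a b : X} (h : M.D k a b) : M.D (14 * k) (w * a) (w * b) := by
  induction h with
  | refl => exact Ch.refl _
  | step _ e ih => exact ih.trans (M.hl w _ _ e)

lemma holdR (w : X) {k : ℕ} {a b : X} (h : M.D k a b) : M.D (14 * k) (a * w) (b * w) := by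
  induction h with
  | refl => exact Ch.refl _
  | step _ e ih => exact ih.trans (M.hr w _ _ e)

lemma rot1 (a b c : X) : M.D 1 (a * b * c) (a * (b * c)) := Ch.one (M.rot a b c)

lemma rot2 (a b c : X) : M.D 1 (a * (b * c)) (a * b * c) := symm' (rot1 a b c)

lemma rotk {k : ℕ} (hk : 1 ≤ k) (a b c : X) : M.D k (a * b * c) (a * (b * c)) :=
  mono (rot1 a b c) hk

lemma rotk' {k : ℕ} (hk : 1 ≤ k) (a b c : X) : M.D k (a * (b * c)) (a * b * c) :=
  mono (rot2 a b c) hk

lemma rot3 {k : ℕ} (hk : 15 ≤ k) (a b c d : X) :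
    M.D k (a * (b * (c * d))) (a * (b * c) * d) :=
  mono ((holdL a (rot2 b c d)).trans (rot2 a (b * c) d)) hk

lemma exists_chain {k : ℕ} {a b : X} (h : M.D k a b) :
    ∃ c : ℕ → X, c 0 = a ∧ (∀ t, k ≤ t → c t = b) ∧ ∀ t, M.D 1 (c t) (c (t + 1)) := by
  induction h with
  | refl a => exact ⟨fun _ => a, rfl, fun _ _ => rfl, fun _ => rfl' _ _⟩
  | @step k a m b _ e ih =>
    obtain ⟨c, h0, h1, h2⟩ := ih
    refine ⟨cat k c (fun _ => b), by rw [cat_zero, h0], fun t ht => by rw [cat_end _ _ ht],
      cat_step _ _ h2 (fun _ => rfl' _ _) ?_⟩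
    rw [h1 k le_rfl]; exact Ch.one e

lemma of_steps {c : ℕ → X} (h : ∀ t, M.D 1 (c t) (c (t + 1))) (t i : ℕ) :
    M.D i (c t) (c (t + i)) := by
  induction i with
  | zero => exact Ch.refl _
  | succ i ih => exact ih.trans (h _)

variable (M) in
lemma exists_sub (s : ℕ) (hs : 0 < s) : ∃ sub : (ℕ → X) → ℕ → X, ∀ f : ℕ → X,
    (∀ t, M.D s (f t) (f (t + 1))) → (∀ t, M.D 1 (sub f t) (sub f (t + 1))) ∧
      (∀ i, sub f (s * i) = f i) ∧ ∀ t, M.D s (sub f t) (f (t / s)) := by
  have key : ∀ f : ℕ → X, ∃ g : ℕ → X, (∀ t, M.D s (f t) (f (t + 1))) →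
      (∀ t, M.D 1 (g t) (g (t + 1))) ∧ (∀ i, g (s * i) = f i) ∧ ∀ t, M.D s (g t) (f (t / s)) := by
    intro f
    by_cases hf : ∀ t, M.D s (f t) (f (t + 1))
    swap
    · exact ⟨f, fun h => absurd h hf⟩
    choose c h0 h1 h2 using fun t => exists_chain (hf t)
    refine ⟨fun t => c (t / s) (t % s), fun _ => ⟨fun t => ?_, fun i => ?_, fun t => ?_⟩⟩
    · by_cases h : t % s + 1 < s
      · have e1 : (t + 1) / s = t / s := by
          rw [Nat.succ_div_of_not_dvd]
          intro hd
          have := Nat.mod_eq_zero_of_dvd hd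
          rw [← Nat.mod_add_mod, Nat.mod_eq_of_lt h] at this
          omega
        have e2 : (t + 1) % s = t % s + 1 := by
          rw [← Nat.mod_add_mod, Nat.mod_eq_of_lt h]
        simp only [e1, e2]
        exact h2 _ _
      · have e0 : t % s + 1 = s := by have := Nat.mod_lt t hs; omega
        have e2 : (t + 1) % s = 0 := by
          rw [← Nat.mod_add_mod, e0, Nat.mod_self]
        have e1 : (t + 1) / s = t / s + 1 :=
          Nat.succ_div_of_dvd (Nat.dvd_of_mod_eq_zero e2)
        simp only [e1, e2]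
        rw [h0, ← h1 (t / s) (t % s + 1) e0.ge]
        exact h2 _ _
    · simp only [Nat.mul_div_cancel_left i hs, Nat.mul_mod_right]
      exact h0 i
    · have := symm' (of_steps (h2 (t / s)) 0 (t % s))
      rw [h0, Nat.zero_add] at this
      exact mono this (Nat.mod_lt t hs).le
  choose sub hsub using key
  exact ⟨sub, hsub⟩

lemma slow_step {s k : ℕ} {f : ℕ → X} (h : ∀ t, M.D k (f t) (f (t + 1))) (t : ℕ) :
    M.D k (f (t / s)) (f ((t + 1) / s)) := by
  by_cases hd : s ∣ t + 1
  · rw [Nat.succ_div_of_dvd hd]; exact h _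
  · rw [Nat.succ_div_of_not_dvd hd]; exact rfl' _ _

lemma rev_step {N k : ℕ} {f : ℕ → X} (h : ∀ t, M.D k (f t) (f (t + 1))) (t : ℕ) :
    M.D k (f (N - t)) (f (N - (t + 1))) := by
  by_cases ht : t < N
  · rw [show N - t = N - (t + 1) + 1 by omega]; exact symm' (h _)
  · rw [show N - t = N - (t + 1) by omega]; exact rfl' _ _

variable (M)

/-- The mirror image. -/
def op : Met Xᵐᵒᵖ where
  E a b := M.E (unop a) (unop b)
  refl _ := M.refl _
  symm _ _ h := M.symm _ _ h
  rot _ _ _ := M.symm _ _ (M.rot _ _ _)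
  hl w _ _ h := (M.hr (unop w) _ _ h).map MulOpposite.op fun _ _ h => h
  hr w _ _ h := (M.hl (unop w) _ _ h).map MulOpposite.op fun _ _ h => h

lemma unop_D {k : ℕ} {a b : Xᵐᵒᵖ} (h : M.op.D k a b) : M.D k (unop a) (unop b) :=
  h.map unop fun _ _ h => h

/-- One-sided travel. -/
structure Sig1 (D N : ℕ) (S : List X → X → X → ℕ → X) : Prop where
  start : ∀ ps u v, ps.length ≤ D → S ps u v 0 = vL ps u * v
  fin : ∀ ps u v t, ps.length ≤ D → N ≤ t → S ps u v t = vL ps 1 * (u * v)
  step : ∀ ps u v t, ps.length ≤ D → M.D 14 (S ps u v t) (S ps u v (t + 1))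
  nil : ∀ u v t, S [] u v t = u * v
  pop : ∀ p ps u v t, ps.length + 1 ≤ D → M.D 196 (S (p :: ps) u v t) (p * S ps u v t)

lemma sig1_one : ∃ N S, M.Sig1 1 N S := by
  refine ⟨1, fun ps u v t => if t = 0 then vL ps u * v else vL ps 1 * (u * v), ?_, ?_, ?_, ?_, ?_⟩
  · intro ps u v _; simp
  · intro ps u v t _ ht; rw [if_neg (by omega)]
  · intro ps u v t h
    rw [if_neg (Nat.succ_ne_zero t)]
    split_ifs
    · match ps, h with
      | [], _ => simpa using rfl' _ _
      | [p], _ => simpa using rotk (by norm_num) _ _ _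
    · exact rfl' _ _
  · intro u v t; simp
  · intro p ps u v t h
    obtain rfl : ps = [] := List.length_eq_zero_iff.1 (by omega)
    split_ifs
    · simpa using rotk (by norm_num) _ _ _
    · simpa using rfl' _ _

lemma sig1_double {D N : ℕ} {S : List X → X → X → ℕ → X} (h : M.Sig1 D N S) :
    ∃ N' S', M.Sig1 (2 * D) N' S' := by
  obtain ⟨sub, hsub⟩ := M.exists_sub 14 (by norm_num)
  refine ⟨N + 1 + (14 * N + 1 + N), fun ps u v => cat N (S (top D ps) (vL (bot D ps) u) v)
    (cat (14 * N) (fun t => if ps.length ≤ D then S ps u v (t / 14) else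
      vL (top D ps) 1 * sub (S (bot D ps) u v) t)
      (fun t => S (top D ps) (vL (bot D ps) 1) (u * v) (N - t))), ?_, ?_, ?_, ?_, ?_⟩
  · intro ps u v hl
    rw [cat_zero, h.start _ _ _ (length_top hl), ← vL_append, top_append_bot]
  · intro ps u v t hl ht
    rw [cat_end _ _ (by omega), cat_end _ _ (by omega), Nat.sub_eq_zero_of_le (by omega),
      h.start _ _ _ (length_top hl), ← vL_append, top_append_bot]
  · intro ps u v t hl
    have hs := hsub (S (bot D ps) u v) fun t => h.step _ _ _ t (length_bot D ps)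
    refine cat_step _ _ (fun t => h.step _ _ _ t (length_top hl)) (cat_step _ _ (fun t => ?_)
      (rev_step fun t => h.step _ _ _ t (length_top hl)) ?_) ?_ t
    · split_ifs with hD
      · exact slow_step (fun t => h.step _ _ _ t hD) t
      · exact holdL _ (hs.1 t)
    · apply of_eq
      rw [Nat.sub_zero, h.fin _ _ _ _ (length_top hl) le_rfl]
      split_ifs with hD
      · rw [h.fin _ _ _ _ hD (by omega), top_short hD, bot_short hD, vL_nil, one_mul]
      · rw [hs.2.1, h.fin _ _ _ _ (length_bot D ps) le_rfl]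
    · apply of_eq
      rw [cat_zero, h.fin _ _ _ _ (length_top hl) le_rfl]
      split_ifs with hD
      · rw [Nat.zero_div, h.start _ _ _ hD, top_short hD, bot_short hD, vL_nil, one_mul]
      · rw [← Nat.mul_zero 14, hs.2.1, h.start _ _ _ (length_bot D ps)]
  · intro u v t
    have e1 : top D ([] : List X) = [] := top_short (Nat.zero_le _)
    have e2 : bot D ([] : List X) = [] := bot_short (Nat.zero_le _)
    refine cat_const _ (fun t => ?_) (cat_const _ (fun t => ?_) fun t => ?_) t <;>
      simp [e1, e2, h.nil]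
  · intro p ps u v t hl
    rcases lt_or_ge ps.length D with hD | hD
    · have hD' : (p :: ps).length ≤ D := hD
      refine cat_rel (fun a b => M.D 196 a (p * b)) _ (fun t => ?_)
        (cat_rel (fun a b => M.D 196 a (p * b)) _ (fun t => ?_) fun t => ?_) t
      · simp only [top_short hD', bot_short hD', top_short hD.le, bot_short hD.le, h.nil, vL_cons]
        exact rotk (by norm_num) _ _ _
      · simp only [if_pos hD', if_pos hD.le]
        exact h.pop _ _ _ _ _ hD
      · simp only [top_short hD', bot_short hD', top_short hD.le, bot_short hD.le, h.nil, vL_cons]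
        exact rotk (by norm_num) _ _ _
    · have hD' : ¬ (p :: ps).length ≤ D := by simp; omega
      have ht : (top D ps).length + 1 ≤ D := by
        have := length_top (D := D) (l := p :: ps) hl
        rwa [top_cons p hD] at this
      refine cat_rel (fun a b => M.D 196 a (p * b)) _ (fun t => ?_)
        (cat_rel (fun a b => M.D 196 a (p * b)) _ (fun t => ?_) fun t => ?_) t
      · simp only [top_cons p hD, bot_cons p hD]
        exact h.pop _ _ _ _ _ ht
      · simp only [if_neg hD', top_cons p hD, bot_cons p hD, vL_cons]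
        split_ifs with h1
        · rw [top_short h1, bot_short h1, vL_nil, mul_one]
          exact holdL p ((hsub (S ps u v) fun t => h.step _ _ _ t h1).2.2 t)
        · exact rotk (by norm_num) _ _ _
      · simp only [top_cons p hD, bot_cons p hD]
        exact h.pop _ _ _ _ _ ht

lemma sig1 (D : ℕ) : ∃ N S, M.Sig1 D N S := by
  have : ∀ j : ℕ, ∃ N S, M.Sig1 (2 ^ j) N S := by
    intro j
    induction j with
    | zero => exact M.sig1_one
    | succ j ih =>
      obtain ⟨N, S, h⟩ := ih
      rw [pow_succ']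
      exact M.sig1_double h
  obtain ⟨N, S, h⟩ := this D
  have hD : D ≤ 2 ^ D := Nat.lt_two_pow_self.le
  exact ⟨N, S, fun _ _ _ hl => h.start _ _ _ (hl.trans hD),
    fun _ _ _ _ hl => h.fin _ _ _ _ (hl.trans hD), fun _ _ _ _ hl => h.step _ _ _ _ (hl.trans hD),
    h.nil, fun _ _ _ _ _ hl => h.pop _ _ _ _ _ (hl.trans hD)⟩

/-- One-sided travel, mirrored. -/
structure Sig1' (D N : ℕ) (S : List X → X → X → ℕ → X) : Prop where
  start : ∀ ps u v, ps.length ≤ D → S ps u v 0 = v * vR ps u
  fin : ∀ ps u v t, ps.length ≤ D → N ≤ t → S ps u v t = v * u * vR ps 1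
  step : ∀ ps u v t, ps.length ≤ D → M.D 14 (S ps u v t) (S ps u v (t + 1))
  nil : ∀ u v t, S [] u v t = v * u
  pop : ∀ p ps u v t, ps.length + 1 ≤ D → M.D 196 (S (p :: ps) u v t) (S ps u v t * p)

lemma sig1' (D : ℕ) : ∃ N S, M.Sig1' D N S := by
  obtain ⟨N, S, h⟩ := M.op.sig1 D
  refine ⟨N, fun ps u v t => unop (S (ps.map MulOpposite.op) (MulOpposite.op u)
    (MulOpposite.op v) t), ?_, ?_, ?_, ?_, ?_⟩
  · intro ps u v hl
    rw [h.start _ _ _ (by simpa using hl), unop_mul, unop_vL]; rfl
  · intro ps u v t hl ht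
    rw [h.fin _ _ _ _ (by simpa using hl) ht, unop_mul, unop_vL]; rfl
  · intro ps u v t hl
    exact M.unop_D (h.step _ _ _ _ (by simpa using hl))
  · intro u v t
    rw [List.map_nil, h.nil]; rfl
  · intro p ps u v t hl
    exact M.unop_D (h.pop _ _ _ _ _ (by simpa using hl))

end Met

end Pool.Agent.P.MP_91c514_al
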