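import Pool.Agent.P.MP_91c514_al.Motion

/-!
Finite binary trees with the rotation metric; expansion and deletion of leaves.
-/

namespace Pool.Agent.P.MP_91c514_al

/-- Finite rooted binary trees. -/
inductive Tr
  | leaf : Tr
  | node (l r : Tr) : Tr

open Tr

instance : Mul Tr := ⟨Tr.node⟩

/-- Trees together with an empty tree. -/
abbrev XT := WithOne Tr

lemma coe_node (l r : Tr) : ((node l r : Tr) : XT) = (l : XT) * (r : XT) := rfl

/-- The two elementary rotations. -/
inductive Mv : Tr → Tr → Prop
  | rot (x y z : Tr) : Mv (node (node x y) z) (node x (node y z))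
  | rot1 (w x y z : Tr) : Mv (node w (node (node x y) z)) (node w (node x (node y z)))

/-- Equal or one rotation apart. -/
def St (a b : Tr) : Prop := a = b ∨ Mv a b ∨ Mv b a

lemma St.symm {a b : Tr} (h : St a b) : St b a := by
  rcases h with h | h | h
  · exact Or.inl h.symm
  · exact Or.inr (Or.inr h)
  · exact Or.inr (Or.inl h)

/-- The one-step relation on trees with an empty tree. -/
def EX (a b : XT) : Prop := a = b ∨ ∃ a' b' : Tr, a = a' ∧ b = b' ∧ St a' b'

lemma EX.refl (a : XT) : EX a a := Or.inl rfl

lemma EX.symm {a b : XT} (h : EX a b) : EX b a := by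
  rcases h with h | ⟨a', b', h1, h2, h⟩
  · exact Or.inl h.symm
  · exact Or.inr ⟨b', a', h2, h1, h.symm⟩

lemma EX.st {a b : Tr} (h : EX (a : XT) b) : St a b := by
  rcases h with h | ⟨a', b', h1, h2, h⟩
  · exact Or.inl (WithOne.coe_inj.1 h)
  · rw [WithOne.coe_inj.1 h1, WithOne.coe_inj.1 h2]; exact h

lemma St.ex {a b : Tr} (h : St a b) : EX (a : XT) b := Or.inr ⟨a, b, rfl, rfl, h⟩

lemma ex_rot (a b c : XT) : EX (a * b * c) (a * (b * c)) := by
  induction a using WithOne.recOneCoe with
  | one => simpa using EX.refl _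
  | coe a =>
  induction b using WithOne.recOneCoe with
  | one => simpa using EX.refl _
  | coe b =>
  induction c using WithOne.recOneCoe with
  | one => simpa using EX.refl _
  | coe c => exact St.ex (Or.inr (Or.inl (Mv.rot a b c)))

lemma ex_rot1 (w a b c : XT) : EX (w * (a * b * c)) (w * (a * (b * c))) := by
  induction w using WithOne.recOneCoe with
  | one => simpa using ex_rot _ _ _
  | coe w =>
  induction a using WithOne.recOneCoe with
  | one => simpa using EX.refl _
  | coe a =>
  induction b using WithOne.recOneCoe with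
  | one => simpa using EX.refl _
  | coe b =>
  induction c using WithOne.recOneCoe with
  | one => simpa using EX.refl _
  | coe c => exact St.ex (Or.inr (Or.inl (Mv.rot1 w a b c)))

lemma chx_refl (k : ℕ) (a : XT) : Ch EX k a a := by
  induction k with
  | zero => exact Ch.refl a
  | succ k ih => exact ih.step (EX.refl a)

lemma chx_mono {j k : ℕ} {a b : XT} (h : Ch EX j a b) (hjk : j ≤ k) : Ch EX k a b := by
  have := h.trans (chx_refl (k - j) b)
  rwa [Nat.add_sub_cancel' hjk] at this

lemma chx_symm {k : ℕ} {a b : XT} (h : Ch EX k a b) : Ch EX k b a := by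
  induction h with
  | refl => exact Ch.refl _
  | step _ e ih =>
    have := (Ch.one e.symm).trans ih
    rwa [Nat.add_comm] at this

lemma hl_mv (w : XT) {a b : Tr} (h : Mv a b) : Ch EX 3 (w * a) (w * b) := by
  cases h with
  | rot x y z => exact chx_mono (Ch.one (ex_rot1 w x y z)) (by norm_num)
  | rot1 v x y z =>
    exact (((Ch.refl _).step (ex_rot w v _).symm).step (ex_rot1 (w * v) x y z)).step
      (ex_rot w v _)

lemma hl_ex (w : XT) {a b : XT} (h : EX a b) : Ch EX 3 (w * a) (w * b) := by
  rcases h with rfl | ⟨a', b', rfl, rfl, rfl | h | h⟩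
  · exact chx_refl _ _
  · exact chx_refl _ _
  · exact hl_mv w h
  · exact chx_symm (hl_mv w h)

lemma hl_ch (w : XT) {k : ℕ} {a b : XT} (h : Ch EX k a b) : Ch EX (3 * k) (w * a) (w * b) := by
  induction h with
  | refl => exact Ch.refl _
  | step _ e ih => exact ih.trans (hl_ex w e)

lemma pentagon (x y z w : XT) : Ch EX 4 (x * y * z * w) (x * (y * z) * w) :=
  ((((Ch.refl _).step (ex_rot (x * y) z w)).step (ex_rot x y (z * w))).step
    (ex_rot1 x y z w).symm).step (ex_rot x (y * z) w).symm

lemma hr_mv (w : XT) {a b : Tr} (h : Mv a b) : Ch EX 14 (a * w) (b * w) := by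
  cases h with
  | rot x y z => exact chx_mono (pentagon x y z w) (by norm_num)
  | rot1 v x y z =>
    exact ((Ch.one (ex_rot (v : XT) _ w)).trans (hl_ch v (pentagon x y z w))).step
      (ex_rot (v : XT) _ w).symm

/-- The rotation metric. -/
def MX : Met XT where
  E := EX
  refl := EX.refl
  symm _ _ := EX.symm
  rot := ex_rot
  hl w _ _ h := chx_mono (hl_ex w h) (by norm_num)
  hr w a b h := by
    rcases h with rfl | ⟨a', b', rfl, rfl, rfl | h | h⟩
    · exact chx_refl _ _
    · exact chx_refl _ _
    · exact hr_mv w h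
    · exact chx_symm (hr_mv w h)

/-- Number of leaves. -/
def sz : Tr → ℕ
  | leaf => 1
  | node l r => sz l + sz r

@[simp] lemma sz_leaf : sz leaf = 1 := rfl
@[simp] lemma sz_node (l r : Tr) : sz (node l r) = sz l + sz r := rfl

lemma sz_pos (T : Tr) : 0 < sz T := by
  induction T with
  | leaf => simp
  | node l r ih _ => simp; omega

lemma eq_leaf_of_sz {T : Tr} (h : sz T = 1) : T = leaf := by
  cases T with
  | leaf => rfl
  | node l r => have := sz_pos l; have := sz_pos r; simp at h; omega

/-- Attach a caret to leaf `c`. -/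
def ex : Tr → ℕ → Tr
  | leaf, c => if c = 0 then node leaf leaf else leaf
  | node l r, c => if c < sz l then node (ex l c) r else node l (ex r (c - sz l))

lemma ex_of_le {T : Tr} {c : ℕ} (h : sz T ≤ c) : ex T c = T := by
  induction T generalizing c with
  | leaf => simp at h; simp [ex]; omega
  | node l r _ ih =>
    simp at h
    rw [ex, if_neg (by omega), ih (by omega)]

lemma sz_ex {T : Tr} {c : ℕ} (h : c < sz T) : sz (ex T c) = sz T + 1 := by
  induction T generalizing c with
  | leaf => simp at h; simp [ex, h]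
  | node l r ihl ihr =>
    simp at h
    rw [ex]
    split_ifs with h1
    · simp [ihl h1]; omega
    · simp [ihr (show c - sz l < sz r by omega)]; omega

/-- Number of leaves, with the empty tree. -/
def szX : XT → ℕ := WithOne.recOneCoe 0 sz

@[simp] lemma szX_one : szX 1 = 0 := rfl
@[simp] lemma szX_coe (T : Tr) : szX T = sz T := rfl

lemma szX_mul (a b : XT) : szX (a * b) = szX a + szX b := by
  induction a using WithOne.recOneCoe with
  | one => simp
  | coe a =>
  induction b using WithOne.recOneCoe with
  | one => simp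
  | coe b => rfl

/-- Expansion, with the empty tree. -/
def exX (a : XT) (c : ℕ) : XT := WithOne.recOneCoe 1 (fun T => ((ex T c : Tr) : XT)) a

@[simp] lemma exX_one (c : ℕ) : exX 1 c = 1 := rfl
@[simp] lemma exX_coe (T : Tr) (c : ℕ) : exX T c = (ex T c : Tr) := rfl

lemma exX_mul (a b : XT) (c : ℕ) :
    exX (a * b) c = if c < szX a then exX a c * b else a * exX b (c - szX a) := by
  induction a using WithOne.recOneCoe with
  | one => simp
  | coe a =>
  induction b using WithOne.recOneCoe with
  | one =>
    simp only [mul_one, exX_coe, szX_coe, exX_one]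
    split_ifs with h
    · rfl
    · rw [ex_of_le (not_lt.1 h)]
  | coe b =>
    rw [← coe_node, exX_coe, ex, szX_coe]
    split_ifs <;> rfl

/-- Delete leaf `p`. -/
def delX : Tr → ℕ → XT
  | leaf, _ => 1
  | node l r, p => if p < sz l then delX l p * r else l * delX r (p - sz l)

lemma szX_delX (T : Tr) (p : ℕ) : szX (delX T p) + 1 = sz T := by
  induction T generalizing p with
  | leaf => rfl
  | node l r ihl ihr =>
    rw [delX]
    split_ifs
    · rw [szX_mul, szX_coe, sz_node, ← ihl p]; omega
    · rw [szX_mul, szX_coe, sz_node, ← ihr (p - sz l)]; omega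

/-- Forget the empty tree. -/
def toT : XT → Tr := WithOne.recOneCoe leaf id

@[simp] lemma toT_coe (T : Tr) : toT T = T := rfl

/-- Delete leaf `p` of a tree with at least two leaves. -/
def del (T : Tr) (p : ℕ) : Tr := toT (delX T p)

lemma coe_del {T : Tr} (h : 2 ≤ sz T) (p : ℕ) : (del T p : XT) = delX T p := by
  have := szX_delX T p
  unfold del
  generalize delX T p = x at this
  induction x using WithOne.recOneCoe with
  | one => simp at this; omega
  | coe a => rfl

lemma sz_del {T : Tr} (h : 2 ≤ sz T) (p : ℕ) : sz (del T p) + 1 = sz T := by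
  rw [← szX_delX T p, ← coe_del h, szX_coe]

lemma delX_mv {a b : Tr} (h : Mv a b) (p : ℕ) : EX (delX a p) (delX b p) := by
  cases h with
  | rot x y z =>
    simp only [delX, sz_node, coe_node]
    by_cases h1 : p < sz x
    · rw [if_pos (by omega), if_pos h1, if_pos h1]; exact ex_rot _ _ _
    · by_cases h2 : p < sz x + sz y
      · rw [if_pos h2, if_neg h1, if_neg h1, if_pos (by omega)]; exact ex_rot _ _ _
      · rw [if_neg h2, if_neg h1, if_neg (by omega), Nat.sub_sub]; exact ex_rot _ _ _
  | rot1 w x y z =>
    simp only [delX, sz_node, coe_node]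
    by_cases h0 : p < sz w
    · rw [if_pos h0, if_pos h0]; exact ex_rot1 _ _ _ _
    rw [if_neg h0, if_neg h0]
    generalize p - sz w = p
    by_cases h1 : p < sz x
    · rw [if_pos (by omega), if_pos h1, if_pos h1]; exact ex_rot1 _ _ _ _
    · by_cases h2 : p < sz x + sz y
      · rw [if_pos h2, if_neg h1, if_neg h1, if_pos (by omega)]; exact ex_rot1 _ _ _ _
      · rw [if_neg h2, if_neg h1, if_neg (by omega), Nat.sub_sub]; exact ex_rot1 _ _ _ _

lemma sz_mv {a b : Tr} (h : Mv a b) : sz a = sz b := by
  cases h <;> simp [Nat.add_assoc]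

lemma sz_st {a b : Tr} (h : St a b) : sz a = sz b := by
  rcases h with rfl | h | h
  · rfl
  · exact sz_mv h
  · exact (sz_mv h).symm

lemma del_st {a b : Tr} (h : St a b) (ha : 2 ≤ sz a) (p : ℕ) : St (del a p) (del b p) := by
  apply EX.st
  rw [coe_del ha, coe_del (sz_st h ▸ ha)]
  rcases h with rfl | h | h
  · exact EX.refl _
  · exact delX_mv h p
  · exact (delX_mv h p).symm

lemma delX_ex {T : Tr} {c : ℕ} (h : c < sz T) : delX (ex T c) (c + 1) = T := by
  induction T generalizing c with
  | leaf =>
    obtain rfl : c = 0 := by simpa using h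
    simp [ex, delX]
  | node l r ihl ihr =>
    simp at h
    rw [ex]
    split_ifs with h1
    · rw [delX, if_pos (by rw [sz_ex h1]; omega), ihl h1, coe_node]
    · rw [delX, if_neg (by omega), show c + 1 - sz l = c - sz l + 1 by omega,
        ihr (by omega), coe_node]

lemma del_ex {T : Tr} {c : ℕ} (h : c < sz T) : del (ex T c) (c + 1) = T := by
  rw [del, delX_ex h, toT_coe]

/-- The subtrees hanging to the left of the rightmost branch. -/
def lsp : Tr → List XT
  | leaf => []
  | node l r => (l : XT) :: lsp r

/-- The subtrees hanging to the right of the leftmost branch. -/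
def rsp : Tr → List XT
  | leaf => []
  | node l r => (r : XT) :: rsp l

lemma vL_lsp (T : Tr) : vL (lsp T) (leaf : Tr) = (T : XT) := by
  induction T with
  | leaf => rfl
  | node l r _ ih => rw [lsp, vL_cons, ih, coe_node]

lemma vR_rsp (T : Tr) : vR (rsp T) (leaf : Tr) = (T : XT) := by
  induction T with
  | leaf => rfl
  | node l r ih _ => rw [rsp, vR_cons, ih, coe_node]

lemma vL_lsp' (T : Tr) :
    vL (lsp T) (((leaf : Tr) : XT) * (leaf : Tr)) = (ex T (sz T - 1) : Tr) := by
  induction T with
  | leaf => rfl
  | node l r _ ih =>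
    have := sz_pos r
    rw [lsp, vL_cons, ih, ex, if_neg (by simp; omega), coe_node]
    congr 3
    simp; omega

lemma vR_rsp' (T : Tr) : vR (rsp T) 1 = delX T 0 := by
  induction T with
  | leaf => rfl
  | node l r ih _ => rw [rsp, vR_cons, ih, delX, if_pos (sz_pos l)]

lemma length_lsp (T : Tr) : (lsp T).length < sz T := by
  induction T with
  | leaf => simp [lsp]
  | node l r _ ih => have := sz_pos l; simp [lsp]; omega

lemma length_rsp (T : Tr) : (rsp T).length < sz T := by
  induction T with
  | leaf => simp [rsp]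
  | node l r ih _ => have := sz_pos r; simp [rsp]; omega

/-- The context of the junction between leaves `p - 1` and `p`. -/
def ctx : Tr → ℕ → List (XT ⊕ XT)
  | leaf, _ => []
  | node l r, p => if p < sz l then Sum.inr (r : XT) :: ctx l p else
      if p = sz l then [] else Sum.inl (l : XT) :: ctx r (p - sz l)

/-- The left spine data at the junction. -/
def jl : Tr → ℕ → List XT
  | leaf, _ => []
  | node l r, p => if p < sz l then jl l p else if p = sz l then lsp l else jl r (p - sz l)

/-- The right spine data at the junction. -/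
def jr : Tr → ℕ → List XT
  | leaf, _ => []
  | node l r, p => if p < sz l then jr l p else if p = sz l then rsp r else jr r (p - sz l)

lemma length_ctx (T : Tr) (p : ℕ) : (ctx T p).length < sz T := by
  induction T generalizing p with
  | leaf => simp [ctx]
  | node l r ihl ihr =>
    have := sz_pos l; have := sz_pos r
    have := ihl p; have := ihr (p - sz l)
    rw [ctx]; split_ifs <;> simp <;> omega

lemma length_jl (T : Tr) (p : ℕ) : (jl T p).length < sz T := by
  induction T generalizing p with
  | leaf => simp [jl]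
  | node l r ihl ihr =>
    have := ihl p; have := ihr (p - sz l); have := length_lsp l
    rw [jl]; split_ifs <;> simp <;> omega

lemma length_jr (T : Tr) (p : ℕ) : (jr T p).length < sz T := by
  induction T generalizing p with
  | leaf => simp [jr]
  | node l r ihl ihr =>
    have := ihl p; have := ihr (p - sz l); have := length_rsp r
    rw [jr]; split_ifs <;> simp <;> omega

lemma zip_fin {T : Tr} {p : ℕ} (h0 : 0 < p) (h : p < sz T) :
    zip (ctx T p) (vL (jl T p) (leaf : Tr) * vR (jr T p) (leaf : Tr)) = (T : XT) := by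
  induction T generalizing p with
  | leaf => simp at h; omega
  | node l r ihl ihr =>
    simp at h
    rw [ctx, jl, jr]
    split_ifs with h1 h2
    · rw [zip_inr, ihl h0 h1, coe_node]
    · rw [zip_nil, vL_lsp, vR_rsp, coe_node]
    · rw [zip_inl, ihr (by omega) (by omega), coe_node]

lemma zip_start {T : Tr} {p : ℕ} (h0 : 0 < p) (h : p < sz T) :
    zip (ctx T p) (vL (jl T p) (((leaf : Tr) : XT) * (leaf : Tr)) * vR (jr T p) 1) =
      exX (delX T p) (p - 1) := by
  induction T generalizing p with
  | leaf => simp at h; omega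
  | node l r ihl ihr =>
    simp at h
    rw [ctx, jl, jr, delX]
    split_ifs with h1 h2
    · have := szX_delX l p
      rw [zip_inr, ihl h0 h1, exX_mul, if_pos (by omega)]
    · rw [zip_nil, vL_lsp', vR_rsp', exX_mul, if_pos (by simp; omega), h2, Nat.sub_self, exX_coe]
    · rw [zip_inl, ihr (by omega) (by omega), exX_mul, if_neg (by simp; omega), szX_coe]
      congr 2; omega

lemma j_ex {T : Tr} {c : ℕ} (h : c < sz T) : jl (ex T c) (c + 1) = [] ∧ jr (ex T c) (c + 1) = [] := by
  induction T generalizing c with
  | leaf =>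
    obtain rfl : c = 0 := by simpa using h
    simp [ex, jl, jr, lsp, rsp]
  | node l r ihl ihr =>
    simp at h
    rw [ex]
    split_ifs with h1
    · rw [jl, jr, if_pos (by rw [sz_ex h1]; omega), if_pos (by rw [sz_ex h1]; omega)]
      exact ihl h1
    · rw [jl, jr, if_neg (by omega), if_neg (by omega), if_neg (by omega), if_neg (by omega),
        show c + 1 - sz l = c - sz l + 1 by omega]
      exact ihr (by omega)

section mot

variable {D N : ℕ} {F : List (XT ⊕ XT) → List XT → List XT → ℕ → XT}

/-- The motion attached to a tree and a junction. -/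
def mt (F : List (XT ⊕ XT) → List XT → List XT → ℕ → XT) (T : Tr) (p t : ℕ) : XT :=
  F (ctx T p) (jl T p) (jr T p) t

lemma mt_lt (h : MX.Mot (leaf : Tr) (leaf : Tr) D N F) {l r : Tr} {p : ℕ} (t : ℕ)
    (hD : sz l ≤ D) (hp : p < sz l) : MX.D 40000 (mt F (node l r) p t) (mt F l p t * r) := by
  unfold mt
  rw [ctx, jl, jr, if_pos hp, if_pos hp, if_pos hp]
  exact h.popR _ _ _ _ _ ((length_ctx l p).trans_le hD)

lemma mt_gt (h : MX.Mot (leaf : Tr) (leaf : Tr) D N F) {l r : Tr} {p : ℕ} (t : ℕ)
    (hD : sz r ≤ D) (hp : sz l < p) :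
    MX.D 40000 (mt F (node l r) p t) (l * mt F r (p - sz l) t) := by
  unfold mt
  rw [ctx, jl, jr, if_neg (by omega), if_neg (by omega), if_neg (by omega), if_neg (by omega),
    if_neg (by omega), if_neg (by omega)]
  exact h.popL _ _ _ _ _ ((length_ctx r _).trans_le hD)

lemma mt_eq (l r : Tr) (t : ℕ) : mt F (node l r) (sz l) t = F [] (lsp l) (rsp r) t := by
  unfold mt
  rw [ctx, jl, jr, if_neg (lt_irrefl _), if_pos rfl, if_neg (lt_irrefl _), if_pos rfl,
    if_neg (lt_irrefl _), if_pos rfl]

lemma mt_junL (h : MX.Mot (leaf : Tr) (leaf : Tr) D N F) {x y z : Tr} (t : ℕ)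
    (hD : sz y ≤ D) : MX.D 40000 (mt F (node (node x y) z) (sz x + sz y) t)
      (x * mt F (node y z) (sz y) t) := by
  rw [← sz_node, mt_eq, mt_eq, lsp]
  exact h.junL _ _ _ _ ((length_lsp y).trans_le hD)

lemma mt_junR (h : MX.Mot (leaf : Tr) (leaf : Tr) D N F) {x y z : Tr} (t : ℕ)
    (hD : sz y ≤ D) : MX.D 40000 (mt F (node x (node y z)) (sz x) t)
      (mt F (node x y) (sz x) t * z) := by
  rw [mt_eq, mt_eq, rsp]
  exact h.junR _ _ _ _ ((length_rsp y).trans_le hD)

open Met in
lemma mt_rot (h : MX.Mot (leaf : Tr) (leaf : Tr) D N F) {x y z : Tr} (p t : ℕ)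
    (hD : sz x + sz y + sz z ≤ D) :
    MX.D 1300000 (mt F (node (node x y) z) p t) (mt F (node x (node y z)) p t) := by
  rcases lt_trichotomy p (sz x) with h1 | h1 | h1
  · exact mono ((((mt_lt h t (by simp; omega) (by simp; omega)).trans
      (holdR _ (mt_lt h t (by omega) h1))).trans (rot1 _ _ _)).trans
      (symm' (mt_lt h t (by omega) h1))) (by norm_num)
  · subst h1
    have := sz_pos y
    exact mono ((mt_lt h t (by simp; omega) (by simp; omega)).trans
      (symm' (mt_junR h t (by omega)))) (by norm_num)
  rcases lt_trichotomy p (sz x + sz y) with h2 | h2 | h2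
  · exact mono (((((mt_lt h t (by simp; omega) (by simp; omega)).trans
      (holdR _ (mt_gt h t (by omega) h1))).trans (rot1 _ _ _)).trans
      (holdL _ (symm' (mt_lt h t (by omega) (by omega))))).trans
      (symm' (mt_gt h t (by simp; omega) h1))) (by norm_num)
  · subst h2
    have := mt_gt h (l := x) (r := node y z) (p := sz x + sz y) t (by simp; omega) h1
    rw [Nat.add_sub_cancel_left] at this
    exact mono ((mt_junL h t (by omega)).trans (symm' this)) (by norm_num)
  · have a1 := mt_gt h (l := node x y) (r := z) (p := p) t (by omega) (by simpa using h2)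
    have a2 := mt_gt h (l := y) (r := z) (p := p - sz x) t (by omega) (by omega)
    rw [Nat.sub_sub] at a2
    exact mono (((a1.trans (rot1 (x : XT) y _)).trans (holdL _ (symm' a2))).trans
      (symm' (mt_gt h t (by simp; omega) h1))) (by norm_num)

open Met in
lemma mt_mv (h : MX.Mot (leaf : Tr) (leaf : Tr) D N F) {a b : Tr} (hab : Mv a b) (p t : ℕ)
    (hD : sz a ≤ D) : MX.D 20000000 (mt F a p t) (mt F b p t) := by
  cases hab with
  | rot x y z => exact mono (mt_rot h p t (by simpa using hD)) (by norm_num)
  | rot1 w x y z =>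
    simp only [sz_node] at hD
    rcases lt_trichotomy p (sz w) with h1 | h1 | h1
    · exact mono (((mt_lt h t (by omega) h1).trans (holdL _ (rot1 (x : XT) y z))).trans
        (symm' (mt_lt h t (by omega) h1))) (by norm_num)
    · subst h1
      exact mono ((((mt_junR h t (by simp; omega)).trans (holdR _ (mt_junR h t (by omega)))).trans
        (rot1 _ (y : XT) z)).trans (symm' (mt_junR h t (by omega)))) (by norm_num)
    · exact mono (((mt_gt h t (by simp; omega) h1).trans
        (holdL _ (mt_rot h _ t (by omega)))).trans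
        (symm' (mt_gt h t (by simp; omega) h1))) (by norm_num)

end mot

/-- The stage motion: from the tree with leaf `c + 1` moved next to leaf `c`, to the tree. -/
theorem exists_stage (n : ℕ) : ∃ (N : ℕ) (P : Tr → ℕ → ℕ → XT),
    (∀ T c, sz T = n → c + 1 < n → P T c 0 = (ex (del T (c + 1)) c : Tr)) ∧
    (∀ T c t, sz T = n → c + 1 < n → N ≤ t → P T c t = T) ∧
    (∀ T c t, sz T = n → Ch EX 40000 (P T c t) (P T c (t + 1))) ∧
    (∀ T T' c t, sz T = n → St T T' → Ch EX 20000000 (P T c t) (P T' c t)) ∧
    (∀ T c t, sz T + 1 = n → c + 1 < n → P (ex T c) c t = (ex T c : Tr)) := by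
  obtain ⟨N, F, h, h'⟩ := MX.mot (leaf : Tr) (leaf : Tr) n
  refine ⟨N, fun T c t => mt F T (c + 1) t, ?_, ?_, ?_, ?_, ?_⟩
  · intro T c hT hc
    subst hT
    simp only [mt]
    rw [h.start _ _ _ (length_ctx _ _).le (length_jl _ _).le (length_jr _ _).le,
      zip_start (by omega) hc, ← coe_del (by omega), exX_coe, Nat.add_sub_cancel]
  · intro T c t hT hc ht
    subst hT
    simp only [mt]
    rw [h.fin _ _ _ _ (length_ctx _ _).le (length_jl _ _).le (length_jr _ _).le ht,
      zip_fin (by omega) hc]
  · intro T c t hT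
    subst hT
    exact h.step _ _ _ _ (length_ctx _ _).le (length_jl _ _).le (length_jr _ _).le
  · intro T T' c t hT hs
    rcases hs with rfl | hs | hs
    · exact chx_refl _ _
    · exact mt_mv h hs _ _ hT.le
    · exact chx_symm (mt_mv h hs _ _ ((sz_mv hs).trans hT).le)
  · intro T c t hT hc
    have h1 : c < sz T := by omega
    have h2 := zip_fin (T := ex T c) (p := c + 1) (by omega) (by rw [sz_ex h1]; omega)
    simp only [mt]
    rw [(j_ex h1).1, (j_ex h1).2] at h2 ⊢
    rw [h']
    exact h2

end Pool.Agent.P.MP_91c514_al
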